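import Pool.Agent.R517.Bad2

/-!
The combined bound for the bad integers of a short interval.
-/

set_option autoImplicit false

namespace Pool.Agent.R517

open Finset Filter

/-- the growth facts used for the bad integers -/
theorem ev_growth : ∀ᶠ X : ℕ in atTop,
    100 ≤ Real.log X ∧ 1 ≤ Real.log (Real.log X) ∧
    4 * (Real.log X) ^ 5 * Nat.sqrt (2 * X) * (X : ℝ) ^ (1 / 20 : ℝ) ≤ (X : ℝ) ^ (3 / 5 : ℝ) ∧
    1 + Real.log (Nat.sqrt (2 * X)) ≤ Real.log X ∧
    Real.log (Nat.log 2 (Nat.sqrt (2 * X)) + 1) ≤ 2 * Real.log (Real.log X) := by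
  have hl : Tendsto (fun X : ℕ => Real.log X) atTop atTop :=
    Real.tendsto_log_atTop.comp tendsto_natCast_atTop_atTop
  have hll : Tendsto (fun X : ℕ => Real.log (Real.log X)) atTop atTop :=
    Real.tendsto_log_atTop.comp hl
  have h1 := hl.eventually_ge_atTop 100
  have h2 := hll.eventually_ge_atTop 1
  have h3 : ∀ᶠ X : ℕ in atTop, (Real.log X) ^ (5 : ℝ) ≤ (X : ℝ) ^ (1 / 50 : ℝ) := by
    have h4 := (isLittleO_log_rpow_rpow_atTop (5 : ℝ) (by norm_num : (0 : ℝ) < 1 / 50)).bound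
      (by norm_num : (0 : ℝ) < 1)
    have h5 := tendsto_natCast_atTop_atTop (R := ℝ) |>.eventually h4
    filter_upwards [h5, h1] with X hX h1X
    rw [one_mul, Real.norm_of_nonneg (Real.rpow_nonneg (by linarith) _),
      Real.norm_of_nonneg (Real.rpow_nonneg (by positivity) _)] at hX
    exact hX
  have h4 : ∀ᶠ X : ℕ in atTop, (8 : ℝ) ≤ (X : ℝ) ^ (1 / 50 : ℝ) :=
    ((tendsto_rpow_atTop (by norm_num : (0 : ℝ) < 1 / 50)).comp
      tendsto_natCast_atTop_atTop).eventually_ge_atTop 8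
  filter_upwards [h1, h2, h3, h4, eventually_ge_atTop 1] with X h1 h2 h3 h4 h5
  have hX0 : (0 : ℝ) < X := by exact_mod_cast h5
  have hR : (Nat.sqrt (2 * X) : ℝ) ≤ 2 * (X : ℝ) ^ (1 / 2 : ℝ) := by
    have h6 : (Nat.sqrt (2 * X) : ℝ) ≤ Real.sqrt ((2 * X : ℕ) : ℝ) := Real.nat_sqrt_le_real_sqrt
    refine h6.trans ?_
    rw [← Real.sqrt_eq_rpow]
    push_cast
    rw [Real.sqrt_mul (by norm_num)]
    have h7 : Real.sqrt 2 ≤ 2 := by
      rw [Real.sqrt_le_left (by norm_num)]; norm_num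
    gcongr
  have hR1 : 1 ≤ Nat.sqrt (2 * X) := by rw [Nat.le_sqrt]; omega
  have hR1' : (1 : ℝ) ≤ (Nat.sqrt (2 * X) : ℝ) := by exact_mod_cast hR1
  have hlR : Real.log (Nat.sqrt (2 * X)) ≤ 1 + Real.log X / 2 := by
    have h6 := Real.log_le_log (by linarith) hR
    rw [Real.log_mul (by norm_num) (by positivity), Real.log_rpow hX0] at h6
    have := Real.log_two_lt_d9
    linarith
  refine ⟨h1, h2, ?_, by linarith, ?_⟩
  · have h6 : (Real.log X) ^ 5 ≤ (X : ℝ) ^ (1 / 50 : ℝ) := by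
      have : (Real.log X) ^ (5 : ℝ) = (Real.log X) ^ 5 := by
        rw [← Real.rpow_natCast]; norm_num
      rw [← this]; exact h3
    have hlog0 : 0 ≤ Real.log X := by linarith
    calc 4 * (Real.log X) ^ 5 * Nat.sqrt (2 * X) * (X : ℝ) ^ (1 / 20 : ℝ)
        ≤ 4 * (X : ℝ) ^ (1 / 50 : ℝ) * (2 * (X : ℝ) ^ (1 / 2 : ℝ)) * (X : ℝ) ^ (1 / 20 : ℝ) := by
          gcongr
      _ = 8 * ((X : ℝ) ^ (1 / 50 : ℝ) * (X : ℝ) ^ (1 / 2 : ℝ) * (X : ℝ) ^ (1 / 20 : ℝ)) := by ring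
      _ ≤ (X : ℝ) ^ (1 / 50 : ℝ) *
          ((X : ℝ) ^ (1 / 50 : ℝ) * (X : ℝ) ^ (1 / 2 : ℝ) * (X : ℝ) ^ (1 / 20 : ℝ)) := by gcongr
      _ = (X : ℝ) ^ (1 / 50 + (1 / 50 + 1 / 2 + 1 / 20) : ℝ) := by
          rw [← Real.rpow_add hX0, ← Real.rpow_add hX0, ← Real.rpow_add hX0]
      _ ≤ (X : ℝ) ^ (3 / 5 : ℝ) := by
          apply Real.rpow_le_rpow_of_exponent_le (by exact_mod_cast h5)
          norm_num
  · -- Nat.log 2 R ≤ log R / log 2
    have h6 : (Nat.log 2 (Nat.sqrt (2 * X)) : ℝ) * Real.log 2 ≤ Real.log (Nat.sqrt (2 * X)) := by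
      have h7 : 2 ^ Nat.log 2 (Nat.sqrt (2 * X)) ≤ Nat.sqrt (2 * X) :=
        Nat.pow_log_le_self 2 (by omega)
      have h8 : ((2 : ℝ) ^ Nat.log 2 (Nat.sqrt (2 * X))) ≤ (Nat.sqrt (2 * X) : ℝ) := by
        exact_mod_cast h7
      have h9 := Real.log_le_log (by positivity) h8
      rw [Real.log_pow] at h9
      exact h9
    have h7 := Real.log_two_gt_d9
    have h8 : (0 : ℝ) ≤ (Nat.log 2 (Nat.sqrt (2 * X)) : ℝ) := by positivity
    have h9 : (Nat.log 2 (Nat.sqrt (2 * X)) : ℝ) + 1 ≤ (Real.log X) ^ 2 := by nlinarith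
    have h10 := Real.log_le_log (by linarith) h9
    rw [Real.log_pow] at h10
    exact_mod_cast h10

theorem badPair_split {z W M m : ℕ} (h : BadPair z M m) : BadPair z W m ∨ BadPair W M m := by
  obtain ⟨q, hq, h1, h2, h3, h4⟩ := h
  rcases le_or_gt q W with h5 | h5
  · exact Or.inl ⟨q, hq, h1, h5, h3, h4⟩
  · exact Or.inr ⟨q, hq, h5, h2, h3, h4⟩

open Classical in
/-- few integers of a short interval are bad -/
theorem bad_bound : ∀ᶠ X : ℕ in atTop, ∀ Y z : ℕ, (X : ℝ) ^ (3 / 5 : ℝ) ≤ Y → Y ≤ X → 1 ≤ z →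
    (z : ℝ) ≤ Real.log X →
    (((Ioc X (X + Y)).filter (fun m => BadSq z m ∨ BadPair z (2 * X) m)).card : ℝ) ≤
      3000 * (Y : ℝ) * Real.log (Real.log X) / z := by
  filter_upwards [ev_growth, eventually_ge_atTop 1] with X hg hX1
  obtain ⟨h1, h2, h3, h4, h5⟩ := hg
  intro Y z hXY hYX hz hzl
  set R := Nat.sqrt (2 * X) with hR
  set L := Real.log X with hL
  set LL := Real.log (Real.log X) with hLL
  set W := ⌊L ^ 3⌋₊ with hW
  have hL3 : L ^ 3 - 1 ≤ W := by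
    have := Nat.lt_floor_add_one (L ^ 3)
    rw [← hW] at this
    linarith
  have hL3' : (W : ℝ) ≤ L ^ 3 := Nat.floor_le (by positivity)
  have hL0 : (0 : ℝ) ≤ L := by linarith
  have hLp : (100 : ℝ) * L ^ 2 ≤ L ^ 3 := by
    have : L ^ 3 = L * L ^ 2 := by ring
    rw [this]; gcongr
  have hLq : (100 : ℝ) * L ≤ L ^ 2 := by
    have : L ^ 2 = L * L := by ring
    rw [this]; gcongr
  have hW1 : 1 ≤ W := by
    have : (1 : ℝ) ≤ W := by linarith
    exact_mod_cast this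
  have hz0 : (0 : ℝ) < z := by exact_mod_cast hz
  have hX0 : (0 : ℝ) < X := by exact_mod_cast hX1
  have hX2 : (1 : ℝ) ≤ (X : ℝ) ^ (1 / 20 : ℝ) := by
    apply Real.one_le_rpow (by exact_mod_cast hX1) (by norm_num)
  have hR1 : 1 ≤ R := by rw [hR, Nat.le_sqrt]; omega
  have hR1' : (1 : ℝ) ≤ (R : ℝ) := by exact_mod_cast hR1
  have hY0 : (0 : ℝ) ≤ Y := by positivity
  -- R L^5 ≤ Y
  have hRY : 4 * L ^ 5 * R ≤ Y := by
    refine le_trans ?_ (h3.trans hXY)
    exact le_mul_of_one_le_right (by positivity) hX2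
  have hRYz : L ^ 4 * R ≤ Y / z := by
    rw [le_div_iff₀ hz0]
    have e1 : L ^ 4 * R * z ≤ L ^ 4 * R * L := by gcongr
    have e2 : L ^ 4 * R * L = L ^ 5 * R := by ring
    have e3 : (0 : ℝ) ≤ L ^ 5 * R := by positivity
    linarith
  have hL4 : L ≤ L ^ 4 ∧ L ^ 3 ≤ L ^ 4 ∧ 1 ≤ L ^ 4 := by
    have hL1 : (1 : ℝ) ≤ L := by linarith
    refine ⟨?_, ?_, one_le_pow₀ hL1⟩
    · calc L = L ^ 1 := by ring
        _ ≤ L ^ 4 := pow_le_pow_right₀ hL1 (by norm_num)
    · exact pow_le_pow_right₀ hL1 (by norm_num)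
  have b1 := bad_sq X Y z hz hX1 hYX
  have b2 := bad_large X Y W hW1 hX1 hYX
  have b3 := bad_small X Y z W hz hX1 hYX (by
    push_cast
    refine le_trans ?_ (h3.trans hXY)
    have hWL : (W : ℝ) ≤ 4 * L ^ 5 := by
      have : L ^ 3 ≤ L ^ 5 := pow_le_pow_right₀ (by linarith) (by norm_num)
      have e3 : (0 : ℝ) ≤ L ^ 5 := by positivity
      linarith
    calc (X : ℝ) ^ (1 / 20 : ℝ) * (R * W) ≤ (X : ℝ) ^ (1 / 20 : ℝ) * (R * (4 * L ^ 5)) := by gcongr
      _ = _ := by ring) (by linarith) h4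
  rw [← hR] at b1 b2 b3
  have hsub : (Ioc X (X + Y)).filter (fun m => BadSq z m ∨ BadPair z (2 * X) m) ⊆
      (Ioc X (X + Y)).filter (BadSq z) ∪ ((Ioc X (X + Y)).filter (BadPair z W) ∪
        (Ioc X (X + Y)).filter (BadPair W (2 * X))) := by
    intro m hm
    rw [mem_filter] at hm
    rw [mem_union, mem_union, mem_filter, mem_filter, mem_filter]
    rcases hm.2 with h | h
    · exact Or.inl ⟨hm.1, h⟩
    · rcases badPair_split (W := W) h with h | h
      · exact Or.inr (Or.inl ⟨hm.1, h⟩)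
      · exact Or.inr (Or.inr ⟨hm.1, h⟩)
  have hc : (((Ioc X (X + Y)).filter (fun m => BadSq z m ∨ BadPair z (2 * X) m)).card : ℝ) ≤
      ((Ioc X (X + Y)).filter (BadSq z)).card + (((Ioc X (X + Y)).filter (BadPair z W)).card +
        ((Ioc X (X + Y)).filter (BadPair W (2 * X))).card) := by
    have := (card_le_card hsub).trans ((card_union_le _ _).trans
      (Nat.add_le_add_left (card_union_le _ _) _))
    exact_mod_cast this
  refine hc.trans ?_
  -- square part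
  have c1 : (Y : ℝ) / z + R ≤ 2 * (Y / z) := by
    have : (R : ℝ) ≤ L ^ 4 * R := le_mul_of_one_le_left (by positivity) hL4.2.2
    linarith
  -- large part
  have c2 : 2 * ((Y : ℝ) / W + R) * (1 + Real.log R) ≤ 4 * (Y / z) := by
    have d1 : (Y : ℝ) / W ≤ Y / (z * L) := by
      apply div_le_div_of_nonneg_left hY0 (by positivity)
      have e1 : (z : ℝ) * L ≤ L * L := by gcongr
      have e2 : L * L = L ^ 2 := by ring
      have e3 : (100 : ℝ) * 100 ≤ L * L := by gcongr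
      linarith
    have d2 : 0 ≤ 1 + Real.log R := by
      have := Real.log_nonneg hR1'
      linarith
    have d3 : (Y : ℝ) / (z * L) * L = Y / z := by field_simp
    have d4 : (R : ℝ) * L ≤ Y / z := by
      refine le_trans ?_ hRYz
      rw [mul_comm]
      exact mul_le_mul_of_nonneg_right hL4.1 (by positivity)
    calc 2 * ((Y : ℝ) / W + R) * (1 + Real.log R)
        ≤ 2 * ((Y : ℝ) / (z * L) + R) * L := by gcongr
      _ = 2 * ((Y : ℝ) / (z * L) * L) + 2 * (R * L) := by ring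
      _ ≤ 4 * (Y / z) := by rw [d3]; linarith
  have hYz : (0 : ℝ) ≤ Y / z := by positivity
  have hYzL : (Y : ℝ) / z ≤ Y / z * LL := le_mul_of_one_le_right hYz h2
  have c3 : (Y : ℝ) * (2705 + 64 * Real.log (Nat.log 2 R + 1)) / z + W * R ≤
      Y / z * (2834 * LL) := by
    have d1 : (W : ℝ) * R ≤ Y / z := by
      refine le_trans ?_ hRYz
      have : (W : ℝ) ≤ L ^ 4 := hL3'.trans hL4.2.1
      gcongr
    have d2 : (Y : ℝ) * (2705 + 64 * Real.log (Nat.log 2 R + 1)) / z ≤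
        Y * (2705 * LL + 128 * LL) / z := by
      have e4 : 2705 + 64 * Real.log (Nat.log 2 R + 1) ≤ 2705 * LL + 128 * LL := by linarith
      apply div_le_div_of_nonneg_right _ hz0.le
      exact mul_le_mul_of_nonneg_left e4 hY0
    have d3 : (Y : ℝ) * (2705 * LL + 128 * LL) / z = 2833 * (Y / z * LL) := by ring
    have d5 : Y / z * (2834 * LL) = 2834 * (Y / z * LL) := by ring
    rw [d5]
    rw [d3] at d2
    linarith
  have e : 3000 * (Y : ℝ) * LL / z = 3000 * (Y / z * LL) := by ring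
  have e2 : Y / z * (2834 * LL) = 2834 * (Y / z * LL) := by ring
  rw [e2] at c3
  rw [e]
  linarith

end Pool.Agent.R517
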