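import Mathlib

/-!
Counting integers of an interval that avoid sets of residue classes modulo distinct primes.
-/

set_option autoImplicit false

namespace Pool.Agent.R517

open Finset

/-- product structure of the residue classes modulo coprime moduli -/
theorem card_crt {a b : ℕ} (ha : 0 < a) (hb : 0 < b) (hab : Nat.Coprime a b) (A B : ℕ → Prop)
    [DecidablePred A] [DecidablePred B] :
    ((range (a * b)).filter (fun n => A (n % a) ∧ B (n % b))).card =
      ((range a).filter A).card * ((range b).filter B).card := by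
  rw [← card_product]
  refine card_nbij' (fun n => (n % a, n % b)) (fun x => (Nat.chineseRemainder hab x.1 x.2 : ℕ))
    ?_ ?_ ?_ ?_
  · intro n hn
    simp only [coe_filter, mem_range, Set.mem_ofPred_eq] at hn
    simp only [coe_product, coe_filter, mem_range, Set.mem_prod, Set.mem_ofPred_eq]
    exact ⟨⟨Nat.mod_lt _ ha, hn.2.1⟩, ⟨Nat.mod_lt _ hb, hn.2.2⟩⟩
  · rintro ⟨r, s⟩ hx
    simp only [coe_product, coe_filter, mem_range, Set.mem_prod, Set.mem_ofPred_eq] at hx
    simp only [coe_filter, mem_range, Set.mem_ofPred_eq]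
    have h1 := (Nat.chineseRemainder hab r s).2.1
    have h2 := (Nat.chineseRemainder hab r s).2.2
    refine ⟨Nat.chineseRemainder_lt_mul hab r s ha.ne' hb.ne', ?_, ?_⟩
    · rw [Nat.ModEq] at h1
      rw [h1, Nat.mod_eq_of_lt hx.1.1]
      exact hx.1.2
    · rw [Nat.ModEq] at h2
      rw [h2, Nat.mod_eq_of_lt hx.2.1]
      exact hx.2.2
  · intro n hn
    simp only [coe_filter, mem_range, Set.mem_ofPred_eq] at hn
    have h := Nat.chineseRemainder_modEq_unique hab (a := n % a) (b := n % b) (z := n)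
      (Nat.mod_modEq n a).symm (Nat.mod_modEq n b).symm
    have h3 := Nat.chineseRemainder_lt_mul hab (n % a) (n % b) ha.ne' hb.ne'
    have h4 := Nat.ModEq.eq_of_lt_of_lt h hn.1 h3
    exact h4.symm
  · rintro ⟨r, s⟩ hx
    simp only [coe_product, coe_filter, mem_range, Set.mem_prod, Set.mem_ofPred_eq] at hx
    have h1 := (Nat.chineseRemainder hab r s).2.1
    have h2 := (Nat.chineseRemainder hab r s).2.2
    rw [Nat.ModEq] at h1 h2
    simp only [Prod.mk.injEq]
    rw [h1, h2, Nat.mod_eq_of_lt hx.1.1, Nat.mod_eq_of_lt hx.2.1]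
    exact ⟨rfl, rfl⟩

/-- `n` avoids the forbidden classes `F p`, `p ∈ S` -/
def Avoid (F : ℕ → Finset ℕ) (S : Finset ℕ) (n : ℕ) : Prop := ∀ p ∈ S, n % p ∉ F p

instance (F : ℕ → Finset ℕ) (S : Finset ℕ) : DecidablePred (Avoid F S) := fun n => by
  unfold Avoid; infer_instance

theorem avoid_mod (F : ℕ → Finset ℕ) (S : Finset ℕ) {P : ℕ} (hP : ∀ p ∈ S, p ∣ P) (n : ℕ) :
    Avoid F S (n % P) ↔ Avoid F S n := by
  unfold Avoid
  refine forall_congr' fun p => forall_congr' fun hp => ?_
  rw [Nat.mod_mod_of_dvd _ (hP p hp)]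

theorem card_avoid (F : ℕ → Finset ℕ) (hF : ∀ p, p.Prime → F p ⊆ range p) (S : Finset ℕ)
    (hS : ∀ p ∈ S, p.Prime) :
    ((range (∏ p ∈ S, p)).filter (Avoid F S)).card = ∏ p ∈ S, (p - (F p).card) := by
  induction S using Finset.induction_on with
  | empty =>
    simp only [prod_empty, range_one]
    rw [filter_true_of_mem (fun n _ p hp => absurd hp (notMem_empty p))]
    simp
  | insert p S hp ih =>
    have hpp := hS p (mem_insert_self _ _)
    have hS' : ∀ r ∈ S, r.Prime := fun r hr => hS r (mem_insert_of_mem hr)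
    have hcop : Nat.Coprime p (∏ r ∈ S, r) := by
      apply Nat.Coprime.prod_right
      intro r hr
      exact (Nat.coprime_primes hpp (hS' r hr)).2 fun h => hp (h ▸ hr)
    have hpos : 0 < ∏ r ∈ S, r := prod_pos fun r hr => (hS' r hr).pos
    rw [prod_insert hp, prod_insert hp, ← ih hS']
    have h1 := card_crt hpp.pos hpos hcop (fun r => r ∉ F p) (Avoid F S)
    have h2 : ((range p).filter (fun r => r ∉ F p)).card = p - (F p).card := by
      rw [filter_notMem_eq_sdiff, card_sdiff_of_subset (hF p hpp), card_range]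
    rw [← h2, ← h1]
    congr 1
    apply filter_congr
    intro n _
    rw [avoid_mod F S (fun r hr => dvd_prod_of_mem _ hr)]
    unfold Avoid
    rw [forall_mem_insert]

/-- the density of the integers avoiding the forbidden classes -/
noncomputable def dens (F : ℕ → Finset ℕ) (S : Finset ℕ) : ℝ := ∏ p ∈ S, (1 - ((F p).card : ℝ) / p)

theorem dens_eq (F : ℕ → Finset ℕ) (hF : ∀ p, p.Prime → F p ⊆ range p) (S : Finset ℕ)
    (hS : ∀ p ∈ S, p.Prime) :
    ((∏ p ∈ S, (p - (F p).card) : ℕ) : ℝ) = dens F S * ((∏ p ∈ S, p : ℕ) : ℝ) := by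
  unfold dens
  push_cast
  rw [← prod_mul_distrib]
  apply prod_congr rfl
  intro p hp
  have hpp := hS p hp
  have h1 : (F p).card ≤ p := by
    have := card_le_card (hF p hpp)
    rwa [card_range] at this
  have h2 : (p : ℝ) ≠ 0 := by exact_mod_cast hpp.ne_zero
  rw [Nat.cast_sub h1]
  field_simp

theorem dens_nonneg (F : ℕ → Finset ℕ) (hF : ∀ p, p.Prime → F p ⊆ range p) (S : Finset ℕ)
    (hS : ∀ p ∈ S, p.Prime) : 0 ≤ dens F S := by
  unfold dens
  apply prod_nonneg
  intro p hp
  have hpp := hS p hp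
  have h1 : (F p).card ≤ p := by
    have := card_le_card (hF p hpp)
    rwa [card_range] at this
  have h2 : (0 : ℝ) < p := by exact_mod_cast hpp.pos
  have h3 : ((F p).card : ℝ) / p ≤ 1 := by
    rw [div_le_one h2]; exact_mod_cast h1
  linarith

theorem dens_le_one (F : ℕ → Finset ℕ) (hF : ∀ p, p.Prime → F p ⊆ range p) (S : Finset ℕ)
    (hS : ∀ p ∈ S, p.Prime) : dens F S ≤ 1 := by
  unfold dens
  apply prod_le_one
  · intro p hp
    have hpp := hS p hp
    have h1 : (F p).card ≤ p := by
      have := card_le_card (hF p hpp)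
      rwa [card_range] at this
    have h2 : (0 : ℝ) < p := by exact_mod_cast hpp.pos
    have h3 : ((F p).card : ℝ) / p ≤ 1 := by
      rw [div_le_one h2]; exact_mod_cast h1
    linarith
  · intro p _
    have : 0 ≤ ((F p).card : ℝ) / p := by positivity
    linarith

/-- the number of integers of an interval of length `Y` avoiding the forbidden classes -/
theorem count_avoid (F : ℕ → Finset ℕ) (hF : ∀ p, p.Prime → F p ⊆ range p) (S : Finset ℕ)
    (hS : ∀ p ∈ S, p.Prime) (X Y : ℕ) :
    |(((Ioc X (X + Y)).filter (Avoid F S)).card : ℝ) - dens F S * Y| ≤ ((∏ p ∈ S, p : ℕ) : ℝ) := by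
  set P := ∏ p ∈ S, p with hPdef
  have hP0 : 0 < P := prod_pos fun r hr => (hS r hr).pos
  have hd : ∀ p ∈ S, p ∣ P := fun p hp => dvd_prod_of_mem _ hp
  have hper : Function.Periodic (Avoid F S) P := by
    intro n
    rw [eq_iff_iff, ← avoid_mod F S hd, Nat.add_mod_right, avoid_mod F S hd]
  set c := (P.count (Avoid F S)) with hc
  have hc2 : (c : ℝ) = dens F S * P := by
    rw [hc, Nat.count_eq_card_filter_range, card_avoid F hF S hS, dens_eq F hF S hS]
  have hIoc : Ioc X (X + Y) = Ico (X + 1) (X + 1 + Y) := by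
    ext n; simp only [mem_Ioc, mem_Ico]; omega
  rw [hIoc]
  -- lower and upper bounds through full periods
  have key : ∀ k a : ℕ, ((Ico a (a + k * P)).filter (Avoid F S)).card = k * c := by
    intro k
    induction k with
    | zero => intro a; simp
    | succ k ih =>
      intro a
      have h1 : Ico a (a + (k + 1) * P) = Ico a (a + k * P) ∪ Ico (a + k * P) (a + k * P + P) := by
        rw [Ico_union_Ico_eq_Ico (by omega) (by omega)]
        congr 1
        ring
      rw [h1, filter_union, card_union_of_disjoint, ih, Nat.filter_Ico_card_eq_of_periodic _ _ _ hper]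
      · ring
      · apply disjoint_filter_filter
        rw [disjoint_left]
        intro n hn1 hn2
        rw [mem_Ico] at hn1 hn2
        omega
  have hY := Nat.div_add_mod Y P
  have hmod := Nat.mod_lt Y hP0
  have hlow : (Y / P) * c ≤ ((Ico (X + 1) (X + 1 + Y)).filter (Avoid F S)).card := by
    rw [← key (Y / P) (X + 1)]
    apply card_le_card
    apply filter_subset_filter
    apply Ico_subset_Ico_right
    have : Y / P * P ≤ Y := Nat.div_mul_le_self Y P
    omega
  have hup : ((Ico (X + 1) (X + 1 + Y)).filter (Avoid F S)).card ≤ (Y / P) * c + Y % P := by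
    rw [← key (Y / P) (X + 1)]
    have h1 : Ico (X + 1) (X + 1 + Y) = Ico (X + 1) (X + 1 + Y / P * P) ∪
        Ico (X + 1 + Y / P * P) (X + 1 + Y) := by
      rw [Ico_union_Ico_eq_Ico (by omega)]
      have : Y / P * P ≤ Y := Nat.div_mul_le_self Y P
      omega
    rw [h1, filter_union]
    refine (card_union_le _ _).trans ?_
    gcongr
    refine (card_filter_le _ _).trans ?_
    rw [Nat.card_Ico]
    have h2 : P * (Y / P) = Y / P * P := mul_comm _ _
    omega
  have hlowR : ((Y / P : ℕ) : ℝ) * c ≤ (((Ico (X + 1) (X + 1 + Y)).filter (Avoid F S)).card : ℝ) := by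
    exact_mod_cast hlow
  have hupR : (((Ico (X + 1) (X + 1 + Y)).filter (Avoid F S)).card : ℝ) ≤
      ((Y / P : ℕ) : ℝ) * c + ((Y % P : ℕ) : ℝ) := by
    exact_mod_cast hup
  have hYR : (P : ℝ) * ((Y / P : ℕ) : ℝ) + ((Y % P : ℕ) : ℝ) = Y := by exact_mod_cast hY
  have hmR : ((Y % P : ℕ) : ℝ) ≤ P := by exact_mod_cast hmod.le
  have hm0 : (0 : ℝ) ≤ ((Y % P : ℕ) : ℝ) := Nat.cast_nonneg _
  have hd0 := dens_nonneg F hF S hS
  have hd1 := dens_le_one F hF S hS
  have e1 : ((Y / P : ℕ) : ℝ) * c = dens F S * Y - dens F S * ((Y % P : ℕ) : ℝ) := by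
    rw [hc2, ← hYR]; ring
  rw [abs_le]
  constructor
  · have : dens F S * ((Y % P : ℕ) : ℝ) ≤ 1 * P := by gcongr
    linarith
  · have : 0 ≤ dens F S * ((Y % P : ℕ) : ℝ) := by positivity
    linarith

end Pool.Agent.R517
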