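import Pool.Agent.R517.TK
import Pool.Agent.R517.Dens
import Pool.Agent.R517.Bad3

/-!
Tuples of linear forms taking cyclic values in short intervals: the two sieve inequalities.
-/

set_option autoImplicit false

namespace Pool.Agent.R517

open Finset Filter

/-- the primes up to `z` -/
def Pz (z : ℕ) : Finset ℕ := (Icc 1 z).filter Nat.Prime

theorem Pz_prime {z p : ℕ} (h : p ∈ Pz z) : p.Prime := (mem_filter.1 h).2

theorem prod_Pz_le (z : ℕ) : ((∏ p ∈ Pz z, p : ℕ) : ℝ) ≤ 4 ^ z := by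
  have h := primorial_le_four_pow z
  have h1 : ∏ p ∈ Pz z, p = primorial z := by
    unfold primorial Pz
    apply prod_congr _ (fun _ _ => rfl)
    ext p
    simp only [mem_filter, mem_Icc, mem_range]
    constructor
    · rintro ⟨⟨h1, h2⟩, h3⟩; exact ⟨by omega, h3⟩
    · rintro ⟨h1, h2⟩; exact ⟨⟨h2.one_lt.le, by omega⟩, h2⟩
  rw [h1]
  exact_mod_cast h

/-- the forbidden classes for the linear forms `h.1 * n + h.2`, `h ∈ H` -/
def Fh (H : Finset (ℕ × ℕ)) (p : ℕ) : Finset ℕ :=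
  (range p).filter (fun r => ∃ h ∈ H, p ∣ h.1 * r + h.2)

theorem Fh_subset (H : Finset (ℕ × ℕ)) (p : ℕ) (_ : p.Prime) : Fh H p ⊆ range p := filter_subset _ _

theorem mod_mem_Fh (H : Finset (ℕ × ℕ)) {p : ℕ} (hp : p.Prime) (n : ℕ) :
    n % p ∈ Fh H p ↔ ∃ h ∈ H, p ∣ h.1 * n + h.2 := by
  unfold Fh
  rw [mem_filter, mem_range]
  have h1 : ∀ h : ℕ × ℕ, p ∣ h.1 * (n % p) + h.2 ↔ p ∣ h.1 * n + h.2 := by
    intro h
    have h2 : h.1 * (n % p) + h.2 ≡ h.1 * n + h.2 [MOD p] :=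
      Nat.ModEq.add_right _ (Nat.ModEq.mul_left _ (Nat.mod_modEq n p))
    exact h2.dvd_iff dvd_rfl
  simp only [h1]
  exact ⟨fun h => h.2, fun h => ⟨Nat.mod_lt _ hp.pos, h⟩⟩

open Classical in
/-- the integers of the interval at which all forms take cyclic values -/
noncomputable def tup (H : Finset (ℕ × ℕ)) (X Y : ℕ) : Finset ℕ :=
  (Ioc X (X + Y)).filter (fun n => ∀ h ∈ H, Cyc (h.1 * n + h.2))

open Classical in
theorem mem_tup {H : Finset (ℕ × ℕ)} {X Y n : ℕ} : n ∈ tup H X Y ↔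
    n ∈ Ioc X (X + Y) ∧ ∀ h ∈ H, Cyc (h.1 * n + h.2) := by
  unfold tup
  rw [mem_filter]

/-- transport along a linear form -/
theorem card_form (Q : ℕ → Prop) [DecidablePred Q] (a b X Y : ℕ) (ha : 1 ≤ a) :
    ((Ioc X (X + Y)).filter (fun n => Q (a * n + b))).card ≤
      ((Ioc (a * X + b) (a * X + b + a * Y)).filter Q).card := by
  apply card_le_card_of_injOn (fun n => a * n + b)
  · intro n hn
    rw [coe_filter, Set.mem_ofPred_eq, mem_Ioc] at hn
    rw [coe_filter, Set.mem_ofPred_eq, mem_Ioc]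
    obtain ⟨⟨h1, h2⟩, h3⟩ := hn
    refine ⟨⟨?_, ?_⟩, h3⟩
    · have : a * X < a * n := Nat.mul_lt_mul_of_pos_left h1 ha
      show a * X + b < a * n + b
      omega
    · have : a * n ≤ a * (X + Y) := Nat.mul_le_mul_left a h2
      rw [mul_add] at this
      show a * n + b ≤ a * X + b + a * Y
      omega
  · intro n _ n' _ hnn
    have h : a * n + b = a * n' + b := hnn
    exact Nat.eq_of_mul_eq_mul_left ha (by omega)

open Classical in
/-- the lower sieve inequality -/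
theorem tup_lower (H : Finset (ℕ × ℕ)) (X Y z : ℕ) (ha : ∀ h ∈ H, 1 ≤ h.1) (hYX : Y ≤ X)
    (E : ℝ) (hE : ∀ h ∈ H, (((Ioc (h.1 * X + h.2) (h.1 * X + h.2 + h.1 * Y)).filter
      (fun m => BadSq z m ∨ BadPair z (2 * (h.1 * X + h.2)) m)).card : ℝ) ≤ E) :
    dens (Fh H) (Pz z) * Y - 4 ^ z - H.card * E ≤ ((tup H X Y).card : ℝ) := by
  have h1 := count_avoid (Fh H) (Fh_subset H) (Pz z) (fun p hp => Pz_prime hp) X Y
  rw [abs_le] at h1
  have h2 := prod_Pz_le z
  have hsub : (Ioc X (X + Y)).filter (Avoid (Fh H) (Pz z)) ⊆ tup H X Y ∪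
      H.biUnion (fun h => (Ioc X (X + Y)).filter (fun n =>
        BadSq z (h.1 * n + h.2) ∨ BadPair z (2 * (h.1 * X + h.2)) (h.1 * n + h.2))) := by
    intro n hn
    rw [mem_filter] at hn
    obtain ⟨hnI, hav⟩ := hn
    have hnI' := mem_Ioc.1 hnI
    rw [mem_union, mem_biUnion]
    by_cases hc : ∀ h ∈ H, Cyc (h.1 * n + h.2)
    · exact Or.inl (mem_tup.2 ⟨hnI, hc⟩)
    · right
      push Not at hc
      obtain ⟨h, hh, hnc⟩ := hc
      have ha1 := ha h hh
      refine ⟨h, hh, mem_filter.2 ⟨hnI, ?_⟩⟩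
      have hpos : 0 < h.1 * n + h.2 := by
        have : 0 < h.1 * n := Nat.mul_pos ha1 (by omega)
        omega
      obtain ⟨q, hq, hqm, hor⟩ := exists_of_not_cyc hpos hnc
      have hzq : z < q := by
        by_contra hle
        push Not at hle
        have hqP : q ∈ Pz z := mem_filter.2 ⟨mem_Icc.2 ⟨hq.one_lt.le, hle⟩, hq⟩
        exact hav q hqP ((mod_mem_Fh H hq n).2 ⟨h, hh, hqm⟩)
      rcases hor with h3 | ⟨p, hp, hpm, hqp⟩
      · exact Or.inl ⟨q, hq, hzq, h3⟩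
      · right
        refine ⟨q, hq, hzq, ?_, hqm, p, hp, hpm, hqp⟩
        refine (Nat.le_of_dvd hpos hqm).trans ?_
        have h4 : h.1 * n ≤ h.1 * (2 * X) := Nat.mul_le_mul_left _ (by omega)
        have h5 : h.1 * (2 * X) = 2 * (h.1 * X) := by ring
        omega
  have h3 := (card_le_card hsub).trans ((card_union_le _ _).trans
    (Nat.add_le_add_left card_biUnion_le _))
  have h4 : (((Ioc X (X + Y)).filter (Avoid (Fh H) (Pz z))).card : ℝ) ≤ ((tup H X Y).card : ℝ) +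
      ∑ h ∈ H, (((Ioc X (X + Y)).filter (fun n =>
        BadSq z (h.1 * n + h.2) ∨ BadPair z (2 * (h.1 * X + h.2)) (h.1 * n + h.2))).card : ℝ) := by
    exact_mod_cast h3
  have h5 : ∑ h ∈ H, (((Ioc X (X + Y)).filter (fun n =>
        BadSq z (h.1 * n + h.2) ∨ BadPair z (2 * (h.1 * X + h.2)) (h.1 * n + h.2))).card : ℝ) ≤
      H.card * E := by
    rw [← nsmul_eq_mul]
    apply sum_le_card_nsmul
    intro h hh
    refine le_trans ?_ (hE h hh)
    exact Nat.cast_le.2 (card_form (fun m => BadSq z m ∨ BadPair z (2 * (h.1 * X + h.2)) m)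
      h.1 h.2 X Y (ha h hh))
  linarith [h1.1]

open Classical in
/-- the upper sieve inequality -/
theorem tup_upper (H : Finset (ℕ × ℕ)) (X Y z : ℕ) (ha : ∀ h ∈ H, 1 ≤ h.1)
    (E : ℝ) (hE0 : 0 ≤ E) (hE : ∀ h ∈ H, ∀ q ∈ Pz z,
      (((Ioc (h.1 * X + h.2) (h.1 * X + h.2 + h.1 * Y)).filter
      (fun m => q ∣ m ∧ Cyc m)).card : ℝ) ≤ E) :
    ((tup H X Y).card : ℝ) ≤ dens (Fh H) (Pz z) * Y + 4 ^ z + H.card * (z * E) := by
  have h1 := count_avoid (Fh H) (Fh_subset H) (Pz z) (fun p hp => Pz_prime hp) X Y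
  rw [abs_le] at h1
  have h2 := prod_Pz_le z
  have hsub : tup H X Y ⊆ (Ioc X (X + Y)).filter (Avoid (Fh H) (Pz z)) ∪
      H.biUnion (fun h => (Pz z).biUnion (fun q => (Ioc X (X + Y)).filter (fun n =>
        q ∣ h.1 * n + h.2 ∧ Cyc (h.1 * n + h.2)))) := by
    intro n hn
    rw [mem_tup] at hn
    obtain ⟨hnI, hcyc⟩ := hn
    rw [mem_union, mem_biUnion]
    by_cases hav : Avoid (Fh H) (Pz z) n
    · exact Or.inl (mem_filter.2 ⟨hnI, hav⟩)
    · right
      unfold Avoid at hav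
      push Not at hav
      obtain ⟨q, hq, hmem⟩ := hav
      obtain ⟨h, hh, hqd⟩ := (mod_mem_Fh H (Pz_prime hq) n).1 hmem
      refine ⟨h, hh, ?_⟩
      rw [mem_biUnion]
      exact ⟨q, hq, mem_filter.2 ⟨hnI, hqd, hcyc h hh⟩⟩
  have h3 := (card_le_card hsub).trans ((card_union_le _ _).trans
    (Nat.add_le_add_left (card_biUnion_le.trans (sum_le_sum fun h _ => card_biUnion_le)) _))
  have h4 : ((tup H X Y).card : ℝ) ≤ (((Ioc X (X + Y)).filter (Avoid (Fh H) (Pz z))).card : ℝ) +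
      ∑ h ∈ H, ∑ q ∈ Pz z, (((Ioc X (X + Y)).filter (fun n =>
        q ∣ h.1 * n + h.2 ∧ Cyc (h.1 * n + h.2))).card : ℝ) := by
    exact_mod_cast h3
  have hPc : ((Pz z).card : ℝ) ≤ z := by
    have : (Pz z).card ≤ z := by
      unfold Pz
      refine (card_filter_le _ _).trans ?_
      simp
    exact_mod_cast this
  have h5 : ∑ h ∈ H, ∑ q ∈ Pz z, (((Ioc X (X + Y)).filter (fun n =>
        q ∣ h.1 * n + h.2 ∧ Cyc (h.1 * n + h.2))).card : ℝ) ≤ H.card * (z * E) := by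
    rw [← nsmul_eq_mul]
    apply sum_le_card_nsmul
    intro h hh
    have h6 : ∑ q ∈ Pz z, (((Ioc X (X + Y)).filter (fun n =>
        q ∣ h.1 * n + h.2 ∧ Cyc (h.1 * n + h.2))).card : ℝ) ≤ (Pz z).card * E := by
      rw [← nsmul_eq_mul]
      apply sum_le_card_nsmul
      intro q hq
      refine le_trans ?_ (hE h hh q hq)
      exact Nat.cast_le.2 (card_form (fun m => q ∣ m ∧ Cyc m) h.1 h.2 X Y (ha h hh))
    refine h6.trans ?_
    gcongr
  linarith [h1.2]

end Pool.Agent.R517
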