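import Pool.Agent.R517.Grow
import Pool.Agent.R517.Tup

/-!
The number of integers of a short interval at which several linear forms take cyclic values.
-/

set_option autoImplicit false

namespace Pool.Agent.R517

open Finset Filter Topology

/-- growth facts for one linear form -/
theorem form_growth (a b : ℕ) (ha : 1 ≤ a) : ∀ᶠ X : ℕ in atTop,
    ((a * X + b : ℕ) : ℝ) ^ (3 / 5 : ℝ) ≤ (X : ℝ) ^ (31 / 50 : ℝ) ∧
    Real.log X ≤ Real.log ((a * X + b : ℕ) : ℝ) ∧
    LL X ≤ LL (a * X + b) ∧ LL (a * X + b) ≤ 2 * LL X := by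
  have hpow : Tendsto (fun X : ℕ => (X : ℝ) ^ (1 / 50 : ℝ)) atTop atTop :=
    (tendsto_rpow_atTop (by norm_num : (0 : ℝ) < 1 / 50)).comp tendsto_natCast_atTop_atTop
  filter_upwards [hpow.eventually_ge_atTop (((a + b : ℕ) : ℝ) ^ (3 / 5 : ℝ)),
    tendsto_log_nat.eventually_ge_atTop (Real.log ((a + b : ℕ) : ℝ)),
    tendsto_log_nat.eventually_ge_atTop 2, eventually_ge_atTop 1] with X h1 h2 h3 h4
  have hX0 : (0 : ℝ) < X := by exact_mod_cast h4
  have hle : a * X + b ≤ (a + b) * X := by nlinarith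
  have hge : X ≤ a * X + b := by nlinarith
  have hle' : ((a * X + b : ℕ) : ℝ) ≤ ((a + b : ℕ) : ℝ) * X := by exact_mod_cast hle
  have hge' : (X : ℝ) ≤ ((a * X + b : ℕ) : ℝ) := by exact_mod_cast hge
  have hlog : Real.log X ≤ Real.log ((a * X + b : ℕ) : ℝ) := Real.log_le_log hX0 hge'
  have hab0 : (0 : ℝ) < ((a + b : ℕ) : ℝ) := by exact_mod_cast (by omega : 0 < a + b)
  refine ⟨?_, hlog, ?_, ?_⟩
  · calc ((a * X + b : ℕ) : ℝ) ^ (3 / 5 : ℝ) ≤ (((a + b : ℕ) : ℝ) * X) ^ (3 / 5 : ℝ) := by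
          apply Real.rpow_le_rpow (by positivity) hle' (by norm_num)
      _ = ((a + b : ℕ) : ℝ) ^ (3 / 5 : ℝ) * (X : ℝ) ^ (3 / 5 : ℝ) :=
          Real.mul_rpow (by positivity) (by positivity)
      _ ≤ (X : ℝ) ^ (1 / 50 : ℝ) * (X : ℝ) ^ (3 / 5 : ℝ) := by gcongr
      _ = (X : ℝ) ^ (31 / 50 : ℝ) := by
          rw [← Real.rpow_add hX0]; norm_num
  · exact Real.log_le_log (by linarith) hlog
  · have h5 : Real.log ((a * X + b : ℕ) : ℝ) ≤ (Real.log X) ^ 2 := by
      have h6 := Real.log_le_log (by linarith) hle'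
      rw [Real.log_mul hab0.ne' hX0.ne'] at h6
      nlinarith
    have h6 := Real.log_le_log (by linarith) h5
    rw [Real.log_pow] at h6
    unfold LL
    exact_mod_cast h6

/-- **Main estimate.** If the density of the integers at which no form of `H` has a prime factor up to
`z` is `(κ + o(1)) / (log z) ^ k`, then the number of integers `n` of `(X, X + Y]` at which all the
forms take cyclic values is `(κ + o(1)) Y / (log log log X) ^ k`, uniformly for `X ^ (31/50) ≤ Y ≤ X`. -/
theorem tuples (H : Finset (ℕ × ℕ)) (k : ℕ) (κ : ℝ) (ha : ∀ h ∈ H, 1 ≤ h.1)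
    (hκ : Tendsto (fun z : ℕ => dens (Fh H) (Pz z) * Real.log z ^ k) atTop (𝓝 κ)) :
    ∃ lo up : ℕ → ℝ, Tendsto lo atTop (𝓝 κ) ∧ Tendsto up atTop (𝓝 κ) ∧
      ∀ᶠ X : ℕ in atTop, ∀ Y : ℕ, (X : ℝ) ^ (31 / 50 : ℝ) ≤ Y → Y ≤ X →
        lo X * (Y / L3 X ^ k) ≤ ((tup H X Y).card : ℝ) ∧
        ((tup H X Y).card : ℝ) ≤ up X * (Y / L3 X ^ k) := by
  set B := k + 1 with hB
  set M : ℝ := ((∑ h ∈ H, h.1 : ℕ) : ℝ) with hM
  have hM0 : 0 ≤ M := by rw [hM]; positivity
  have hMa : ∀ h ∈ H, (h.1 : ℝ) ≤ M := by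
    intro h hh
    rw [hM]
    exact_mod_cast single_le_sum (f := fun h : ℕ × ℕ => h.1) (fun _ _ => Nat.zero_le _) hh
  set C : ℝ := 1 + 6000 * (H.card : ℝ) * M with hC
  -- limits
  have hratio : ∀ f : ℝ → ℕ, Tendsto f atTop atTop →
      Tendsto (fun u => Real.log (f u) / Real.log u) atTop (𝓝 1) →
      Tendsto (fun X : ℕ => dens (Fh H) (Pz (f (LL X))) * L3 X ^ k) atTop (𝓝 κ) := by
    intro f hf1 hf2
    have h1 : Tendsto (fun X : ℕ => f (LL X)) atTop atTop := hf1.comp tendsto_LL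
    have h2 := hκ.comp h1
    have h3 : Tendsto (fun X : ℕ => Real.log (f (LL X)) / L3 X) atTop (𝓝 1) := hf2.comp tendsto_LL
    have h4 := (h3.inv₀ one_ne_zero).pow k
    rw [inv_one, one_pow] at h4
    have h5 := h2.mul h4
    rw [mul_one] at h5
    refine h5.congr' ?_
    have h6 : Tendsto (fun X : ℕ => Real.log (f (LL X))) atTop atTop := tendsto_log_nat.comp h1
    filter_upwards [h6.eventually_ge_atTop 1] with X h7
    simp only [Function.comp]
    rw [inv_div, div_pow]
    have : Real.log (f (LL X)) ^ k ≠ 0 := by positivity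
    field_simp
  have hCL : Tendsto (fun X : ℕ => C / L3 X) atTop (𝓝 0) := tendsto_L3.const_div_atTop C
  refine ⟨fun X => dens (Fh H) (Pz (fp B (LL X))) * L3 X ^ k - C / L3 X,
    fun X => dens (Fh H) (Pz (fm B (LL X))) * L3 X ^ k + C / L3 X, ?_, ?_, ?_⟩
  · have := (hratio _ (fp_tendsto B) (fp_log B)).sub hCL
    rwa [sub_zero] at this
  · have := (hratio _ (fm_tendsto B) (fm_log B)).add hCL
    rwa [add_zero] at this
  -- eventual conditions
  have ht : ∀ h ∈ H, Tendsto (fun X : ℕ => h.1 * X + h.2) atTop atTop := by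
    intro h hh
    apply tendsto_atTop_mono _ tendsto_id
    intro X
    have := ha h hh
    show X ≤ h.1 * X + h.2
    nlinarith
  have c1 : ∀ᶠ X : ℕ in atTop, ∀ h ∈ H, _ :=
    (Filter.eventually_all_finset H).2 (fun h hh => (ht h hh).eventually bad_bound)
  have c2 : ∀ᶠ X : ℕ in atTop, ∀ h ∈ H, _ :=
    (Filter.eventually_all_finset H).2 (fun h hh => (ht h hh).eventually K_bound)
  have c3 : ∀ᶠ X : ℕ in atTop, ∀ h ∈ H, _ :=
    (Filter.eventually_all_finset H).2 (fun h hh => form_growth h.1 h.2 (ha h hh))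
  have c4 : ∀ᶠ X : ℕ in atTop, Real.log X ^ B ≤ (X : ℝ) ^ (1 / 4 : ℝ) := by
    have h4 := (isLittleO_log_rpow_rpow_atTop (B : ℝ) (by norm_num : (0 : ℝ) < 1 / 4)).bound
      (by norm_num : (0 : ℝ) < 1)
    have h5 := tendsto_natCast_atTop_atTop (R := ℝ) |>.eventually h4
    filter_upwards [h5, tendsto_log_nat.eventually_ge_atTop 0] with X hX h1X
    rw [one_mul, Real.norm_of_nonneg (Real.rpow_nonneg h1X _),
      Real.norm_of_nonneg (Real.rpow_nonneg (by positivity) _), Real.rpow_natCast] at hX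
    exact hX
  filter_upwards [c1, c2, c3, c4, tendsto_LL.eventually (fp_bounds B),
    tendsto_LL.eventually (fm_bounds B), fp_small B, tendsto_LL.eventually_ge_atTop 3,
    tendsto_L3.eventually_ge_atTop 1, tendsto_log_nat.eventually_ge_atTop 1,
    eventually_ge_atTop 1] with X d1 d2 d3 d4 d5 d6 d7 d8 d9 d10 d11
  intro Y hXY hYX
  have hX0 : (0 : ℝ) < X := by exact_mod_cast d11
  have hL3 : L3 X = Real.log (LL X) := rfl
  rw [← hL3] at d5 d6
  set zp := fp B (LL X) with hzp
  set zm := fm B (LL X) with hzm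
  have hL3k : (0 : ℝ) < L3 X ^ k := by positivity
  have hL3B : (0 : ℝ) < L3 X ^ B := by positivity
  have hL3L : L3 X ≤ Real.log X := by
    have h1 : LL X ≤ Real.log X := by
      have := Real.log_le_sub_one_of_pos (show 0 < Real.log X by linarith)
      unfold LL; linarith
    have h2 : L3 X ≤ LL X := by
      have := Real.log_le_sub_one_of_pos (show 0 < LL X by linarith)
      rw [hL3]; linarith
    linarith
  have hY0 : (0 : ℝ) < Y := lt_of_lt_of_le (by positivity) hXY
  -- the power of four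
  have h4 : ∀ z : ℕ, 8 * (z : ℝ) ≤ Real.log X → (4 : ℝ) ^ z ≤ Y / L3 X ^ B := by
    intro z hz
    rw [le_div_iff₀ hL3B]
    have e1 : (4 : ℝ) ^ z ≤ (X : ℝ) ^ (1 / 4 : ℝ) := by
      rw [← Real.log_le_log_iff (by positivity) (by positivity), Real.log_pow, Real.log_rpow hX0]
      have hlog4 : Real.log 4 ≤ 1.39 := by
        have : (4 : ℝ) = 2 ^ 2 := by norm_num
        rw [this, Real.log_pow]
        have := Real.log_two_lt_d9
        push_cast
        linarith
      have : (z : ℝ) * Real.log 4 ≤ z * 1.39 := by gcongr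
      have hz0 : (0 : ℝ) ≤ z := by positivity
      linarith
    have e2 : L3 X ^ B ≤ (X : ℝ) ^ (1 / 4 : ℝ) := by
      refine le_trans ?_ d4
      gcongr
    calc (4 : ℝ) ^ z * L3 X ^ B ≤ (X : ℝ) ^ (1 / 4 : ℝ) * (X : ℝ) ^ (1 / 4 : ℝ) := by gcongr
      _ = (X : ℝ) ^ (1 / 4 + 1 / 4 : ℝ) := by rw [Real.rpow_add hX0]
      _ ≤ (X : ℝ) ^ (31 / 50 : ℝ) := by
          apply Real.rpow_le_rpow_of_exponent_le (by exact_mod_cast d11)
          norm_num
      _ ≤ Y := hXY
  have hCeq : C / L3 X * (Y / L3 X ^ k) = C * (Y / L3 X ^ B) := by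
    rw [hB, pow_succ]
    field_simp
  constructor
  · -- lower bound
    have hzp0 : (0 : ℝ) < zp := by linarith [d5.1]
    have hzp1 : 1 ≤ zp := by exact_mod_cast hzp0
    have h5 := tup_lower H X Y zp ha hYX (6000 * M * (Y / L3 X ^ B)) (by
      intro h hh
      obtain ⟨g1, g2, g3, g4⟩ := d3 h hh
      have hah := ha h hh
      have hah' : (1 : ℝ) ≤ h.1 := by exact_mod_cast hah
      have e1 := d1 h hh (h.1 * Y) zp (by
        refine g1.trans (hXY.trans ?_)
        push_cast
        nlinarith) (by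
        have := Nat.mul_le_mul_left h.1 hYX
        omega) hzp1 (by linarith)
      refine e1.trans ?_
      have e2 : Real.log (Real.log ((h.1 * X + h.2 : ℕ) : ℝ)) ≤ 2 * LL X := g4
      have e3 : LL X * L3 X ^ B ≤ zp := Nat.le_ceil _
      rw [div_le_iff₀ hzp0]
      push_cast at e2 ⊢
      calc 3000 * ((h.1 : ℝ) * Y) * Real.log (Real.log ((h.1 : ℝ) * X + h.2))
          ≤ 3000 * (M * Y) * (2 * LL X) := by
            have e4 : 0 ≤ Real.log (Real.log ((h.1 : ℝ) * X + h.2)) := by
              have : (0 : ℝ) ≤ LL (h.1 * X + h.2) := by linarith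
              unfold LL at this
              push_cast at this
              exact this
            have := hMa h hh
            gcongr
        _ = 6000 * M * (Y / L3 X ^ B) * (LL X * L3 X ^ B) := by
            field_simp
            ring
        _ ≤ 6000 * M * (Y / L3 X ^ B) * zp := by gcongr)
    have h6 := h4 zp d7
    have h7 : (dens (Fh H) (Pz zp) * L3 X ^ k - C / L3 X) * (Y / L3 X ^ k) =
        dens (Fh H) (Pz zp) * Y - C * (Y / L3 X ^ B) := by
      rw [sub_mul, hCeq]
      congr 1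
      field_simp
    rw [h7]
    have h8 : C * (Y / L3 X ^ B) = Y / L3 X ^ B + H.card * (6000 * M * (Y / L3 X ^ B)) := by
      rw [hC]; ring
    rw [h8]
    linarith
  · -- upper bound
    have hzmz : 8 * (zm : ℝ) ≤ Real.log X := by
      have : (zm : ℝ) ≤ zp := d6.2.1.trans d5.1
      linarith
    have h5 := tup_upper H X Y zm ha (21 * (M * Y) / LL X) (by positivity) (by
      intro h hh q hq
      obtain ⟨g1, g2, g3, g4⟩ := d3 h hh
      have hah := ha h hh
      have hah' : (1 : ℝ) ≤ h.1 := by exact_mod_cast hah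
      have e1 := d2 h hh (h.1 * Y) (by
        refine g1.trans (hXY.trans ?_)
        push_cast
        nlinarith) q (Pz_prime hq) (by
        have e2 : (q : ℝ) ≤ zm := by
          have := (mem_Icc.1 (mem_filter.1 hq).1).2
          exact_mod_cast this
        have e3 : LL X ≤ Real.log (Real.log ((h.1 * X + h.2 : ℕ) : ℝ)) := g3
        linarith [d6.2.1])
      refine e1.trans ?_
      push_cast
      have e2 : LL X ≤ Real.log (Real.log ((h.1 : ℝ) * X + h.2)) := by
        have : LL X ≤ Real.log (Real.log ((h.1 * X + h.2 : ℕ) : ℝ)) := g3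
        push_cast at this
        exact this
      have := hMa h hh
      have hLL0 : 0 < LL X := by linarith
      gcongr)
    have h6 := h4 zm hzmz
    have h7 : (dens (Fh H) (Pz zm) * L3 X ^ k + C / L3 X) * (Y / L3 X ^ k) =
        dens (Fh H) (Pz zm) * Y + C * (Y / L3 X ^ B) := by
      rw [add_mul, hCeq]
      congr 1
      field_simp
    rw [h7]
    have h8 : (H.card : ℝ) * (zm * (21 * (M * Y) / LL X)) ≤
        6000 * H.card * M * (Y / L3 X ^ B) := by
      have e1 : (zm : ℝ) ≤ LL X / L3 X ^ B := d6.1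
      have hLL0 : 0 < LL X := by linarith
      calc (H.card : ℝ) * (zm * (21 * (M * Y) / LL X)) ≤
          (H.card : ℝ) * (LL X / L3 X ^ B * (21 * (M * Y) / LL X)) := by gcongr
        _ = 21 * H.card * M * (Y / L3 X ^ B) := by field_simp
        _ ≤ 6000 * H.card * M * (Y / L3 X ^ B) := by gcongr; norm_num
    have h9 : C * (Y / L3 X ^ B) = Y / L3 X ^ B + 6000 * H.card * M * (Y / L3 X ^ B) := by
      rw [hC]; ring
    rw [h9]
    linarith

end Pool.Agent.R517
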