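import Mathlib
import Pool.Agent.TH915.UC.BT

/-!
Upper bound for the sum of the reciprocals of the primes that are 1 modulo `q`, uniformly in `q`.
-/

set_option autoImplicit false

namespace Pool.Agent.R517

open Finset

theorem sum_Ico_two_pow (f : ℕ → ℝ) (J : ℕ) :
    ∑ l ∈ Ico 1 (2 ^ J), f l = ∑ j ∈ range J, ∑ l ∈ Ico (2 ^ j) (2 ^ (j + 1)), f l := by
  induction J with
  | zero => simp
  | succ J ih =>
    rw [sum_range_succ, ← ih, sum_Ico_consecutive]
    · exact Nat.one_le_two_pow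
    · exact Nat.pow_le_pow_right (by norm_num) (by omega)

/-- dyadic Brun-Titchmarsh for the class 1 -/
theorem bt_dyadic (q j : ℕ) (hq : q.Prime) (hj : 1 ≤ j) :
    (((Ico (2 ^ j) (2 ^ (j + 1))).filter (fun l => (1 + q * l).Prime)).card : ℝ) ≤
      64 * 2 ^ j / j := by
  have h := Pool.Agent.TH915.UC.bt_gen (1 + q * 2 ^ j) q (2 ^ j) hq.pos
    (by calc 2 = 2 ^ 1 := by norm_num
          _ ≤ 2 ^ j := Nat.pow_le_pow_right (by norm_num) hj)
  have h1 : ((Ico (2 ^ j) (2 ^ (j + 1))).filter (fun l => (1 + q * l).Prime)).card ≤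
      ((range (2 ^ j)).filter (fun k => (1 + q * 2 ^ j + k * q).Prime)).card := by
    apply card_le_card_of_injOn (fun l => l - 2 ^ j)
    · intro l hl
      rw [coe_filter, Set.mem_ofPred_eq, mem_Ico] at hl
      rw [coe_filter, Set.mem_ofPred_eq, mem_range]
      obtain ⟨⟨h1, h2⟩, h3⟩ := hl
      rw [pow_succ] at h2
      refine ⟨(by omega : l - 2 ^ j < 2 ^ j), ?_⟩
      have e : 1 + q * 2 ^ j + (l - 2 ^ j) * q = 1 + q * l := by
        obtain ⟨d, rfl⟩ := Nat.exists_eq_add_of_le h1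
        rw [Nat.add_sub_cancel_left]
        ring
      have h3' : (1 + q * 2 ^ j + (l - 2 ^ j) * q).Prime := by rw [e]; exact h3
      exact h3'
    · intro l hl l' hl' he
      rw [coe_filter, Set.mem_ofPred_eq, mem_Ico] at hl hl'
      have he' : l - 2 ^ j = l' - 2 ^ j := he
      omega
  have h2 : (((Ico (2 ^ j) (2 ^ (j + 1))).filter (fun l => (1 + q * l).Prime)).card : ℝ) ≤
      (((range (2 ^ j)).filter (fun k => (1 + q * 2 ^ j + k * q).Prime)).card : ℝ) := by
    exact_mod_cast h1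
  refine (h2.trans h).trans ?_
  have hq2 : (2 : ℝ) ≤ q := by exact_mod_cast hq.two_le
  have hφ : (Nat.totient q : ℝ) = q - 1 := by
    rw [Nat.totient_prime hq, Nat.cast_sub hq.one_lt.le, Nat.cast_one]
  have h3 : (q : ℝ) / Nat.totient q ≤ 2 := by
    rw [hφ, div_le_iff₀ (by linarith)]
    linarith
  have hj0 : (0 : ℝ) < j := by exact_mod_cast hj
  have hlog : Real.log ((2 ^ j : ℕ) : ℝ) = j * Real.log 2 := by
    push_cast
    rw [Real.log_pow]
  rw [hlog]
  have hl2 : (0.6931471803 : ℝ) < Real.log 2 := Real.log_two_gt_d9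
  push_cast
  rw [div_le_div_iff₀ (by positivity) hj0]
  have h4 : 22 * ((q : ℝ) / Nat.totient q) * 2 ^ j * j ≤ 22 * 2 * 2 ^ j * j := by gcongr
  have h5 : (0 : ℝ) < 2 ^ j * j := by positivity
  nlinarith

/-- the sum of the reciprocals of the primes up to `R` that are 1 modulo the prime `q` -/
theorem S_upper (q : ℕ) (hq : q.Prime) (R : ℕ) :
    ∑ p ∈ (Icc 1 R).filter (fun p => p.Prime ∧ q ∣ p - 1), (1 : ℝ) / p ≤
      (65 + 64 * Real.log (Nat.log 2 R + 1)) / q := by
  have hq0 : (0 : ℝ) < q := by exact_mod_cast hq.pos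
  set J := Nat.log 2 R + 1 with hJ
  have hRJ : R < 2 ^ J := Nat.lt_pow_succ_log_self (by norm_num) R
  -- reparametrise
  have h1 : ∑ p ∈ (Icc 1 R).filter (fun p => p.Prime ∧ q ∣ p - 1), (1 : ℝ) / p ≤
      ∑ l ∈ (Ico 1 (2 ^ J)).filter (fun l => (1 + q * l).Prime), (1 : ℝ) / (q * l) := by
    have h2 : ∑ p ∈ (Icc 1 R).filter (fun p => p.Prime ∧ q ∣ p - 1), (1 : ℝ) / p ≤
        ∑ p ∈ (((Ico 1 (2 ^ J)).filter (fun l => (1 + q * l).Prime)).image (fun l => 1 + q * l)),
          (1 : ℝ) / p := by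
      apply sum_le_sum_of_subset_of_nonneg
      · intro p hp
        rw [mem_filter, mem_Icc] at hp
        obtain ⟨⟨hp1, hpR⟩, hpp, l, hl⟩ := hp
        rw [mem_image]
        have hpl : 1 + q * l = p := by have := hpp.one_lt; omega
        refine ⟨l, ?_, hpl⟩
        rw [mem_filter, mem_Ico]
        refine ⟨⟨?_, ?_⟩, by rw [hpl]; exact hpp⟩
        · rcases Nat.eq_zero_or_pos l with h | h
          · subst h; simp at hpl; exact absurd hpl.symm hpp.one_lt.ne'
          · exact h
        · have : l ≤ q * l := Nat.le_mul_of_pos_left l hq.pos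
          omega
      · intro p _ _
        positivity
    refine h2.trans ?_
    rw [sum_image]
    · apply sum_le_sum
      intro l hl
      rw [mem_filter, mem_Ico] at hl
      have hl0 : (0 : ℝ) < l := by exact_mod_cast hl.1.1
      push_cast
      apply one_div_le_one_div_of_le (by positivity)
      linarith
    · intro a _ b _ hab
      have hab' : 1 + q * a = 1 + q * b := hab
      exact Nat.eq_of_mul_eq_mul_left hq.pos (by omega)
  refine h1.trans ?_
  rw [sum_filter, sum_Ico_two_pow]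
  have hblock : ∀ j ∈ range J, ∑ l ∈ Ico (2 ^ j) (2 ^ (j + 1)),
      (if (1 + q * l).Prime then (1 : ℝ) / (q * l) else 0) ≤
        (if j = 0 then 1 / (q : ℝ) else 64 / (q * j)) := by
    intro j _
    rw [← sum_filter]
    have h3 : ∑ l ∈ (Ico (2 ^ j) (2 ^ (j + 1))).filter (fun l => (1 + q * l).Prime),
        (1 : ℝ) / (q * l) ≤
        ((Ico (2 ^ j) (2 ^ (j + 1))).filter (fun l => (1 + q * l).Prime)).card *
          (1 / (q * 2 ^ j)) := by
      rw [← nsmul_eq_mul]
      apply sum_le_card_nsmul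
      intro l hl
      rw [mem_filter, mem_Ico] at hl
      have : (2 : ℝ) ^ j ≤ l := by exact_mod_cast hl.1.1
      gcongr
    refine h3.trans ?_
    split_ifs with hj
    · subst hj
      have h4 : ((Ico (2 ^ 0) (2 ^ (0 + 1))).filter (fun l => (1 + q * l).Prime)).card ≤ 1 := by
        refine (card_filter_le _ _).trans ?_
        simp
      have h5 : (((Ico (2 ^ 0) (2 ^ (0 + 1))).filter (fun l => (1 + q * l).Prime)).card : ℝ) ≤ 1 := by
        exact_mod_cast h4
      calc _ ≤ 1 * (1 / ((q : ℝ) * 2 ^ 0)) := by gcongr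
        _ = 1 / q := by simp
    · have hj1 : 1 ≤ j := by omega
      have hj0 : (0 : ℝ) < j := by exact_mod_cast hj1
      calc _ ≤ (64 * 2 ^ j / j) * (1 / ((q : ℝ) * 2 ^ j)) := by
            gcongr
            exact bt_dyadic q j hq hj1
        _ = 64 / (q * j) := by field_simp
  refine (sum_le_sum hblock).trans ?_
  rw [hJ, sum_range_succ']
  simp only [Nat.add_eq_zero_iff, one_ne_zero, and_false, if_false, if_true]
  have h6 : ∑ j ∈ range (Nat.log 2 R), (64 : ℝ) / (q * ((j + 1 : ℕ) : ℝ)) ≤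
      64 / q * (1 + Real.log (Nat.log 2 R + 1)) := by
    have h7 : ∑ j ∈ range (Nat.log 2 R), (64 : ℝ) / (q * ((j + 1 : ℕ) : ℝ)) =
        64 / q * ∑ j ∈ range (Nat.log 2 R), ((j + 1 : ℕ) : ℝ)⁻¹ := by
      rw [mul_sum]
      apply sum_congr rfl
      intro j _
      field_simp
    rw [h7]
    have h8 : (∑ j ∈ range (Nat.log 2 R), ((j + 1 : ℕ) : ℝ)⁻¹) = ((harmonic (Nat.log 2 R) : ℚ) : ℝ) := by
      unfold harmonic
      push_cast
      rfl
    rw [h8]
    have h9 := harmonic_le_one_add_log (Nat.log 2 R)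
    have h10 : Real.log (Nat.log 2 R) ≤ Real.log (Nat.log 2 R + 1) := by
      rcases Nat.eq_zero_or_pos (Nat.log 2 R) with h | h
      · rw [h]; simp
      · apply Real.log_le_log (by exact_mod_cast h); linarith
    gcongr
    linarith
  have h11 : (1 : ℝ) / q + 64 / q * (1 + Real.log (Nat.log 2 R + 1)) =
      (65 + 64 * Real.log (Nat.log 2 R + 1)) / q := by
    field_simp
    ring
  rw [← h11]
  linarith

end Pool.Agent.R517
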