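import Pool.Agent.R517.Cyc
import Pool.Agent.R517.MertU

/-!
The number of integers of a short interval with a bad pair of prime factors.
-/

set_option autoImplicit false

namespace Pool.Agent.R517

open Finset

/-- integers in a residue class in an interval -/
theorem card_class (X Y r v : ℕ) (hr : 0 < r) :
    (((Ioc X (X + Y)).filter (fun m => m ≡ v [MOD r])).card : ℝ) ≤ (Y : ℝ) / r + 1 := by
  have h := Nat.Ioc_filter_modEq_card X (X + Y) hr v
  have h1 : ((((Ioc X (X + Y)).filter (fun m => m ≡ v [MOD r])).card : ℤ) : ℚ) ≤ (Y : ℚ) / r + 1 := by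
    rw [h]
    push_cast
    have hr' : (0 : ℚ) < r := by exact_mod_cast hr
    rw [max_le_iff]
    constructor
    · have h2 : ((⌊((X : ℚ) + Y - v) / r⌋ : ℤ) : ℚ) ≤ ((X : ℚ) + Y - v) / r := Int.floor_le _
      have h3 : ((X : ℚ) - v) / r < ((⌊((X : ℚ) - v) / r⌋ : ℤ) : ℚ) + 1 := Int.lt_floor_add_one _
      have e : ((X : ℚ) + Y - v) / r = ((X : ℚ) - v) / r + Y / r := by ring
      linarith
    · positivity
  have h2 : (((((Ioc X (X + Y)).filter (fun m => m ≡ v [MOD r])).card : ℤ) : ℚ) : ℝ) ≤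
      (((Y : ℚ) / r + 1 : ℚ) : ℝ) := Rat.cast_le.2 h1
  push_cast at h2
  exact h2

theorem card_dvd (X Y r : ℕ) (hr : 0 < r) :
    (((Ioc X (X + Y)).filter (fun m => r ∣ m)).card : ℝ) ≤ (Y : ℝ) / r + 1 := by
  have h := card_class X Y r 0 hr
  refine le_trans (le_of_eq ?_) h
  congr 2
  apply filter_congr
  intro m _
  exact (Nat.modEq_zero_iff_dvd).symm

theorem sum_inv_sq (a b : ℕ) (ha : 1 ≤ a) :
    ∑ q ∈ Ioc a b, (1 : ℝ) / (q : ℝ) ^ 2 ≤ 1 / a := by
  rcases le_or_gt b a with h | h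
  · rw [Ioc_eq_empty (by omega)]
    simp
  · have h1 := sum_Ioc_inv_sq_le_sub (α := ℝ) (by omega : a ≠ 0) h.le
    have h2 : ∑ q ∈ Ioc a b, (1 : ℝ) / (q : ℝ) ^ 2 = ∑ i ∈ Ioc a b, ((i : ℝ) ^ 2)⁻¹ := by
      apply sum_congr rfl
      intro q _
      rw [one_div]
    rw [h2]
    have h3 : (0 : ℝ) ≤ (b : ℝ)⁻¹ := by positivity
    rw [one_div]
    linarith

theorem sum_inv (n : ℕ) : ∑ k ∈ Icc 1 n, (1 : ℝ) / k ≤ 1 + Real.log n := by
  have h := harmonic_le_one_add_log n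
  refine le_trans (le_of_eq ?_) h
  rw [harmonic_eq_sum_Icc]
  push_cast
  apply sum_congr rfl
  intro k _
  rw [one_div]

/-- bad pairs of prime factors, with the smaller one in `(z, W]` -/
def BadPair (a b m : ℕ) : Prop := ∃ q : ℕ, q.Prime ∧ a < q ∧ q ≤ b ∧ q ∣ m ∧
  ∃ p : ℕ, p.Prime ∧ p ∣ m ∧ q ∣ p - 1

/-- large square factors -/
def BadSq (a m : ℕ) : Prop := ∃ q : ℕ, q.Prime ∧ a < q ∧ q ^ 2 ∣ m

open Classical in
theorem bad_sq (X Y z : ℕ) (hz : 1 ≤ z) (hX : 1 ≤ X) (hY : Y ≤ X) :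
    (((Ioc X (X + Y)).filter (BadSq z)).card : ℝ) ≤ (Y : ℝ) / z + Nat.sqrt (2 * X) := by
  set R := Nat.sqrt (2 * X) with hR
  have hsub : (Ioc X (X + Y)).filter (BadSq z) ⊆
      (Ioc z R).biUnion (fun q => (Ioc X (X + Y)).filter (fun m => q ^ 2 ∣ m)) := by
    intro m hm
    rw [mem_filter] at hm
    obtain ⟨hmI, q, hq, hzq, hqm⟩ := hm
    rw [mem_biUnion]
    refine ⟨q, ?_, mem_filter.2 ⟨hmI, hqm⟩⟩
    rw [mem_Ioc] at hmI ⊢
    refine ⟨hzq, ?_⟩
    rw [hR, Nat.le_sqrt']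
    exact (Nat.le_of_dvd (by omega) hqm).trans (by omega)
  have h1 : (((Ioc X (X + Y)).filter (BadSq z)).card : ℝ) ≤
      ∑ q ∈ Ioc z R, ((Y : ℝ) / (q : ℝ) ^ 2 + 1) := by
    have h2 : ((Ioc X (X + Y)).filter (BadSq z)).card ≤
        ∑ q ∈ Ioc z R, ((Ioc X (X + Y)).filter (fun m => q ^ 2 ∣ m)).card :=
      (card_le_card hsub).trans card_biUnion_le
    have h3 : (((Ioc X (X + Y)).filter (BadSq z)).card : ℝ) ≤
        ∑ q ∈ Ioc z R, (((Ioc X (X + Y)).filter (fun m => q ^ 2 ∣ m)).card : ℝ) := by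
      exact_mod_cast h2
    refine h3.trans (sum_le_sum fun q hq => ?_)
    rw [mem_Ioc] at hq
    have := card_dvd X Y (q ^ 2) (pow_pos (by omega) 2)
    push_cast at this
    exact this
  refine h1.trans ?_
  rw [sum_add_distrib]
  have h4 : ∑ q ∈ Ioc z R, (Y : ℝ) / (q : ℝ) ^ 2 ≤ Y / z := by
    have h5 := sum_inv_sq z R hz
    calc ∑ q ∈ Ioc z R, (Y : ℝ) / (q : ℝ) ^ 2 = Y * ∑ q ∈ Ioc z R, (1 : ℝ) / (q : ℝ) ^ 2 := by
          rw [mul_sum]; apply sum_congr rfl; intro q _; ring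
      _ ≤ Y * (1 / z) := by gcongr
      _ = Y / z := by ring
  have h6 : ∑ q ∈ Ioc z R, (1 : ℝ) ≤ R := by
    rw [sum_const, Nat.card_Ioc, nsmul_eq_mul, mul_one]
    exact_mod_cast Nat.sub_le R z
  linarith

open Classical in
/-- pairs with `q > W`: no primality is used -/
theorem bad_large (X Y W : ℕ) (hW : 1 ≤ W) (hX : 1 ≤ X) (hY : Y ≤ X) :
    (((Ioc X (X + Y)).filter (BadPair W (2 * X))).card : ℝ) ≤
      2 * ((Y : ℝ) / W + Nat.sqrt (2 * X)) * (1 + Real.log (Nat.sqrt (2 * X))) := by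
  set R := Nat.sqrt (2 * X) with hR
  have hR1 : 1 ≤ R := by rw [hR, Nat.le_sqrt]; omega
  have hsub : (Ioc X (X + Y)).filter (BadPair W (2 * X)) ⊆
      ((Ioc W R).biUnion (fun q => (Icc 1 (R / q)).biUnion
        (fun k => (Ioc X (X + Y)).filter (fun m => m ≡ q * k [MOD q ^ 2 * k])))) ∪
      ((Ioc W R).biUnion (fun q => (Icc 1 (R / q)).biUnion
        (fun l => (Ioc X (X + Y)).filter (fun m => q * (1 + q * l) ∣ m)))) := by
    intro m hm
    rw [mem_filter] at hm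
    obtain ⟨hmI, q, hq, hWq, -, hqm, p, hp, hpm, l, hl⟩ := hm
    have hmI' := mem_Ioc.1 hmI
    have hpl : p = 1 + q * l := by have := hp.one_lt; omega
    have hl1 : 1 ≤ l := by
      rcases Nat.eq_zero_or_pos l with h | h
      · subst h; rw [mul_zero, add_zero] at hpl; exact absurd hpl hp.one_lt.ne'
      · exact h
    have hne : q ≠ p := by
      intro h
      rw [← h] at hl
      have h1 : q ∣ 1 := by
        have h2 : q ∣ q - 1 := ⟨l, hl⟩
        have h3 : q - (q - 1) = 1 := by have := hq.one_lt; omega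
        rw [← h3]
        exact Nat.dvd_sub dvd_rfl h2
      exact hq.one_lt.ne' (Nat.dvd_one.1 h1)
    have hqp : q * p ∣ m := Nat.Coprime.mul_dvd_of_dvd_of_dvd ((Nat.coprime_primes hq hp).2 hne) hqm hpm
    obtain ⟨k, hk⟩ := hqp
    have hk1 : 1 ≤ k := by
      rcases Nat.eq_zero_or_pos k with h | h
      · subst h; omega
      · exact h
    have hm2 : m = q * k + q ^ 2 * k * l := by rw [hk, hpl]; ring
    have hkl : q ^ 2 * (k * l) ≤ 2 * X := by
      have : q ^ 2 * (k * l) ≤ m := by rw [hm2]; nlinarith [Nat.zero_le (q * k)]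
      omega
    rw [mem_union]
    rcases le_total k l with hkl2 | hkl2
    · left
      rw [mem_biUnion]
      have h1 : q * k ≤ R := by
        rw [hR, Nat.le_sqrt']
        calc (q * k) ^ 2 = q ^ 2 * (k * k) := by ring
          _ ≤ q ^ 2 * (k * l) := by gcongr
          _ ≤ _ := hkl
      refine ⟨q, mem_Ioc.2 ⟨hWq, le_trans (Nat.le_mul_of_pos_right q hk1) h1⟩, ?_⟩
      rw [mem_biUnion]
      refine ⟨k, mem_Icc.2 ⟨hk1, ?_⟩, ?_⟩
      · rw [Nat.le_div_iff_mul_le hq.pos, mul_comm]; exact h1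
      · rw [mem_filter]
        refine ⟨hmI, ?_⟩
        rw [hm2, Nat.ModEq, Nat.add_mul_mod_self_left]
    · right
      rw [mem_biUnion]
      have h1 : q * l ≤ R := by
        rw [hR, Nat.le_sqrt']
        calc (q * l) ^ 2 = q ^ 2 * (l * l) := by ring
          _ ≤ q ^ 2 * (k * l) := by gcongr
          _ ≤ _ := hkl
      refine ⟨q, mem_Ioc.2 ⟨hWq, le_trans (Nat.le_mul_of_pos_right q hl1) h1⟩, ?_⟩
      rw [mem_biUnion]
      refine ⟨l, mem_Icc.2 ⟨hl1, ?_⟩, ?_⟩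
      · rw [Nat.le_div_iff_mul_le hq.pos, mul_comm]; exact h1
      · rw [mem_filter]
        refine ⟨hmI, k, ?_⟩
        rw [hk, hpl]
  have hA : ∀ f : ℕ → ℕ → Finset ℕ,
      (∀ q k, W < q → 1 ≤ k → ((f q k).card : ℝ) ≤ (Y : ℝ) / ((q : ℝ) ^ 2 * k) + 1) →
      ((((Ioc W R).biUnion (fun q => (Icc 1 (R / q)).biUnion (f q))).card : ℕ) : ℝ) ≤
        ((Y : ℝ) / W + R) * (1 + Real.log R) := by
    intro f hf
    have h1 : ((Ioc W R).biUnion (fun q => (Icc 1 (R / q)).biUnion (f q))).card ≤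
        ∑ q ∈ Ioc W R, ∑ k ∈ Icc 1 (R / q), (f q k).card :=
      card_biUnion_le.trans (sum_le_sum fun q _ => card_biUnion_le)
    have h2 : ((((Ioc W R).biUnion (fun q => (Icc 1 (R / q)).biUnion (f q))).card : ℕ) : ℝ) ≤
        ∑ q ∈ Ioc W R, ∑ k ∈ Icc 1 (R / q), ((f q k).card : ℝ) := by exact_mod_cast h1
    refine h2.trans ?_
    have hlogR : 0 ≤ Real.log R := Real.log_nonneg (by exact_mod_cast hR1)
    have h3 : ∀ q ∈ Ioc W R, ∑ k ∈ Icc 1 (R / q), ((f q k).card : ℝ) ≤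
        (Y : ℝ) * (1 + Real.log R) * (1 / (q : ℝ) ^ 2) + (R : ℝ) * (1 / (q : ℝ)) := by
      intro q hq
      rw [mem_Ioc] at hq
      have hq0 : (0 : ℝ) < q := by exact_mod_cast (by omega : 0 < q)
      have h4 : ∑ k ∈ Icc 1 (R / q), ((f q k).card : ℝ) ≤
          ∑ k ∈ Icc 1 (R / q), ((Y : ℝ) / (q : ℝ) ^ 2 * (1 / (k : ℝ)) + 1) := by
        apply sum_le_sum
        intro k hk
        rw [mem_Icc] at hk
        have hk0 : (0 : ℝ) < k := by exact_mod_cast hk.1
        refine (hf q k hq.1 hk.1).trans (le_of_eq ?_)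
        field_simp
      refine h4.trans ?_
      rw [sum_add_distrib, ← mul_sum, sum_const, Nat.card_Icc, nsmul_eq_mul, mul_one]
      have h5 := sum_inv (R / q)
      have h6 : Real.log ((R / q : ℕ) : ℝ) ≤ Real.log R := by
        rcases Nat.eq_zero_or_pos (R / q) with h | h
        · rw [h]; simpa using hlogR
        · apply Real.log_le_log (by exact_mod_cast h)
          exact_mod_cast Nat.div_le_self R q
      have h7 : (((R / q + 1 - 1 : ℕ)) : ℝ) ≤ (R : ℝ) / q := by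
        rw [Nat.add_sub_cancel]
        exact Nat.cast_div_le
      have h8 : (Y : ℝ) / (q : ℝ) ^ 2 * ∑ k ∈ Icc 1 (R / q), (1 : ℝ) / k ≤
          (Y : ℝ) / (q : ℝ) ^ 2 * (1 + Real.log R) := by
        gcongr
        linarith
      calc _ ≤ (Y : ℝ) / (q : ℝ) ^ 2 * (1 + Real.log R) + (R : ℝ) / q := by linarith
        _ = _ := by ring
    refine (sum_le_sum h3).trans ?_
    rw [sum_add_distrib, ← mul_sum, ← mul_sum]
    have h9 := sum_inv_sq W R hW
    have h10 : ∑ q ∈ Ioc W R, (1 : ℝ) / q ≤ 1 + Real.log R := by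
      refine le_trans ?_ (sum_inv R)
      apply sum_le_sum_of_subset_of_nonneg
      · intro q hq; rw [mem_Ioc] at hq; rw [mem_Icc]; omega
      · intro q _ _; positivity
    calc _ ≤ (Y : ℝ) * (1 + Real.log R) * (1 / W) + R * (1 + Real.log R) := by gcongr
      _ = _ := by ring
  have h1 := hA (fun q k => (Ioc X (X + Y)).filter (fun m => m ≡ q * k [MOD q ^ 2 * k])) (by
    intro q k hq hk
    have := card_class X Y (q ^ 2 * k) (q * k) (Nat.mul_pos (pow_pos (by omega) 2) hk)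
    push_cast at this
    exact this)
  have h2 := hA (fun q l => (Ioc X (X + Y)).filter (fun m => q * (1 + q * l) ∣ m)) (by
    intro q l hq hl
    have hq0 : (0 : ℝ) < q := by exact_mod_cast (by omega : 0 < q)
    have hl0 : (0 : ℝ) < l := by exact_mod_cast hl
    refine (card_dvd X Y (q * (1 + q * l)) (Nat.mul_pos (by omega) (by omega))).trans ?_
    push_cast
    have h3 : (q : ℝ) ^ 2 * l ≤ (q : ℝ) * (1 + q * l) := by nlinarith
    gcongr)
  have h3 := (card_le_card hsub).trans (card_union_le _ _)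
  have h4 : (((Ioc X (X + Y)).filter (BadPair W (2 * X))).card : ℝ) ≤ _ := Nat.cast_le.2 h3
  rw [Nat.cast_add] at h4
  linarith

end Pool.Agent.R517
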