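import Pool.Agent.R517.Bad

/-!
Bad pairs with the smaller prime factor of moderate size.
-/

set_option autoImplicit false

namespace Pool.Agent.R517

open Finset

open Classical in
/-- Brun-Titchmarsh for the large prime factor -/
theorem class_primes (X Y d q : ℕ) (hd : 0 < d) (hq : q.Prime) (hX : 1 ≤ X)
    (hN : (X : ℝ) ^ (1 / 20 : ℝ) * ((d * q : ℕ) : ℝ) ≤ Y) (hlog : 1 < Real.log X) :
    (((Ioc X (X + Y)).filter (fun m => ∃ p : ℕ, p.Prime ∧ q ∣ p - 1 ∧ m = d * p)).card : ℝ) ≤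
      2640 * Y / ((d * q : ℕ) * Real.log X) := by
  have hr0 : 0 < d * q := Nat.mul_pos hd hq.pos
  have hr0' : (0 : ℝ) < ((d * q : ℕ) : ℝ) := by exact_mod_cast hr0
  set r := d * q with hr
  set N := Y / r + 2 with hNd
  set l0 := X / r with hl0
  have hX0 : (0 : ℝ) < X := by exact_mod_cast hX
  have h := Pool.Agent.TH915.UC.bt_gen (1 + q * l0) q N hq.pos (by rw [hNd]; exact Nat.le_add_left 2 _)
  have h1 : ((Ioc X (X + Y)).filter (fun m => ∃ p : ℕ, p.Prime ∧ q ∣ p - 1 ∧ m = d * p)).card ≤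
      ((range N).filter (fun k => (1 + q * l0 + k * q).Prime)).card := by
    have hsub : (Ioc X (X + Y)).filter (fun m => ∃ p : ℕ, p.Prime ∧ q ∣ p - 1 ∧ m = d * p) ⊆
        ((range N).filter (fun k => (1 + q * l0 + k * q).Prime)).image
          (fun k => d * (1 + q * l0 + k * q)) := by
      intro m hm
      rw [mem_filter, mem_Ioc] at hm
      obtain ⟨⟨hm1, hm2⟩, p, hp, ⟨l, hl⟩, hmp⟩ := hm
      have hpl : p = 1 + q * l := by have := hp.one_lt; omega
      rw [mem_image]
      have hmr : m = d + r * l := by rw [hmp, hpl, hr]; ring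
      have hl0l : l0 ≤ l := by
        rw [hl0]
        -- X < d + r l ≤ r (l+1)
        have : X < r * (l + 1) := by
          have h2 : d ≤ r := by rw [hr]; exact Nat.le_mul_of_pos_right d hq.pos
          nlinarith
        have := Nat.div_lt_of_lt_mul this
        omega
      obtain ⟨k, rfl⟩ := Nat.exists_eq_add_of_le hl0l
      refine ⟨k, ?_, ?_⟩
      · rw [mem_filter, mem_range]
        constructor
        · -- r (l0 + k) ≤ X + Y
          have h2 : l0 + k ≤ (X + Y) / r := by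
            rw [Nat.le_div_iff_mul_le hr0]
            have : (l0 + k) * r = r * (l0 + k) := by ring
            omega
          have h3 : (X + Y) / r ≤ X / r + Y / r + 1 := by
            rw [Nat.add_div hr0]
            split_ifs <;> omega
          omega
        · have : 1 + q * l0 + k * q = p := by rw [hpl]; ring
          rw [this]; exact hp
      · rw [hmp, hpl]; ring
    exact (card_le_card hsub).trans card_image_le
  have h2 : (((Ioc X (X + Y)).filter (fun m => ∃ p : ℕ, p.Prime ∧ q ∣ p - 1 ∧ m = d * p)).card : ℝ) ≤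
      (((range N).filter (fun k => (1 + q * l0 + k * q).Prime)).card : ℝ) := by exact_mod_cast h1
  refine (h2.trans h).trans ?_
  have hq2 : (2 : ℝ) ≤ q := by exact_mod_cast hq.two_le
  have hφ : (Nat.totient q : ℝ) = q - 1 := by
    rw [Nat.totient_prime hq, Nat.cast_sub hq.one_lt.le, Nat.cast_one]
  have h3 : (q : ℝ) / Nat.totient q ≤ 2 := by
    rw [hφ, div_le_iff₀ (by linarith)]
    linarith
  have hXY : (X : ℝ) ^ (1 / 20 : ℝ) ≤ (Y : ℝ) / r := by
    rw [le_div_iff₀ hr0']; exact hN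
  have hX1 : (1 : ℝ) ≤ (X : ℝ) ^ (1 / 20 : ℝ) := by
    apply Real.one_le_rpow (by exact_mod_cast hX) (by norm_num)
  have hYr : (Y : ℝ) / r ≤ (N : ℝ) := by
    have h5 : Y < (Y / r + 1) * r := by
      have h6 : Y < r * (Y / r + 1) := Nat.lt_mul_div_succ Y hr0
      rw [mul_comm]; exact h6
    have h5' : (Y : ℝ) < ((Y / r : ℕ) + 1) * r := by exact_mod_cast h5
    rw [div_le_iff₀ hr0', hNd]
    push_cast
    nlinarith
  have hNY : (N : ℝ) ≤ 3 * ((Y : ℝ) / r) := by
    have : ((Y / r : ℕ) : ℝ) ≤ (Y : ℝ) / r := Nat.cast_div_le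
    rw [hNd]
    push_cast
    linarith
  have hlN : (1 / 20 : ℝ) * Real.log X ≤ Real.log N := by
    rw [← Real.log_rpow hX0]
    apply Real.log_le_log (by positivity)
    exact hXY.trans hYr
  have hlN0 : (0 : ℝ) < Real.log N := by linarith
  rw [div_le_iff₀ hlN0]
  have h7 : 22 * ((q : ℝ) / Nat.totient q) * N ≤ 22 * 2 * (3 * ((Y : ℝ) / r)) := by gcongr
  refine h7.trans ?_
  have h8 : 2640 * (Y : ℝ) / (r * Real.log X) * ((1 / 20 : ℝ) * Real.log X) ≤
      2640 * (Y : ℝ) / (r * Real.log X) * Real.log N := by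
    apply mul_le_mul_of_nonneg_left hlN
    positivity
  refine le_trans (le_of_eq ?_) h8
  have : Real.log X ≠ 0 := by positivity
  field_simp
  ring

open Classical in
theorem bad_small (X Y z W : ℕ) (hz : 1 ≤ z) (hX : 1 ≤ X) (hY : Y ≤ X)
    (hN : (X : ℝ) ^ (1 / 20 : ℝ) * ((Nat.sqrt (2 * X) * W : ℕ) : ℝ) ≤ Y) (hlog : 1 < Real.log X)
    (hlog2 : 1 + Real.log (Nat.sqrt (2 * X)) ≤ Real.log X) :
    (((Ioc X (X + Y)).filter (BadPair z W)).card : ℝ) ≤
      (Y : ℝ) * (2705 + 64 * Real.log (Nat.log 2 (Nat.sqrt (2 * X)) + 1)) / z +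
        W * Nat.sqrt (2 * X) := by
  set R := Nat.sqrt (2 * X) with hR
  set A : ℝ := 65 + 64 * Real.log (Nat.log 2 R + 1) with hA
  have hz0 : (0 : ℝ) < z := by exact_mod_cast hz
  have hX0 : (0 : ℝ) < X := by exact_mod_cast hX
  have hlX : (0 : ℝ) < Real.log X := by linarith
  have hsub : (Ioc X (X + Y)).filter (BadPair z W) ⊆
      (((Ioc z W).filter Nat.Prime).biUnion (fun q =>
        ((Icc 1 R).filter (fun p => p.Prime ∧ q ∣ p - 1)).biUnion
          (fun p => (Ioc X (X + Y)).filter (fun m => q * p ∣ m)))) ∪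
      (((Ioc z W).filter Nat.Prime).biUnion (fun q => (Icc 1 (R / q)).biUnion
        (fun k => (Ioc X (X + Y)).filter
          (fun m => ∃ p : ℕ, p.Prime ∧ q ∣ p - 1 ∧ m = (q * k) * p)))) := by
    intro m hm
    rw [mem_filter] at hm
    obtain ⟨hmI, q, hq, hzq, hqW, hqm, p, hp, hpm, hqp1⟩ := hm
    have hmI' := mem_Ioc.1 hmI
    have hne : q ≠ p := by
      intro h
      subst h
      have h1 : q ∣ 1 := by
        have h3 : q - (q - 1) = 1 := by have := hq.one_lt; omega
        rw [← h3]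
        exact Nat.dvd_sub dvd_rfl hqp1
      exact hq.one_lt.ne' (Nat.dvd_one.1 h1)
    have hqp : q * p ∣ m := Nat.Coprime.mul_dvd_of_dvd_of_dvd ((Nat.coprime_primes hq hp).2 hne) hqm hpm
    have hqmem : q ∈ (Ioc z W).filter Nat.Prime := mem_filter.2 ⟨mem_Ioc.2 ⟨hzq, hqW⟩, hq⟩
    rw [mem_union]
    rcases le_or_gt p R with hpR | hpR
    · left
      rw [mem_biUnion]
      refine ⟨q, hqmem, ?_⟩
      rw [mem_biUnion]
      exact ⟨p, mem_filter.2 ⟨mem_Icc.2 ⟨hp.one_lt.le, hpR⟩, hp, hqp1⟩, mem_filter.2 ⟨hmI, hqp⟩⟩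
    · right
      rw [mem_biUnion]
      refine ⟨q, hqmem, ?_⟩
      rw [mem_biUnion]
      obtain ⟨k, hk⟩ := hqp
      have hk1 : 1 ≤ k := by
        rcases Nat.eq_zero_or_pos k with h | h
        · subst h; omega
        · exact h
      have hmk : m = (q * k) * p := by rw [hk]; ring
      refine ⟨k, mem_Icc.2 ⟨hk1, ?_⟩, mem_filter.2 ⟨hmI, p, hp, hqp1, hmk⟩⟩
      rw [Nat.le_div_iff_mul_le hq.pos]
      by_contra hcon
      push Not at hcon
      have h1 : R + 1 ≤ q * k := by rw [mul_comm q k]; omega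
      have h2 : (R + 1) * (R + 1) ≤ m := by
        rw [hmk]; exact Nat.mul_le_mul h1 hpR
      have h3 := Nat.lt_succ_sqrt (2 * X)
      rw [← hR] at h3
      have h4 : 2 * X < (R + 1) * (R + 1) := h3
      omega
  have h1 : (((Ioc X (X + Y)).filter (BadPair z W)).card : ℝ) ≤
      ∑ q ∈ (Ioc z W).filter Nat.Prime, ∑ p ∈ (Icc 1 R).filter (fun p => p.Prime ∧ q ∣ p - 1),
        (((Ioc X (X + Y)).filter (fun m => q * p ∣ m)).card : ℝ) +
      ∑ q ∈ (Ioc z W).filter Nat.Prime, ∑ k ∈ Icc 1 (R / q),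
        (((Ioc X (X + Y)).filter
          (fun m => ∃ p : ℕ, p.Prime ∧ q ∣ p - 1 ∧ m = (q * k) * p)).card : ℝ) := by
    have h2 := (card_le_card hsub).trans (card_union_le _ _)
    have h3 := h2.trans (Nat.add_le_add
      (card_biUnion_le.trans (sum_le_sum fun q _ => card_biUnion_le))
      (card_biUnion_le.trans (sum_le_sum fun q _ => card_biUnion_le)))
    exact_mod_cast h3
  refine h1.trans ?_
  have hA0 : 0 ≤ A := by
    rw [hA]
    have : 0 ≤ Real.log ((Nat.log 2 R : ℝ) + 1) := Real.log_nonneg (by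
      have : (0 : ℝ) ≤ (Nat.log 2 R : ℝ) := by positivity
      linarith)
    positivity
  have h2 : ∀ q ∈ (Ioc z W).filter Nat.Prime,
      ∑ p ∈ (Icc 1 R).filter (fun p => p.Prime ∧ q ∣ p - 1),
        (((Ioc X (X + Y)).filter (fun m => q * p ∣ m)).card : ℝ) ≤
      Y * A * (1 / (q : ℝ) ^ 2) + R := by
    intro q hq
    rw [mem_filter] at hq
    have hqp := hq.2
    have hq0 : (0 : ℝ) < q := by exact_mod_cast hqp.pos
    have h3 : ∑ p ∈ (Icc 1 R).filter (fun p => p.Prime ∧ q ∣ p - 1),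
        (((Ioc X (X + Y)).filter (fun m => q * p ∣ m)).card : ℝ) ≤
        ∑ p ∈ (Icc 1 R).filter (fun p => p.Prime ∧ q ∣ p - 1), (Y / q * ((1 : ℝ) / p) + 1) := by
      apply sum_le_sum
      intro p hp
      rw [mem_filter] at hp
      have hp0 : (0 : ℝ) < p := by exact_mod_cast hp.2.1.pos
      refine (card_dvd X Y (q * p) (Nat.mul_pos hqp.pos hp.2.1.pos)).trans (le_of_eq ?_)
      push_cast
      field_simp
    refine h3.trans ?_
    rw [sum_add_distrib, ← mul_sum, sum_const, nsmul_eq_mul, mul_one]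
    have h4 := S_upper q hqp R
    have h5 : (((Icc 1 R).filter (fun p => p.Prime ∧ q ∣ p - 1)).card : ℝ) ≤ R := by
      have : ((Icc 1 R).filter (fun p => p.Prime ∧ q ∣ p - 1)).card ≤ R := by
        refine (card_filter_le _ _).trans ?_
        simp
      exact_mod_cast this
    have h6 : (Y : ℝ) / q * ∑ p ∈ (Icc 1 R).filter (fun p => p.Prime ∧ q ∣ p - 1), (1 : ℝ) / p ≤
        Y / q * (A / q) := by gcongr
    have h7 : (Y : ℝ) / q * (A / q) = Y * A * (1 / (q : ℝ) ^ 2) := by field_simp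
    linarith
  have h3 : ∀ q ∈ (Ioc z W).filter Nat.Prime, ∑ k ∈ Icc 1 (R / q),
        (((Ioc X (X + Y)).filter
          (fun m => ∃ p : ℕ, p.Prime ∧ q ∣ p - 1 ∧ m = (q * k) * p)).card : ℝ) ≤
      Y * 2640 * (1 / (q : ℝ) ^ 2) := by
    intro q hq
    rw [mem_filter, mem_Ioc] at hq
    have hqp := hq.2
    have hq0 : (0 : ℝ) < q := by exact_mod_cast hqp.pos
    have h4 : ∑ k ∈ Icc 1 (R / q),
        (((Ioc X (X + Y)).filter
          (fun m => ∃ p : ℕ, p.Prime ∧ q ∣ p - 1 ∧ m = (q * k) * p)).card : ℝ) ≤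
        ∑ k ∈ Icc 1 (R / q), 2640 * Y / ((q : ℝ) ^ 2 * Real.log X) * ((1 : ℝ) / k) := by
      apply sum_le_sum
      intro k hk
      rw [mem_Icc] at hk
      have hk0 : (0 : ℝ) < k := by exact_mod_cast hk.1
      have hqk : q * k ≤ R := by
        have := hk.2
        rw [Nat.le_div_iff_mul_le hqp.pos] at this
        rw [mul_comm]; exact this
      refine (class_primes X Y (q * k) q (Nat.mul_pos hqp.pos hk.1) hqp hX ?_ hlog).trans
        (le_of_eq ?_)
      · refine le_trans ?_ hN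
        have : q * k * q ≤ R * W := Nat.mul_le_mul hqk hq.1.2
        have h5 : ((q * k * q : ℕ) : ℝ) ≤ ((R * W : ℕ) : ℝ) := by exact_mod_cast this
        gcongr
      · push_cast
        field_simp
    refine h4.trans ?_
    rw [← mul_sum]
    have h5 := sum_inv (R / q)
    have h6 : Real.log ((R / q : ℕ) : ℝ) ≤ Real.log R := by
      rcases Nat.eq_zero_or_pos (R / q) with h | h
      · rw [h]
        simp only [Nat.cast_zero, Real.log_zero]
        rcases Nat.eq_zero_or_pos R with h' | h'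
        · rw [h']; simp
        · exact Real.log_nonneg (by exact_mod_cast h')
      · apply Real.log_le_log (by exact_mod_cast h)
        exact_mod_cast Nat.div_le_self R q
    have h7 : ∑ k ∈ Icc 1 (R / q), (1 : ℝ) / k ≤ Real.log X := by linarith
    calc 2640 * Y / ((q : ℝ) ^ 2 * Real.log X) * ∑ k ∈ Icc 1 (R / q), (1 : ℝ) / k
        ≤ 2640 * Y / ((q : ℝ) ^ 2 * Real.log X) * Real.log X := by gcongr
      _ = _ := by field_simp
  have h4 := sum_le_sum h2
  have h5 := sum_le_sum h3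
  have h6 : ∑ q ∈ (Ioc z W).filter Nat.Prime, (1 : ℝ) / (q : ℝ) ^ 2 ≤ 1 / z := by
    refine le_trans ?_ (sum_inv_sq z W hz)
    apply sum_le_sum_of_subset_of_nonneg (filter_subset _ _)
    intro q _ _
    positivity
  have h7 : (((Ioc z W).filter Nat.Prime).card : ℝ) ≤ W := by
    have : ((Ioc z W).filter Nat.Prime).card ≤ W := by
      refine (card_filter_le _ _).trans ?_
      rw [Nat.card_Ioc]; exact Nat.sub_le W z
    exact_mod_cast this
  rw [sum_add_distrib, ← mul_sum, sum_const, nsmul_eq_mul] at h4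
  rw [← mul_sum] at h5
  have h8 : (Y : ℝ) * A * ∑ q ∈ (Ioc z W).filter Nat.Prime, (1 : ℝ) / (q : ℝ) ^ 2 ≤
      Y * A * (1 / z) := by gcongr
  have h9 : (Y : ℝ) * 2640 * ∑ q ∈ (Ioc z W).filter Nat.Prime, (1 : ℝ) / (q : ℝ) ^ 2 ≤
      Y * 2640 * (1 / z) := by gcongr
  have h10 : (((Ioc z W).filter Nat.Prime).card : ℝ) * R ≤ W * R := by gcongr
  have h11 : (Y : ℝ) * (2705 + 64 * Real.log (Nat.log 2 R + 1)) / z =
      Y * A * (1 / z) + Y * 2640 * (1 / z) := by
    rw [hA]; ring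
  rw [h11]
  linarith

end Pool.Agent.R517
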