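import Mathlib

/-!
Cyclic numbers: `m > 0` with `gcd (m, φ m) = 1`. Elementary criteria.
-/

set_option autoImplicit false

namespace Pool.Agent.R517

open Finset

/-- `m` is a cyclic number: `m > 0` and `gcd (m, φ m) = 1`. -/
def Cyc (m : ℕ) : Prop := 0 < m ∧ Nat.gcd m (Nat.totient m) = 1

/-- a cyclic number has no prime factors `q`, `p` with `q ∣ p - 1`. -/
theorem Cyc.no_pair {m p q : ℕ} (h : Cyc m) (hp : p.Prime) (hq : q.Prime) (hqm : q ∣ m)
    (hpm : p ∣ m) : ¬ q ∣ p - 1 := by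
  intro hd
  have h1 : p - 1 ∣ Nat.totient m := by
    rw [← Nat.totient_prime hp]
    exact Nat.totient_dvd_of_dvd hpm
  have h2 : q ∣ Nat.gcd m (Nat.totient m) := Nat.dvd_gcd hqm (hd.trans h1)
  rw [h.2] at h2
  exact hq.one_lt.ne' (Nat.dvd_one.1 h2)

/-- a number that is not cyclic has a prime factor `q` with `q ^ 2 ∣ m` or `q ∣ p - 1` for some prime
`p ∣ m`. -/
theorem exists_of_not_cyc {m : ℕ} (hm : 0 < m) (h : ¬ Cyc m) : ∃ q : ℕ, q.Prime ∧ q ∣ m ∧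
    (q ^ 2 ∣ m ∨ ∃ p : ℕ, p.Prime ∧ p ∣ m ∧ q ∣ p - 1) := by
  have h1 : Nat.gcd m (Nat.totient m) ≠ 1 := fun hg => h ⟨hm, hg⟩
  obtain ⟨q, hq, hqd⟩ := Nat.exists_prime_and_dvd h1
  have hqm : q ∣ m := hqd.trans (Nat.gcd_dvd_left _ _)
  have hqt : q ∣ Nat.totient m := hqd.trans (Nat.gcd_dvd_right _ _)
  refine ⟨q, hq, hqm, ?_⟩
  rw [Nat.totient_eq_prod_factorization hm.ne', Finsupp.prod] at hqt
  obtain ⟨p, hp, hpd⟩ := (Prime.dvd_finsetProd_iff hq.prime _).1 hqt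
  have hpp : p.Prime := Nat.prime_of_mem_primeFactors hp
  have hpm : p ∣ m := Nat.dvd_of_mem_primeFactors hp
  rcases (Nat.Prime.dvd_mul hq).1 hpd with h2 | h2
  · left
    have h3 : q ∣ p := hq.dvd_of_dvd_pow h2
    have h4 : q = p := (Nat.prime_dvd_prime_iff_eq hq hpp).1 h3
    subst h4
    have h5 : m.factorization q - 1 ≠ 0 := by
      intro h0
      rw [h0, pow_zero] at h2
      exact hq.one_lt.ne' (Nat.dvd_one.1 h2)
    have h6 : 2 ≤ m.factorization q := by omega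
    exact (pow_dvd_pow q h6).trans (Nat.ordProj_dvd m q)
  · right
    exact ⟨p, hpp, hpm, h2⟩

/-- an even cyclic number is `2`. -/
theorem Cyc.eq_two {m : ℕ} (h : Cyc m) (h2 : 2 ∣ m) : m = 2 := by
  by_contra hne
  have hm := h.1
  have h3 : 2 < m := by omega
  have h4 := Nat.totient_even h3
  have h5 : 2 ∣ Nat.gcd m (Nat.totient m) := Nat.dvd_gcd h2 h4.two_dvd
  rw [h.2] at h5
  omega

end Pool.Agent.R517
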