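import Pool.Agent.R517.Tup
import Pool.Agent.H305R2.MertensE

/-!
Densities of the sifted sets.
-/

set_option autoImplicit false

namespace Pool.Agent.R517

open Finset Filter Topology

/-- the local factors of the twin prime constant -/
noncomputable def twinFac (p : ℕ) : ℝ := if p.Prime ∧ p ≠ 2 then 1 - 1 / ((p : ℝ) - 1) ^ 2 else 1

/-- the twin prime constant `∏_{p > 2} (1 - 1 / (p - 1) ^ 2)` -/
noncomputable def twinC : ℝ := ∏' p : ℕ, twinFac p

theorem twinFac_le_one (p : ℕ) : twinFac p ≤ 1 := by
  unfold twinFac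
  split_ifs
  · have : (0 : ℝ) ≤ 1 / ((p : ℝ) - 1) ^ 2 := by positivity
    linarith
  · exact le_rfl

theorem twin_multipliable : Multipliable twinFac := by
  have h : Summable (fun p : ℕ => ‖twinFac p - 1‖) := by
    have h1 : Summable (fun p : ℕ => 4 / (p : ℝ) ^ 2) := by
      have := (Real.summable_one_div_nat_pow (p := 2)).2 (by norm_num)
      refine (this.mul_left 4).congr (fun p => by ring)
    refine Summable.of_nonneg_of_le (fun p => norm_nonneg _) (fun p => ?_) h1
    unfold twinFac
    split_ifs with hp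
    · have hp3 : 3 ≤ p := by
        have := hp.1.two_le
        have := hp.2
        omega
      have hp3' : (3 : ℝ) ≤ p := by exact_mod_cast hp3
      have e : (1 - 1 / ((p : ℝ) - 1) ^ 2) - 1 = -(1 / ((p : ℝ) - 1) ^ 2) := by ring
      rw [e, norm_neg, Real.norm_of_nonneg (by positivity)]
      rw [div_le_div_iff₀ (by have : (0 : ℝ) < (p : ℝ) - 1 := by linarith
                              positivity) (by positivity)]
      nlinarith
    · simp only [sub_self, norm_zero]
      positivity
  have h2 := Real.multipliable_one_add_of_summable h.of_norm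
  refine h2.congr (fun p => by ring)

theorem twin_tendsto : Tendsto (fun z : ℕ => ∏ p ∈ range z, twinFac p) atTop (𝓝 twinC) :=
  twin_multipliable.hasProd.tendsto_prod_nat

theorem twin_lower (n : ℕ) : ((n : ℝ) + 2) / (2 * (n + 1)) ≤ ∏ p ∈ range (n + 3), twinFac p := by
  induction n with
  | zero =>
    rw [prod_range_succ, prod_range_succ, prod_range_succ]
    unfold twinFac
    norm_num [Nat.not_prime_zero, Nat.not_prime_one]
  | succ n ih =>
    rw [show n + 1 + 3 = (n + 3) + 1 by ring, prod_range_succ]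
    have h1 : 1 - 1 / ((n : ℝ) + 2) ^ 2 ≤ twinFac (n + 3) := by
      unfold twinFac
      split_ifs
      · push_cast
        have : (n : ℝ) + 3 - 1 = n + 2 := by ring
        rw [this]
      · have : (0 : ℝ) ≤ 1 / ((n : ℝ) + 2) ^ 2 := by positivity
        linarith
    have h2 : (0 : ℝ) ≤ 1 - 1 / ((n : ℝ) + 2) ^ 2 := by
      have : 1 / ((n : ℝ) + 2) ^ 2 ≤ 1 := by
        rw [div_le_one (by positivity)]
        nlinarith [show (0 : ℝ) ≤ n by positivity]
      linarith
    have h3 : (((n + 1 : ℕ) : ℝ) + 2) / (2 * (((n + 1 : ℕ) : ℝ) + 1)) =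
        ((n : ℝ) + 2) / (2 * (n + 1)) * (1 - 1 / ((n : ℝ) + 2) ^ 2) := by
      push_cast
      field_simp
      ring
    rw [h3]
    exact mul_le_mul ih h1 h2 (le_trans (by positivity) ih)

theorem twinC_ge : 1 / 2 ≤ twinC := by
  have h := twin_tendsto.comp (tendsto_add_atTop_nat 3)
  refine ge_of_tendsto' h (fun n => ?_)
  refine le_trans ?_ (twin_lower n)
  rw [div_le_div_iff₀ (by norm_num) (by positivity)]
  linarith

theorem twinC_pos : 0 < twinC := lt_of_lt_of_le (by norm_num) twinC_ge

/-- `∏_{p ≤ z} (1 - 1/p)` -/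
noncomputable def V (z : ℕ) : ℝ := ∏ p ∈ Pz z, (1 - (1 : ℝ) / p)

theorem V_tendsto : Tendsto (fun z : ℕ => V z * Real.log z) atTop
    (𝓝 (Real.exp (-Real.eulerMascheroniConstant))) := by
  have h := (Pool.Agent.H305R2.mertens_three.inv₀ (Real.exp_pos _).ne')
  rw [← Real.exp_neg] at h
  refine h.congr (fun z => ?_)
  unfold V Pz
  rw [inv_div, div_eq_mul_inv, mul_comm, ← prod_inv_distrib]
  congr 1
  apply prod_congr rfl
  intro p _
  rw [inv_inv, one_div]

theorem V_pos (z : ℕ) : 0 < V z := by
  unfold V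
  apply prod_pos
  intro p hp
  have := (Pz_prime hp).two_le
  have h2 : (2 : ℝ) ≤ p := by exact_mod_cast this
  have : (1 : ℝ) / p ≤ 1 / 2 := one_div_le_one_div_of_le (by norm_num) h2
  linarith

theorem V_zero : Tendsto V atTop (𝓝 0) := by
  have hl : Tendsto (fun z : ℕ => Real.log z) atTop atTop :=
    Real.tendsto_log_atTop.comp tendsto_natCast_atTop_atTop
  have h := V_tendsto.div_atTop hl
  refine h.congr' ?_
  filter_upwards [hl.eventually_ge_atTop 1] with z hz
  field_simp

/-- if the number of forbidden classes is at least `k + 1` for the large primes, the density is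
`o(1 / (log z) ^ k)`. -/
theorem dens_small (H : Finset (ℕ × ℕ)) (k P0 : ℕ)
    (hF : ∀ p, p.Prime → P0 < p → k + 1 ≤ (Fh H p).card) :
    Tendsto (fun z : ℕ => dens (Fh H) (Pz z) * Real.log z ^ k) atTop (𝓝 0) := by
  have hb : ∀ z : ℕ, dens (Fh H) (Pz z) ≤ (2 ^ (k + 1)) ^ P0 * V z ^ (k + 1) := by
    intro z
    have h1 : dens (Fh H) (Pz z) ≤
        ∏ p ∈ Pz z, ((if p ≤ P0 then (2 : ℝ) ^ (k + 1) else 1) * (1 - 1 / p) ^ (k + 1)) := by
      unfold dens
      apply Finset.prod_le_prod
      · intro p hp
        have hpp := Pz_prime hp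
        have h1 : (Fh H p).card ≤ p := by
          have := card_le_card (Fh_subset H p hpp)
          rwa [card_range] at this
        have h2 : (0 : ℝ) < p := by exact_mod_cast hpp.pos
        have h3 : ((Fh H p).card : ℝ) / p ≤ 1 := by
          rw [div_le_one h2]; exact_mod_cast h1
        linarith
      · intro p hp
        have hpp := Pz_prime hp
        have h2 : (2 : ℝ) ≤ p := by exact_mod_cast hpp.two_le
        have h3 : (1 : ℝ) / p ≤ 1 / 2 := one_div_le_one_div_of_le (by norm_num) h2
        split_ifs with hle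
        · have h4 : (1 : ℝ) ≤ 2 ^ (k + 1) * (1 - 1 / p) ^ (k + 1) := by
            rw [← mul_pow]
            apply one_le_pow₀
            linarith
          have h5 : (0 : ℝ) ≤ ((Fh H p).card : ℝ) / p := by positivity
          linarith
        · rw [one_mul]
          have h4 := one_add_mul_le_pow (show (-2 : ℝ) ≤ -(1 / p) by linarith) (k + 1)
          have h5 : ((k + 1 : ℕ) : ℝ) ≤ (Fh H p).card := by exact_mod_cast hF p hpp (by omega)
          have h6 : ((k + 1 : ℕ) : ℝ) / p ≤ ((Fh H p).card : ℝ) / p := by gcongr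
          have h7 : (1 : ℝ) - 1 / p = 1 + -(1 / p) := by ring
          rw [h7]
          refine le_trans ?_ h4
          have h8 : 1 + ((k + 1 : ℕ) : ℝ) * -(1 / (p : ℝ)) = 1 - ((k + 1 : ℕ) : ℝ) / p := by ring
          rw [h8]
          linarith
    refine h1.trans ?_
    rw [prod_mul_distrib, prod_pow]
    have h2 : ∏ p ∈ Pz z, (if p ≤ P0 then (2 : ℝ) ^ (k + 1) else 1) ≤ (2 ^ (k + 1)) ^ P0 := by
      rw [prod_ite, prod_const, prod_const_one, mul_one]
      apply pow_le_pow_right₀ (one_le_pow₀ (by norm_num))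
      have : (Pz z).filter (fun p => p ≤ P0) ⊆ Icc 1 P0 := by
        intro p hp
        rw [mem_filter] at hp
        rw [mem_Icc]
        exact ⟨(Pz_prime hp.1).one_lt.le, hp.2⟩
      have := card_le_card this
      simpa using this
    have h3 : (0 : ℝ) ≤ (∏ p ∈ Pz z, (1 - (1 : ℝ) / p)) ^ (k + 1) := by
      have := (V_pos z).le
      unfold V at this
      positivity
    unfold V
    gcongr
  have hl : Tendsto (fun z : ℕ => Real.log z) atTop atTop :=
    Real.tendsto_log_atTop.comp tendsto_natCast_atTop_atTop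
  have hlim : Tendsto (fun z : ℕ => (2 ^ (k + 1)) ^ P0 * ((V z * Real.log z) ^ k * V z)) atTop
      (𝓝 ((2 ^ (k + 1)) ^ P0 * (Real.exp (-Real.eulerMascheroniConstant) ^ k * 0))) :=
    ((V_tendsto.pow k).mul V_zero).const_mul _
  rw [mul_zero, mul_zero] at hlim
  refine tendsto_of_tendsto_of_tendsto_of_le_of_le' tendsto_const_nhds hlim ?_ ?_
  · filter_upwards [hl.eventually_ge_atTop 0] with z hz
    have := dens_nonneg (Fh H) (Fh_subset H) (Pz z) (fun p hp => Pz_prime hp)
    positivity
  · filter_upwards [hl.eventually_ge_atTop 0] with z hz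
    calc dens (Fh H) (Pz z) * Real.log z ^ k ≤
        ((2 ^ (k + 1)) ^ P0 * V z ^ (k + 1)) * Real.log z ^ k := by
          have := hb z
          gcongr
      _ = _ := by ring

/-- the density for the pair `{0, g}` in terms of local factors -/
theorem dens_pair (H : Finset (ℕ × ℕ)) (c : ℝ) (z0 : ℕ)
    (h0 : ∀ z, z0 ≤ z → dens (Fh H) (Pz z) = c * (V z ^ 2 * ∏ p ∈ range (z + 1), twinFac p)) :
    Tendsto (fun z : ℕ => dens (Fh H) (Pz z) * Real.log z ^ 2) atTop
      (𝓝 (c * (Real.exp (-2 * Real.eulerMascheroniConstant) * twinC))) := by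
  have h1 : Tendsto (fun z : ℕ => c * ((V z * Real.log z) ^ 2 * ∏ p ∈ range (z + 1), twinFac p)) atTop
      (𝓝 (c * (Real.exp (-Real.eulerMascheroniConstant) ^ 2 * twinC))) :=
    ((V_tendsto.pow 2).mul (twin_tendsto.comp (tendsto_add_atTop_nat 1))).const_mul c
  have h2 : Real.exp (-Real.eulerMascheroniConstant) ^ 2 =
      Real.exp (-2 * Real.eulerMascheroniConstant) := by
    rw [← Real.exp_nat_mul]
    congr 1
    push_cast
    ring
  rw [h2] at h1
  refine h1.congr' ?_
  filter_upwards [eventually_ge_atTop z0] with z hz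
  rw [h0 z hz]
  ring

theorem prod_twin (z : ℕ) : ∏ p ∈ range (z + 1), twinFac p = ∏ p ∈ Pz z, twinFac p := by
  symm
  apply prod_subset
  · intro p hp
    unfold Pz at hp
    rw [mem_filter, mem_Icc] at hp
    rw [mem_range]
    omega
  · intro p hp hp'
    unfold twinFac
    rw [if_neg]
    rintro ⟨h1, _⟩
    apply hp'
    unfold Pz
    rw [mem_filter, mem_Icc]
    rw [mem_range] at hp
    exact ⟨⟨h1.one_lt.le, by omega⟩, h1⟩

/-- the pair `{0, g}` -/
def pairH (g : ℕ) : Finset (ℕ × ℕ) := {(1, 0), (1, g)}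

theorem mem_Fh_pair (g p r : ℕ) : r ∈ Fh (pairH g) p ↔ r < p ∧ (p ∣ r ∨ p ∣ r + g) := by
  unfold Fh pairH
  simp [mem_filter]

theorem Fh_pair_big (g p : ℕ) (hg : 0 < g) (hp : g < p) : (Fh (pairH g) p).card = 2 := by
  have h1 : Fh (pairH g) p = {0, p - g} := by
    ext r
    rw [mem_Fh_pair, mem_insert, mem_singleton]
    constructor
    · rintro ⟨h1, h2 | h2⟩
      · exact Or.inl (Nat.eq_zero_of_dvd_of_lt h2 h1)
      · right
        obtain ⟨c, hc⟩ := h2
        have h3 : c = 1 := by
          rcases Nat.lt_or_ge c 1 with h | h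
          · have : c = 0 := by omega
            subst this; omega
          · rcases Nat.lt_or_ge 1 c with h' | h'
            · have : p * 2 ≤ p * c := Nat.mul_le_mul_left p h'
              omega
            · omega
        subst h3
        omega
    · rintro (h | h)
      · subst h; exact ⟨by omega, Or.inl (dvd_zero p)⟩
      · subst h
        exact ⟨by omega, Or.inr ⟨1, by omega⟩⟩
  rw [h1, card_pair]
  omega

theorem dens_pair_eq (g z : ℕ) (S : Finset ℕ) (hS : ∀ p ∈ S, p.Prime ∧ p ≤ z) (hS2 : 2 ∈ S)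
    (h2 : (Fh (pairH g) 2).card = 1) (h1 : ∀ p, p.Prime → p ≠ 2 → (Fh (pairH g) p).card =
      if p ∈ S then 1 else 2) (hloc : ∀ p ∈ S, p ≤ 3) :
    dens (Fh (pairH g)) (Pz z) = 2 ^ S.card * (V z ^ 2 * ∏ p ∈ range (z + 1), twinFac p) := by
  rw [prod_twin]
  have e1 : (2 : ℝ) ^ S.card = ∏ p ∈ Pz z, (if p ∈ S then (2 : ℝ) else 1) := by
    rw [prod_ite, prod_const, prod_const_one, mul_one]
    congr 2
    ext p
    rw [mem_filter]
    refine ⟨fun h => ⟨?_, h⟩, fun h => h.2⟩
    unfold Pz
    rw [mem_filter, mem_Icc]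
    exact ⟨⟨(hS p h).1.one_lt.le, (hS p h).2⟩, (hS p h).1⟩
  rw [e1]
  unfold dens V
  rw [← prod_pow, ← prod_mul_distrib, ← prod_mul_distrib]
  apply prod_congr rfl
  intro p hp
  have hpp := Pz_prime hp
  by_cases hp2 : p = 2
  · subst hp2
    rw [h2, if_pos hS2]
    unfold twinFac
    norm_num
  · have hp3 : 3 ≤ p := by
      have := hpp.two_le
      omega
    have hp3' : (3 : ℝ) ≤ p := by exact_mod_cast hp3
    have hne : (p : ℝ) - 1 ≠ 0 := by linarith
    have hne2 : (p : ℝ) ≠ 0 := by linarith
    rw [h1 p hpp hp2]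
    unfold twinFac
    rw [if_pos (show p.Prime ∧ p ≠ 2 from ⟨hpp, hp2⟩)]
    split_ifs with h
    · have h3 : p = 3 := by
        have := hloc p h
        omega
      subst h3
      norm_num
    · push_cast
      field_simp
      ring

theorem prime_cases6 {p : ℕ} (hp : p.Prime) (h2 : p ≠ 2) : p = 3 ∨ p = 5 ∨ 6 < p := by
  by_contra hcon
  push Not at hcon
  have h1 : p ≤ 6 := hcon.2.2
  have h3 := hp.two_le
  interval_cases p
  · exact h2 rfl
  · exact hcon.1 rfl
  · exact absurd hp (by decide)
  · exact hcon.2.1 rfl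
  · exact absurd hp (by decide)

/-- the constants: `2 e ^ {-2γ} C` for `g = 2, 4` and `4 e ^ {-2γ} C` for `g = 6` -/
noncomputable def kap (g : ℕ) : ℝ := (if g = 6 then 4 else 2) *
  (Real.exp (-2 * Real.eulerMascheroniConstant) * twinC)

theorem kap_pos (g : ℕ) : 0 < kap g := by
  unfold kap
  have := twinC_pos
  have h2 := Real.exp_pos (-2 * Real.eulerMascheroniConstant)
  split_ifs <;> positivity

theorem dens_g (g : ℕ) (hg : g = 2 ∨ g = 4 ∨ g = 6) :
    Tendsto (fun z : ℕ => dens (Fh (pairH g)) (Pz z) * Real.log z ^ 2) atTop (𝓝 (kap g)) := by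
  rcases hg with rfl | rfl | rfl
  · have : kap 2 = 2 ^ ({2} : Finset ℕ).card *
        (Real.exp (-2 * Real.eulerMascheroniConstant) * twinC) := by
      unfold kap; norm_num
    rw [this]
    apply dens_pair _ _ 3
    intro z hz
    apply dens_pair_eq
    · intro p hp
      rw [mem_singleton] at hp
      subst hp
      exact ⟨Nat.prime_two, by omega⟩
    · exact mem_singleton_self 2
    · decide
    · intro p hp h2
      rw [if_neg (by rw [mem_singleton]; exact h2)]
      rcases prime_cases6 hp h2 with rfl | rfl | h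
      · decide
      · decide
      · exact Fh_pair_big 2 p (by norm_num) (by omega)
    · intro p hp
      rw [mem_singleton] at hp
      omega
  · have : kap 4 = 2 ^ ({2} : Finset ℕ).card *
        (Real.exp (-2 * Real.eulerMascheroniConstant) * twinC) := by
      unfold kap; norm_num
    rw [this]
    apply dens_pair _ _ 3
    intro z hz
    apply dens_pair_eq
    · intro p hp
      rw [mem_singleton] at hp
      subst hp
      exact ⟨Nat.prime_two, by omega⟩
    · exact mem_singleton_self 2
    · decide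
    · intro p hp h2
      rw [if_neg (by rw [mem_singleton]; exact h2)]
      rcases prime_cases6 hp h2 with rfl | rfl | h
      · decide
      · decide
      · exact Fh_pair_big 4 p (by norm_num) (by omega)
    · intro p hp
      rw [mem_singleton] at hp
      omega
  · have : kap 6 = 2 ^ ({2, 3} : Finset ℕ).card *
        (Real.exp (-2 * Real.eulerMascheroniConstant) * twinC) := by
      unfold kap
      rw [card_pair (by norm_num)]
      norm_num
    rw [this]
    apply dens_pair _ _ 3
    intro z hz
    apply dens_pair_eq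
    · intro p hp
      rw [mem_insert, mem_singleton] at hp
      rcases hp with rfl | rfl
      · exact ⟨Nat.prime_two, by omega⟩
      · exact ⟨Nat.prime_three, by omega⟩
    · exact mem_insert_self 2 _
    · decide
    · intro p hp h2
      rcases prime_cases6 hp h2 with rfl | rfl | h
      · decide
      · decide
      · rw [if_neg (by rw [mem_insert, mem_singleton]; omega)]
        exact Fh_pair_big 6 p (by norm_num) h
    · intro p hp
      rw [mem_insert, mem_singleton] at hp
      omega

/-- the triple `{0, h, g}` -/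
def tripH (h g : ℕ) : Finset (ℕ × ℕ) := {(1, 0), (1, h), (1, g)}

theorem dens_trip (h g : ℕ) (h0 : 0 < h) (hg : h < g) :
    Tendsto (fun z : ℕ => dens (Fh (tripH h g)) (Pz z) * Real.log z ^ 2) atTop (𝓝 0) := by
  apply dens_small _ 2 g
  intro p hp hgp
  have h1 : ({0, p - h, p - g} : Finset ℕ) ⊆ Fh (tripH h g) p := by
    intro r hr
    rw [mem_insert, mem_insert, mem_singleton] at hr
    unfold Fh tripH
    rw [mem_filter, mem_range]
    rcases hr with rfl | rfl | rfl
    · exact ⟨by omega, (1, 0), by simp, by simp⟩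
    · exact ⟨by omega, (1, h), by simp, ⟨1, by simp only; omega⟩⟩
    · exact ⟨by omega, (1, g), by simp, ⟨1, by simp only; omega⟩⟩
  refine le_trans ?_ (card_le_card h1)
  rw [card_insert_of_notMem, card_pair]
  · omega
  · rw [mem_insert, mem_singleton]
    omega

end Pool.Agent.R517
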