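import Mathlib

/-!
Growth of the iterated logarithms and of the sieve limits.
-/

set_option autoImplicit false

namespace Pool.Agent.R517

open Finset Filter Topology

/-- `log log X` -/
noncomputable def LL (X : ℕ) : ℝ := Real.log (Real.log X)

/-- `log log log X` -/
noncomputable def L3 (X : ℕ) : ℝ := Real.log (Real.log (Real.log X))

theorem tendsto_log_nat : Tendsto (fun X : ℕ => Real.log X) atTop atTop :=
  Real.tendsto_log_atTop.comp tendsto_natCast_atTop_atTop

theorem tendsto_LL : Tendsto LL atTop atTop := Real.tendsto_log_atTop.comp tendsto_log_nat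

theorem tendsto_L3 : Tendsto L3 atTop atTop := Real.tendsto_log_atTop.comp tendsto_LL

theorem loglog_div_log : Tendsto (fun u : ℝ => Real.log (Real.log u) / Real.log u) atTop (𝓝 0) := by
  have h := (Real.isLittleO_log_id_atTop.tendsto_div_nhds_zero).comp Real.tendsto_log_atTop
  refine h.congr (fun u => ?_)
  simp

theorem log_pow_le (B : ℕ) {c : ℝ} (hc : 0 < c) : ∀ᶠ u : ℝ in atTop, (Real.log u) ^ B ≤ c * u := by
  have h := (Real.isLittleO_pow_log_id_atTop (n := B)).bound hc
  filter_upwards [h, eventually_ge_atTop 1] with u hu hu1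
  rw [id, Real.norm_of_nonneg (by have := Real.log_nonneg hu1; positivity),
    Real.norm_of_nonneg (by linarith)] at hu
  exact hu

/-- the upper sieve limit, as a function of `log log X` -/
noncomputable def fp (B : ℕ) (u : ℝ) : ℕ := ⌈u * (Real.log u) ^ B⌉₊

/-- the lower sieve limit, as a function of `log log X` -/
noncomputable def fm (B : ℕ) (u : ℝ) : ℕ := ⌊u / (Real.log u) ^ B⌋₊

theorem fp_bounds (B : ℕ) : ∀ᶠ u : ℝ in atTop, u ≤ fp B u ∧ (fp B u : ℝ) ≤ 2 * u * (Real.log u) ^ B := by
  filter_upwards [Real.tendsto_log_atTop.eventually_ge_atTop 1, eventually_ge_atTop 1] with u h1 h2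
  have h3 : 1 ≤ (Real.log u) ^ B := one_le_pow₀ h1
  have h4 : u ≤ u * (Real.log u) ^ B := le_mul_of_one_le_right (by linarith) h3
  constructor
  · exact h4.trans (Nat.le_ceil _)
  · have := Nat.ceil_lt_add_one (show 0 ≤ u * (Real.log u) ^ B by linarith)
    unfold fp
    have e : 2 * u * (Real.log u) ^ B = u * (Real.log u) ^ B + u * (Real.log u) ^ B := by ring
    rw [e]
    linarith

theorem fm_bounds (B : ℕ) : ∀ᶠ u : ℝ in atTop, (fm B u : ℝ) ≤ u / (Real.log u) ^ B ∧
    (fm B u : ℝ) ≤ u ∧ u / (2 * (Real.log u) ^ B) ≤ fm B u := by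
  filter_upwards [Real.tendsto_log_atTop.eventually_ge_atTop 1, eventually_ge_atTop 1,
    log_pow_le B (by norm_num : (0 : ℝ) < 1 / 2)] with u h1 h2 h5
  have h3 : 1 ≤ (Real.log u) ^ B := one_le_pow₀ h1
  have h4 : u / (Real.log u) ^ B ≤ u := div_le_self (by linarith) h3
  have h6 : (fm B u : ℝ) ≤ u / (Real.log u) ^ B := Nat.floor_le (by positivity)
  refine ⟨h6, h6.trans h4, ?_⟩
  have h7 := Nat.lt_floor_add_one (u / (Real.log u) ^ B)
  have h8 : 2 ≤ u / (Real.log u) ^ B := by
    rw [le_div_iff₀ (by positivity)]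
    linarith
  have h9 : u / (2 * (Real.log u) ^ B) = (u / (Real.log u) ^ B) / 2 := by
    field_simp
  rw [h9]
  unfold fm
  linarith

theorem fp_tendsto (B : ℕ) : Tendsto (fp B) atTop atTop := by
  rw [← tendsto_natCast_atTop_iff (R := ℝ)]
  apply tendsto_atTop_mono' _ _ tendsto_id
  filter_upwards [fp_bounds B] with u hu
  exact hu.1

theorem fm_tendsto (B : ℕ) : Tendsto (fm B) atTop atTop := by
  rw [← tendsto_natCast_atTop_iff (R := ℝ), tendsto_atTop]
  intro C
  have hC : (0 : ℝ) < max C 1 := lt_of_lt_of_le one_pos (le_max_right _ _)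
  filter_upwards [Real.tendsto_log_atTop.eventually_ge_atTop 1, eventually_ge_atTop 1, fm_bounds B,
    log_pow_le B (show (0 : ℝ) < 1 / (2 * max C 1) by positivity)] with u h1 h2 h3 h4
  have h5 : 1 ≤ (Real.log u) ^ B := one_le_pow₀ h1
  refine (le_max_left C 1).trans (le_trans ?_ h3.2.2)
  rw [le_div_iff₀ (by positivity)]
  have h6 : max C 1 * (2 * (Real.log u) ^ B) ≤ max C 1 * (2 * (1 / (2 * max C 1) * u)) := by gcongr
  refine h6.trans (le_of_eq ?_)
  field_simp

theorem fp_log (B : ℕ) : Tendsto (fun u => Real.log (fp B u) / Real.log u) atTop (𝓝 1) := by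
  have hup : Tendsto (fun u : ℝ => 1 + (Real.log 2 / Real.log u + B * (Real.log (Real.log u) / Real.log u)))
      atTop (𝓝 (1 + (0 + B * 0))) := by
    apply Tendsto.const_add
    apply Tendsto.add
    · exact Tendsto.const_div_atTop Real.tendsto_log_atTop _
    · exact loglog_div_log.const_mul _
  rw [mul_zero, add_zero, add_zero] at hup
  refine tendsto_of_tendsto_of_tendsto_of_le_of_le' tendsto_const_nhds hup ?_ ?_
  · filter_upwards [fp_bounds B, Real.tendsto_log_atTop.eventually_ge_atTop 1,
      eventually_ge_atTop 1] with u h1 h2 h3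
    rw [le_div_iff₀ (by linarith), one_mul]
    exact Real.log_le_log (by linarith) h1.1
  · filter_upwards [fp_bounds B, Real.tendsto_log_atTop.eventually_ge_atTop 1,
      eventually_ge_atTop 1] with u h1 h2 h3
    have hl0 : 0 < Real.log u := by linarith
    rw [div_le_iff₀ hl0]
    have hpos : (0 : ℝ) < fp B u := by linarith [h1.1]
    have h4 := Real.log_le_log hpos h1.2
    rw [Real.log_mul (by positivity) (by positivity), Real.log_mul (by norm_num) (by positivity),
      Real.log_pow] at h4
    refine h4.trans (le_of_eq ?_)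
    field_simp
    ring

theorem fm_log (B : ℕ) : Tendsto (fun u => Real.log (fm B u) / Real.log u) atTop (𝓝 1) := by
  have hlo : Tendsto (fun u : ℝ => 1 - (Real.log 2 / Real.log u + B * (Real.log (Real.log u) / Real.log u)))
      atTop (𝓝 (1 - (0 + B * 0))) := by
    apply Tendsto.const_sub
    apply Tendsto.add
    · exact Tendsto.const_div_atTop Real.tendsto_log_atTop _
    · exact loglog_div_log.const_mul _
  rw [mul_zero, add_zero, sub_zero] at hlo
  refine tendsto_of_tendsto_of_tendsto_of_le_of_le' hlo tendsto_const_nhds ?_ ?_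
  · filter_upwards [fm_bounds B, Real.tendsto_log_atTop.eventually_ge_atTop 1,
      eventually_ge_atTop 1] with u h1 h2 h3
    have hl0 : 0 < Real.log u := by linarith
    rw [le_div_iff₀ hl0]
    have h4 := Real.log_le_log (show (0 : ℝ) < u / (2 * (Real.log u) ^ B) by positivity) h1.2.2
    rw [Real.log_div (by positivity) (by positivity), Real.log_mul (by norm_num) (by positivity),
      Real.log_pow] at h4
    refine le_trans (le_of_eq ?_) h4
    field_simp
  · filter_upwards [fm_bounds B, Real.tendsto_log_atTop.eventually_ge_atTop 1,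
      eventually_ge_atTop 1, (fm_tendsto B).eventually_ge_atTop 1] with u h1 h2 h3 h4
    rw [div_le_iff₀ (by linarith), one_mul]
    exact Real.log_le_log (by exact_mod_cast h4) h1.2.1

/-- the sieve limit is below a power of the logarithm -/
theorem fp_small (B : ℕ) : ∀ᶠ X : ℕ in atTop, 8 * (fp B (LL X) : ℝ) ≤ Real.log X := by
  have h1 : ∀ᶠ u : ℝ in atTop, 8 * (fp B u : ℝ) ≤ Real.exp u := by
    have h2 := (Real.tendsto_exp_div_pow_atTop 2).eventually_ge_atTop 16
    filter_upwards [fp_bounds B, log_pow_le B (by norm_num : (0 : ℝ) < 1), h2,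
      eventually_ge_atTop 1] with u h3 h4 h5 h6
    rw [le_div_iff₀ (by positivity)] at h5
    have h7 : 2 * u * (Real.log u) ^ B ≤ 2 * u * (1 * u) := by gcongr
    nlinarith [h3.2]
  filter_upwards [tendsto_LL.eventually h1, tendsto_log_nat.eventually_ge_atTop 1] with X h2 h3
  refine h2.trans (le_of_eq ?_)
  unfold LL
  rw [Real.exp_log (by linarith)]

end Pool.Agent.R517
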