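import Pool.Agent.R517.Grow

/-!
Slow variation of the triple logarithm.
-/

set_option autoImplicit false

namespace Pool.Agent.R517

open Finset Filter Topology

theorem log_ratio {f g : ℕ → ℝ} {c : ℝ} (hc : 0 < c) (hf : Tendsto f atTop atTop)
    (hg : Tendsto g atTop atTop) (h : Tendsto (fun n => f n / g n) atTop (𝓝 c)) :
    Tendsto (fun n => Real.log (f n) / Real.log (g n)) atTop (𝓝 1) := by
  have hlg : Tendsto (fun n => Real.log (g n)) atTop atTop := Real.tendsto_log_atTop.comp hg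
  have h1 : Tendsto (fun n => Real.log (f n / g n)) atTop (𝓝 (Real.log c)) :=
    ((Real.continuousAt_log hc.ne').tendsto).comp h
  have h2 := (h1.div_atTop hlg).const_add 1
  rw [add_zero] at h2
  refine h2.congr' ?_
  filter_upwards [hf.eventually_gt_atTop 0, hg.eventually_gt_atTop 0,
    hlg.eventually_gt_atTop 0] with n h3 h4 h5
  rw [Real.log_div h3.ne' h4.ne']
  field_simp
  ring

theorem L3_ratio {a b : ℕ → ℕ} {c : ℝ} (hc : 0 < c) (ha : Tendsto a atTop atTop)
    (hb : Tendsto b atTop atTop)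
    (h : Tendsto (fun n => Real.log (a n) / Real.log (b n)) atTop (𝓝 c)) :
    Tendsto (fun n => L3 (a n) / L3 (b n)) atTop (𝓝 1) := by
  have ha1 := tendsto_log_nat.comp ha
  have hb1 := tendsto_log_nat.comp hb
  have h1 := log_ratio hc ha1 hb1 h
  exact log_ratio one_pos (Real.tendsto_log_atTop.comp ha1) (Real.tendsto_log_atTop.comp hb1) h1

theorem L3_ratio' {a b : ℕ → ℕ} {c : ℝ} (hc : 0 < c) (ha : Tendsto a atTop atTop)
    (hb : Tendsto b atTop atTop)
    (h : Tendsto (fun n => (a n : ℝ) / (b n : ℝ)) atTop (𝓝 c)) :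
    Tendsto (fun n => L3 (a n) / L3 (b n)) atTop (𝓝 1) :=
  L3_ratio one_pos ha hb (log_ratio hc (tendsto_natCast_atTop_atTop.comp ha)
    (tendsto_natCast_atTop_atTop.comp hb) h)

theorem L3_cube : Tendsto (fun n : ℕ => L3 (n ^ 3) / L3 n) atTop (𝓝 1) := by
  apply L3_ratio (c := 3) (by norm_num) (tendsto_pow_atTop (by norm_num)) tendsto_id
  refine tendsto_const_nhds.congr' ?_
  filter_upwards [tendsto_log_nat.eventually_gt_atTop 0] with n hn
  push_cast
  rw [Real.log_pow]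
  simp only [id]
  push_cast
  field_simp

theorem L3_shift (k : ℕ) : Tendsto (fun n : ℕ => L3 (n + k) / L3 n) atTop (𝓝 1) := by
  apply L3_ratio' (c := 1) one_pos (tendsto_add_atTop_nat k) tendsto_id
  have h1 : Tendsto (fun n : ℕ => 1 + (k : ℝ) / (n : ℝ)) atTop (𝓝 (1 + 0)) :=
    (tendsto_const_div_atTop_nhds_zero_nat (k : ℝ)).const_add 1
  rw [add_zero] at h1
  refine h1.congr' ?_
  filter_upwards [eventually_ge_atTop 1] with n hn
  have hn0 : (n : ℝ) ≠ 0 := by positivity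
  simp only [id]
  push_cast
  field_simp

theorem L3_pos16 (n : ℕ) : 0 < L3 (n + 16) := by
  unfold L3
  have h1 : Real.exp 1 < Real.log ((n + 16 : ℕ) : ℝ) := by
    have h2 : Real.log 16 ≤ Real.log ((n + 16 : ℕ) : ℝ) := by
      apply Real.log_le_log (by norm_num)
      push_cast
      linarith [show (0 : ℝ) ≤ n by positivity]
    have h3 : Real.log 16 = 4 * Real.log 2 := by
      rw [show (16 : ℝ) = 2 ^ 4 by norm_num, Real.log_pow]; norm_num
    have h4 := Real.log_two_gt_d9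
    have h5 := Real.exp_one_lt_d9
    linarith
  have h2 : 1 < Real.log (Real.log ((n + 16 : ℕ) : ℝ)) := by
    rw [Real.lt_log_iff_exp_lt (by linarith [Real.exp_pos 1])]
    exact h1
  exact Real.log_pos h2

/-- the comparison sequence -/
noncomputable def fcomp (c : ℝ) (n : ℕ) : ℝ := c * ((n : ℝ) + 1) ^ 2 / L3 (n + 16) ^ 2

theorem fcomp_pos {c : ℝ} (hc : 0 < c) (n : ℕ) : 0 < fcomp c n := by
  unfold fcomp
  have := L3_pos16 n
  positivity

theorem floor_ratio {l : ℝ} (hl : 0 < l) (a b : ℝ) :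
    Tendsto (fun n : ℕ => ((⌊l * n⌋₊ : ℝ) + a) / ((n : ℝ) + b)) atTop (𝓝 l) := by
  have h1 : Tendsto (fun n : ℕ => (⌊l * (n : ℝ)⌋₊ : ℝ) / (n : ℝ)) atTop (𝓝 l) :=
    (tendsto_nat_floor_mul_div_atTop hl.le).comp tendsto_natCast_atTop_atTop
  have h2 : Tendsto (fun n : ℕ => ((⌊l * (n : ℝ)⌋₊ : ℝ) / (n : ℝ) + a / n) / (1 + b / n)) atTop
      (𝓝 ((l + 0) / (1 + 0))) := by
    apply Tendsto.div
    · exact h1.add (tendsto_const_div_atTop_nhds_zero_nat a)
    · exact (tendsto_const_div_atTop_nhds_zero_nat b).const_add 1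
    · norm_num
  rw [add_zero, add_zero, div_one] at h2
  refine h2.congr' ?_
  have h3 : Tendsto (fun n : ℕ => (n : ℝ) + b) atTop atTop :=
    tendsto_atTop_add_const_right _ _ tendsto_natCast_atTop_atTop
  filter_upwards [eventually_ge_atTop 1, h3.eventually_gt_atTop 0] with n hn hb
  have hn0 : (n : ℝ) ≠ 0 := by positivity
  have hb' : (n : ℝ) + b ≠ 0 := hb.ne'
  have hb'' : 1 + b / (n : ℝ) ≠ 0 := by
    have : 1 + b / (n : ℝ) = ((n : ℝ) + b) / n := by field_simp
    rw [this]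
    positivity
  field_simp

theorem fcomp_regular {c : ℝ} (hc : 0 < c) {l : ℝ} (hl : 0 < l) :
    Tendsto (fun n : ℕ => fcomp c ⌊l * n⌋₊ / fcomp c n) atTop (𝓝 (l ^ (2 : ℝ))) := by
  have hfl : Tendsto (fun n : ℕ => ⌊l * (n : ℝ)⌋₊) atTop atTop :=
    tendsto_nat_floor_atTop.comp (Tendsto.const_mul_atTop hl tendsto_natCast_atTop_atTop)
  have h1 := (floor_ratio hl 1 1).pow 2
  have h2 : Tendsto (fun n : ℕ => L3 (⌊l * (n : ℝ)⌋₊ + 16) / L3 (n + 16)) atTop (𝓝 1) := by
    apply L3_ratio' hl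
    · exact (tendsto_add_atTop_nat 16).comp hfl
    · exact tendsto_add_atTop_nat 16
    · refine (floor_ratio hl 16 16).congr (fun n => ?_)
      push_cast
      rfl
  have h3 := (h2.inv₀ one_ne_zero).pow 2
  have h4 := h1.mul h3
  rw [inv_one, one_pow, mul_one] at h4
  have e : l ^ (2 : ℝ) = l ^ 2 := by
    rw [← Real.rpow_natCast]; norm_num
  rw [e]
  refine h4.congr (fun n => ?_)
  unfold fcomp
  have g1 := L3_pos16 n
  have g2 := L3_pos16 ⌊l * (n : ℝ)⌋₊
  have g3 : (n : ℝ) + 1 ≠ 0 := by positivity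
  rw [inv_div]
  field_simp

end Pool.Agent.R517
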