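import Pool.Agent.R517.Asym
import Pool.Agent.R517.Dens2
import Pool.Agent.R517.Slow

/-!
Consecutive cyclic numbers between consecutive cubes with a given difference.
-/

set_option autoImplicit false

namespace Pool.Agent.R517

open Finset Filter Topology

theorem cyc_infinite : (Set.ofPred Cyc).Infinite := by
  apply Set.Infinite.mono _ Nat.infinite_setOfPred_prime
  intro p hp
  have hp' : p.Prime := hp
  show Cyc p
  refine ⟨hp'.pos, ?_⟩
  rw [Nat.totient_prime hp']
  have h1 : p - 1 < p := Nat.sub_lt hp'.pos one_pos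
  have h2 : 0 < p - 1 := by have := hp'.one_lt; omega
  exact Nat.coprime_of_lt_prime h2.ne' h1 hp'

/-- the number of pairs of consecutive cyclic numbers with difference `g` strictly between `n ^ 3` and
`(n + 1) ^ 3`; `Nat.nth Cyc j` is the cyclic number with index `j`, counted from `0` -/
noncomputable def T (g n : ℕ) : ℕ := Set.ncard {j : ℕ | n ^ 3 < Nat.nth Cyc j ∧
  Nat.nth Cyc (j + 1) < (n + 1) ^ 3 ∧ Nat.nth Cyc (j + 1) = Nat.nth Cyc j + g}

open Classical in
theorem T_eq (g n : ℕ) (hg : 0 < g) : T g n = ((Ioo (n ^ 3) ((n + 1) ^ 3)).filter (fun m =>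
    Cyc m ∧ Cyc (m + g) ∧ m + g < (n + 1) ^ 3 ∧ ∀ x, m < x → x < m + g → ¬ Cyc x)).card := by
  unfold T
  rw [← Set.ncard_coe_finset]
  apply Set.ncard_congr (fun j _ => Nat.nth Cyc j)
  · intro j hj
    obtain ⟨h1, h2, h3⟩ := hj
    rw [coe_filter, Set.mem_ofPred_eq, mem_Ioo]
    have h4 := Nat.nth_mem_of_infinite cyc_infinite j
    have h5 := Nat.nth_mem_of_infinite cyc_infinite (j + 1)
    rw [h3] at h2 h5
    refine ⟨⟨h1, by omega⟩, h4, h5, h2, ?_⟩
    intro x hx1 hx2 hx
    rw [← h3] at hx2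
    have h6 := Nat.nth_count hx
    rw [← h6] at hx1 hx2
    have h7 := (Nat.nth_strictMono cyc_infinite).lt_iff_lt.1 hx1
    have h8 := (Nat.nth_strictMono cyc_infinite).lt_iff_lt.1 hx2
    omega
  · intro i j _ _ hij
    exact (Nat.nth_injective cyc_infinite) hij
  · intro m hm
    rw [coe_filter, Set.mem_ofPred_eq, mem_Ioo] at hm
    obtain ⟨⟨h1, h2⟩, h3, h4, h5, h6⟩ := hm
    have e1 := Nat.nth_count h3
    have e2 : Nat.nth Cyc (Nat.count Cyc m + 1) = m + g := by
      apply le_antisymm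
      · have e3 := Nat.nth_count h4
        rw [← e3]
        apply (Nat.nth_strictMono cyc_infinite).monotone
        have : Nat.count Cyc m < Nat.count Cyc (m + g) := Nat.count_strict_mono h3 (by omega)
        omega
      · by_contra hlt
        push Not at hlt
        have e3 := Nat.nth_mem_of_infinite cyc_infinite (Nat.count Cyc m + 1)
        have e4 : m < Nat.nth Cyc (Nat.count Cyc m + 1) := by
          have := (Nat.nth_strictMono cyc_infinite) (Nat.lt_succ_self (Nat.count Cyc m))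
          rw [e1] at this
          exact this
        exact h6 _ e4 hlt e3
    refine ⟨Nat.count Cyc m, ⟨?_, ?_, ?_⟩, e1⟩
    · rw [e1]; exact h1
    · rw [e2]; exact h5
    · rw [e2, e1]

/-- the length of the interval between consecutive cubes -/
def Yn (n : ℕ) : ℕ := 3 * n ^ 2 + 3 * n

theorem Yn_spec (n : ℕ) : Ioo (n ^ 3) ((n + 1) ^ 3) = Ioc (n ^ 3) (n ^ 3 + Yn n) := by
  ext m
  rw [mem_Ioo, mem_Ioc]
  unfold Yn
  have : (n + 1) ^ 3 = n ^ 3 + (3 * n ^ 2 + 3 * n) + 1 := by ring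
  omega

theorem T_le (g n : ℕ) (hg : 0 < g) : T g n ≤ (tup (pairH g) (n ^ 3) (Yn n)).card := by
  classical
  rw [T_eq g n hg]
  apply card_le_card
  intro m hm
  rw [mem_filter, Yn_spec] at hm
  rw [mem_tup]
  refine ⟨hm.1, ?_⟩
  intro h hh
  unfold pairH at hh
  rw [mem_insert, mem_singleton] at hh
  rcases hh with rfl | rfl
  · simpa using hm.2.1
  · simpa using hm.2.2.1

theorem T_ge (g n : ℕ) (hg : 0 < g) : (tup (pairH g) (n ^ 3) (Yn n)).card ≤
    T g n + g + ∑ h ∈ Ioo 0 g, (tup (tripH h g) (n ^ 3) (Yn n)).card := by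
  classical
  rw [T_eq g n hg]
  have hsub : tup (pairH g) (n ^ 3) (Yn n) ⊆
      (((Ioo (n ^ 3) ((n + 1) ^ 3)).filter (fun m =>
        Cyc m ∧ Cyc (m + g) ∧ m + g < (n + 1) ^ 3 ∧ ∀ x, m < x → x < m + g → ¬ Cyc x)) ∪
      Ico ((n + 1) ^ 3 - g) ((n + 1) ^ 3)) ∪
      (Ioo 0 g).biUnion (fun h => tup (tripH h g) (n ^ 3) (Yn n)) := by
    intro m hm
    rw [mem_tup] at hm
    obtain ⟨hmI, hmc⟩ := hm
    have c0 : Cyc m := by
      have := hmc (1, 0) (by unfold pairH; simp)
      simpa using this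
    have cg : Cyc (m + g) := by
      have := hmc (1, g) (by unfold pairH; simp)
      simpa using this
    rw [mem_union, mem_union]
    by_cases h1 : m + g < (n + 1) ^ 3
    · by_cases h2 : ∀ x, m < x → x < m + g → ¬ Cyc x
      · left; left
        rw [mem_filter, Yn_spec]
        exact ⟨hmI, c0, cg, h1, h2⟩
      · right
        push Not at h2
        obtain ⟨x, hx1, hx2, hx3⟩ := h2
        rw [mem_biUnion]
        refine ⟨x - m, mem_Ioo.2 ⟨by omega, by omega⟩, ?_⟩
        rw [mem_tup]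
        refine ⟨hmI, ?_⟩
        intro h hh
        unfold tripH at hh
        rw [mem_insert, mem_insert, mem_singleton] at hh
        rcases hh with rfl | rfl | rfl
        · simpa using c0
        · have e : 1 * m + (x - m) = x := by omega
          show Cyc (1 * m + (x - m))
          rw [e]; exact hx3
        · simpa using cg
    · left; right
      rw [← Yn_spec, mem_Ioo] at hmI
      rw [mem_Ico]
      omega
  refine (card_le_card hsub).trans ((card_union_le _ _).trans ?_)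
  apply Nat.add_le_add _ card_biUnion_le
  refine (card_union_le _ _).trans ?_
  apply Nat.add_le_add_left
  rw [Nat.card_Ico]
  omega

theorem Yn_bounds : ∀ᶠ n : ℕ in atTop, (((n ^ 3 : ℕ) : ℝ)) ^ (31 / 50 : ℝ) ≤ Yn n ∧ Yn n ≤ n ^ 3 := by
  filter_upwards [eventually_ge_atTop 6] with n hn
  constructor
  · have hn0 : (0 : ℝ) < n := by positivity
    have hn1 : (1 : ℝ) ≤ n := by exact_mod_cast (by omega : 1 ≤ n)
    have h1 : (((n ^ 3 : ℕ) : ℝ)) ^ (31 / 50 : ℝ) ≤ (n : ℝ) ^ (2 : ℝ) := by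
      push_cast
      rw [← Real.rpow_natCast, ← Real.rpow_mul hn0.le]
      apply Real.rpow_le_rpow_of_exponent_le hn1
      norm_num
    refine h1.trans ?_
    unfold Yn
    push_cast
    have : (n : ℝ) ^ (2 : ℝ) = (n : ℝ) ^ 2 := by
      rw [← Real.rpow_natCast]; norm_num
    rw [this]
    nlinarith
  · unfold Yn
    have : n ^ 3 = n * n ^ 2 := by ring
    rw [this]
    nlinarith

/-- the asymptotic formula for the numbers of pairs -/
theorem T_asymp (g : ℕ) (hg : g = 2 ∨ g = 4 ∨ g = 6) :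
    Tendsto (fun n : ℕ => (T g n : ℝ) * (L3 (n ^ 3) ^ 2 / Yn n)) atTop (𝓝 (kap g)) := by
  have hg0 : 0 < g := by omega
  have hcube : Tendsto (fun n : ℕ => n ^ 3) atTop atTop := tendsto_pow_atTop (by norm_num)
  obtain ⟨lo, up, h1, h2, h3⟩ := tuples (pairH g) 2 (kap g) (by
    intro h hh
    unfold pairH at hh
    rw [mem_insert, mem_singleton] at hh
    rcases hh with rfl | rfl <;> simp) (dens_g g hg)
  have h4 : ∀ h ∈ Ioo 0 g, ∃ up' : ℕ → ℝ, Tendsto up' atTop (𝓝 0) ∧
      ∀ᶠ X : ℕ in atTop, ∀ Y : ℕ, (X : ℝ) ^ (31 / 50 : ℝ) ≤ Y → Y ≤ X →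
        ((tup (tripH h g) X Y).card : ℝ) ≤ up' X * (Y / L3 X ^ 2) := by
    intro h hh
    rw [mem_Ioo] at hh
    obtain ⟨lo', up', g1, g2, g3⟩ := tuples (tripH h g) 2 0 (by
      intro h' hh'
      unfold tripH at hh'
      rw [mem_insert, mem_insert, mem_singleton] at hh'
      rcases hh' with rfl | rfl | rfl <;> simp) (dens_trip h g hh.1 hh.2)
    refine ⟨up', g2, ?_⟩
    filter_upwards [g3] with X hX Y hY1 hY2
    exact (hX Y hY1 hY2).2
  choose! up' hu1 hu2 using h4
  have hYR : Tendsto (fun n : ℕ => (Yn n : ℝ)) atTop atTop := by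
    apply tendsto_atTop_mono _ tendsto_natCast_atTop_atTop
    intro n
    unfold Yn
    push_cast
    nlinarith [show (0 : ℝ) ≤ n by positivity]
  -- the constant term
  have hconst : Tendsto (fun n : ℕ => (g : ℝ) * (L3 (n ^ 3) ^ 2 / Yn n)) atTop (𝓝 0) := by
    have e1 : Tendsto (fun n : ℕ => (L3 (n ^ 3) / L3 n) ^ 2 * (L3 n ^ 2 / Yn n)) atTop
        (𝓝 (1 ^ 2 * 0)) := by
      apply (L3_cube.pow 2).mul
      have e2 : ∀ᶠ n : ℕ in atTop, L3 n ^ 2 / Yn n ≤ 1 / (n : ℝ) ∧ 0 ≤ L3 n ^ 2 / Yn n := by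
        have e4 : ∀ᶠ n : ℕ in atTop, L3 n ≤ LL n ∧ LL n ≤ Real.log n ∧ Real.log n ^ 2 ≤ n := by
          have e5 := log_pow_le 2 (by norm_num : (0 : ℝ) < 1)
          have e6 := tendsto_natCast_atTop_atTop (R := ℝ) |>.eventually e5
          filter_upwards [e6, tendsto_log_nat.eventually_ge_atTop 1,
            tendsto_LL.eventually_ge_atTop 1] with n f1 f2 f3
          refine ⟨?_, ?_, by linarith⟩
          · have := Real.log_le_sub_one_of_pos (show 0 < LL n by linarith)
            show Real.log (LL n) ≤ LL n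
            linarith
          · have := Real.log_le_sub_one_of_pos (show 0 < Real.log n by linarith)
            unfold LL; linarith
        filter_upwards [e4, tendsto_L3.eventually_ge_atTop 0, eventually_ge_atTop 1] with n f1 f2 f3
        refine ⟨?_, by positivity⟩
        have f4 : L3 n ^ 2 ≤ n := by
          have : L3 n ^ 2 ≤ Real.log n ^ 2 := by
            have := f1.1.trans f1.2.1
            gcongr
          linarith [f1.2.2]
        have hn0 : (0 : ℝ) < n := by exact_mod_cast f3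
        have f5 : (n : ℝ) ^ 2 ≤ Yn n := by
          unfold Yn
          push_cast
          nlinarith
        rw [div_le_div_iff₀ (by nlinarith) hn0, one_mul]
        calc L3 n ^ 2 * n ≤ n * n := by gcongr
          _ = (n : ℝ) ^ 2 := by ring
          _ ≤ _ := f5
      refine tendsto_of_tendsto_of_tendsto_of_le_of_le' tendsto_const_nhds
        (tendsto_one_div_atTop_nhds_zero_nat (𝕜 := ℝ)) ?_ ?_
      · filter_upwards [e2] with n hn using hn.2
      · filter_upwards [e2] with n hn using hn.1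
    rw [mul_zero] at e1
    have e3 := e1.const_mul (g : ℝ)
    rw [mul_zero] at e3
    refine e3.congr' ?_
    filter_upwards [tendsto_L3.eventually_gt_atTop 0] with n hn
    field_simp
  have hlow : Tendsto (fun n : ℕ => lo (n ^ 3) - (g : ℝ) * (L3 (n ^ 3) ^ 2 / Yn n) -
      ∑ h ∈ Ioo 0 g, up' h (n ^ 3)) atTop (𝓝 (kap g - 0 - ∑ h ∈ Ioo 0 g, (0 : ℝ))) := by
    apply Tendsto.sub
    · exact (h1.comp hcube).sub hconst
    · apply tendsto_finsetSum
      intro h hh
      exact (hu1 h hh).comp hcube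
  rw [sum_const_zero, sub_zero, sub_zero] at hlow
  have hall : ∀ᶠ X : ℕ in atTop, ∀ h ∈ Ioo 0 g, ∀ Y : ℕ, (X : ℝ) ^ (31 / 50 : ℝ) ≤ Y → Y ≤ X →
        ((tup (tripH h g) X Y).card : ℝ) ≤ up' h X * (Y / L3 X ^ 2) :=
    (Filter.eventually_all_finset (Ioo 0 g)).2 (fun h hh => hu2 h hh)
  refine tendsto_of_tendsto_of_tendsto_of_le_of_le' hlow (h2.comp hcube) ?_ ?_
  · filter_upwards [hcube.eventually h3, hcube.eventually hall, Yn_bounds,
      hcube.eventually (tendsto_L3.eventually_gt_atTop 0), hYR.eventually_gt_atTop 0]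
      with n e1 e2 e3 e4 e5
    have f1 := (e1 (Yn n) e3.1 e3.2).1
    have f2 : ∑ h ∈ Ioo 0 g, ((tup (tripH h g) (n ^ 3) (Yn n)).card : ℝ) ≤
        ∑ h ∈ Ioo 0 g, up' h (n ^ 3) * (Yn n / L3 (n ^ 3) ^ 2) :=
      sum_le_sum (fun h hh => e2 h hh (Yn n) e3.1 e3.2)
    rw [← sum_mul] at f2
    have f3 := T_ge g n hg0
    have f4 : ((tup (pairH g) (n ^ 3) (Yn n)).card : ℝ) ≤ T g n + g +
        ∑ h ∈ Ioo 0 g, ((tup (tripH h g) (n ^ 3) (Yn n)).card : ℝ) := by exact_mod_cast f3
    have f5 : lo (n ^ 3) * (Yn n / L3 (n ^ 3) ^ 2) - g -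
        (∑ h ∈ Ioo 0 g, up' h (n ^ 3)) * (Yn n / L3 (n ^ 3) ^ 2) ≤ T g n := by linarith
    have f6 : (0 : ℝ) < L3 (n ^ 3) ^ 2 / Yn n := by positivity
    have f7 := mul_le_mul_of_nonneg_right f5 f6.le
    refine le_trans (le_of_eq ?_) f7
    field_simp
  · filter_upwards [hcube.eventually h3, Yn_bounds,
      hcube.eventually (tendsto_L3.eventually_gt_atTop 0), hYR.eventually_gt_atTop 0]
      with n e1 e3 e4 e5
    have f1 := (e1 (Yn n) e3.1 e3.2).2
    have f3 : (T g n : ℝ) ≤ ((tup (pairH g) (n ^ 3) (Yn n)).card : ℝ) := by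
      exact_mod_cast T_le g n hg0
    have f6 : (0 : ℝ) < L3 (n ^ 3) ^ 2 / Yn n := by positivity
    have f7 := mul_le_mul_of_nonneg_right (f3.trans f1) f6.le
    refine f7.trans (le_of_eq ?_)
    simp only [Function.comp]
    field_simp

/-- the asymptotic formula in terms of `n` -/
theorem T_asymp' (g : ℕ) (hg : g = 2 ∨ g = 4 ∨ g = 6) :
    Tendsto (fun n : ℕ => (T g n : ℝ) * Real.log (Real.log (Real.log n)) ^ 2 / (n : ℝ) ^ 2) atTop
      (𝓝 (3 * kap g)) := by
  have h1 := T_asymp g hg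
  have h2 := (L3_cube.inv₀ one_ne_zero).pow 2
  have h3 : Tendsto (fun n : ℕ => (Yn n : ℝ) / (n : ℝ) ^ 2) atTop (𝓝 3) := by
    have e1 : Tendsto (fun n : ℕ => 3 + (3 : ℝ) / (n : ℝ)) atTop (𝓝 (3 + 0)) :=
      (tendsto_const_div_atTop_nhds_zero_nat (3 : ℝ)).const_add 3
    rw [add_zero] at e1
    refine e1.congr' ?_
    filter_upwards [eventually_ge_atTop 1] with n hn
    have hn0 : (n : ℝ) ≠ 0 := by positivity
    unfold Yn
    push_cast
    field_simp
  have h4 := (h1.mul h2).mul h3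
  rw [inv_one, one_pow, mul_one, mul_comm (kap g)] at h4
  refine h4.congr' ?_
  have hcube : Tendsto (fun n : ℕ => n ^ 3) atTop atTop := tendsto_pow_atTop (by norm_num)
  filter_upwards [hcube.eventually (tendsto_L3.eventually_gt_atTop 0),
    tendsto_L3.eventually_gt_atTop 0, eventually_ge_atTop 1] with n e1 e2 e3
  have hn0 : (n : ℝ) ≠ 0 := by positivity
  have hY0 : (Yn n : ℝ) ≠ 0 := by
    unfold Yn
    positivity
  have hL : Real.log (Real.log (Real.log n)) = L3 n := rfl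
  rw [hL, inv_div]
  field_simp

theorem T_fcomp (g : ℕ) (hg : g = 2 ∨ g = 4 ∨ g = 6) :
    Tendsto (fun n : ℕ => (T g n : ℝ) / fcomp (3 * kap g) n) atTop (𝓝 1) := by
  have hk := kap_pos g
  have h1 := T_asymp' g hg
  have h2 := (L3_shift 16).pow 2
  have h3 : Tendsto (fun n : ℕ => ((n : ℝ) / ((n : ℝ) + 1)) ^ 2) atTop (𝓝 (1 ^ 2)) :=
    tendsto_natCast_div_add_atTop (1 : ℝ) |>.pow 2
  have h4 := ((h1.mul h2).mul h3).div_const (3 * kap g)
  have e : 3 * kap g * 1 ^ 2 * 1 ^ 2 / (3 * kap g) = 1 := by field_simp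
  rw [e] at h4
  refine h4.congr' ?_
  filter_upwards [tendsto_L3.eventually_gt_atTop 0, eventually_ge_atTop 1] with n e2 e3
  have hn0 : (n : ℝ) ≠ 0 := by positivity
  have hn1 : (n : ℝ) + 1 ≠ 0 := by positivity
  have hL : Real.log (Real.log (Real.log n)) = L3 n := rfl
  have g1 := L3_pos16 n
  rw [hL]
  unfold fcomp
  field_simp

end Pool.Agent.R517
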