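import Pool.Agent.H387R2.U3

/-!
Lower bound for the sum of the reciprocals of the primes that are 1 modulo `q`.
-/

set_option autoImplicit false

namespace Pool.Agent.R517

open Finset Filter

theorem block_lower : ∃ x0 : ℕ, ∀ x : ℕ, x0 ≤ x → ∀ q : ℕ, q.Prime → (q : ℝ) ≤ Real.log x ^ 2 →
    (x : ℝ) / (q * Real.log x) ≤
      (((Ioc x (4 * x)).filter (fun p => p.Prime ∧ q ∣ p - 1)).card : ℝ) := by
  obtain ⟨x1, h1⟩ := Pool.Agent.H387R2.Uni.siegel
  have h2 := Pool.Agent.H387R2.Uni.pi1_lower (η := 1 / 20) (by norm_num)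
  have h3 := Chebyshev.eventually_primeCounting_le (ε := 1 / 10) (by norm_num)
  have h3' := tendsto_natCast_atTop_atTop (R := ℝ) |>.eventually h3
  have hl : Tendsto (fun X : ℕ => Real.log X) atTop atTop :=
    Real.tendsto_log_atTop.comp tendsto_natCast_atTop_atTop
  have h4 := hl.eventually_ge_atTop 100
  have h5 : Tendsto (fun x : ℕ => 4 * x) atTop atTop :=
    tendsto_atTop_mono (fun x => (by omega : x ≤ 4 * x)) tendsto_id
  obtain ⟨x0, hx0⟩ := eventually_atTop.1 ((h5.eventually h2).and (h3'.and (h4.and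
    (eventually_ge_atTop (max x1 1)))))
  refine ⟨x0, fun x hx q hq hqx => ?_⟩
  obtain ⟨g1, g2, g3, g4⟩ := hx0 x hx
  have hx1 : x1 ≤ x := (le_max_left _ _).trans g4
  have hx1' : 1 ≤ x := (le_max_right _ _).trans g4
  have hxp : (0 : ℝ) < x := by exact_mod_cast hx1'
  set L := Real.log x with hL
  have hlog4 : Real.log ((4 * x : ℕ) : ℝ) = Real.log 4 + L := by
    push_cast
    rw [Real.log_mul (by norm_num) hxp.ne']
  have hl4 : Real.log 4 ≤ 1.39 := by
    have : (4 : ℝ) = 2 ^ 2 := by norm_num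
    rw [this, Real.log_pow]
    have := Real.log_two_lt_d9
    push_cast
    linarith
  have hl4' : 0 < Real.log 4 := Real.log_pos (by norm_num)
  have hq0 : (0 : ℝ) < q := by exact_mod_cast hq.pos
  have hq1 : (1 : ℝ) < q := by exact_mod_cast hq.one_lt
  have hφ : (Nat.totient q : ℝ) = q - 1 := by
    rw [Nat.totient_prime hq, Nat.cast_sub hq.one_lt.le, Nat.cast_one]
  have hφ0 : (0 : ℝ) < Nat.totient q := by rw [hφ]; linarith
  have e1 := h1 x hx1 q hq.one_lt.le hqx 1 hq.one_lt (Nat.coprime_one_left q)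
  have e2 := h1 (4 * x) (by omega) q hq.one_lt.le (by
    refine hqx.trans ?_
    rw [hlog4]
    gcongr
    linarith) 1 hq.one_lt (Nat.coprime_one_left q)
  rw [abs_le] at e1 e2
  rw [hlog4] at e2 g1
  rw [Pool.Agent.H387R2.Uni.pi1_eq x] at e1
  have g2' : (Nat.primeCounting x : ℝ) ≤ (Real.log 4 + 1 / 10) * x / L := by
    rw [Nat.floor_natCast] at g2
    exact g2
  -- the count is a difference
  have hdiff : H343E.piAP (4 * x) q 1 -
      H343E.piAP x q 1 =
      (((Ioc x (4 * x)).filter (fun p => p.Prime ∧ q ∣ p - 1)).card : ℝ) := by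
    have d1 : ∀ N : ℕ, (Icc 1 N).filter (fun p => p.Prime ∧ p ≡ 1 [MOD q]) =
        (Icc 1 N).filter (fun p => p.Prime ∧ q ∣ p - 1) := by
      intro N
      apply filter_congr
      intro p hp
      rw [mem_Icc] at hp
      rw [Nat.ModEq.comm, Nat.modEq_iff_dvd' hp.1]
    unfold H343E.piAP
    rw [d1, d1]
    have d2 : (Icc 1 (4 * x)).filter (fun p => p.Prime ∧ q ∣ p - 1) =
        (Icc 1 x).filter (fun p => p.Prime ∧ q ∣ p - 1) ∪
          (Ioc x (4 * x)).filter (fun p => p.Prime ∧ q ∣ p - 1) := by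
      rw [← filter_union]
      congr 1
      ext p
      rw [mem_union, mem_Icc, mem_Icc, mem_Ioc]
      omega
    rw [d2, card_union_of_disjoint]
    · push_cast; ring
    · rw [disjoint_left]
      intro p hp hp'
      rw [mem_filter, mem_Icc] at hp
      rw [mem_filter, mem_Ioc] at hp'
      omega
  rw [← hdiff]
  have hL0 : (0 : ℝ) < L := by linarith
  -- main terms
  have m1 : 3.6 * (x / L) ≤ H343E.pi1 (4 * x) := by
    refine le_trans ?_ g1
    have d1 : Real.log 4 + L ≤ 1.0139 * L := by linarith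
    have d2 : (x : ℝ) / (1.0139 * L) ≤ x / (Real.log 4 + L) := by
      apply div_le_div_of_nonneg_left hxp.le (by positivity) d1
    have d3 : (x : ℝ) / (1.0139 * L) = (1 / 1.0139) * (x / L) := by field_simp
    have d4 : (0 : ℝ) < x / L := by positivity
    have d5 : (1 - 1 / 20 : ℝ) * (((4 * x : ℕ) : ℝ) / (Real.log 4 + L)) =
        3.8 * (x / (Real.log 4 + L)) := by push_cast; ring
    rw [d5]
    rw [d3] at d2
    have d6 : (0.98 : ℝ) ≤ 1 / 1.0139 := by norm_num
    nlinarith
  have m2 : (Nat.primeCounting x : ℝ) ≤ 1.5 * (x / L) := by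
    refine g2'.trans ?_
    have d4 : (0 : ℝ) < x / L := by positivity
    have d5 : (Real.log 4 + 1 / 10) * x / L = (Real.log 4 + 1 / 10) * (x / L) := by ring
    rw [d5]
    gcongr
    linarith
  have m3 : 2 * (x / L) / q ≤ (H343E.pi1 (4 * x) - Nat.primeCounting x) /
      (Nat.totient q : ℝ) := by
    have d4 : (0 : ℝ) < x / L := by positivity
    calc 2 * (x / L) / q ≤ 2 * (x / L) / (Nat.totient q : ℝ) := by
          apply div_le_div_of_nonneg_left (by positivity) hφ0
          rw [hφ]; linarith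
      _ ≤ _ := by
          gcongr
          linarith
  -- error terms
  have hE : (x : ℝ) / L ^ 6 ≤ (x / L) / q * (1 / 1000) := by
    have d1 : (q : ℝ) * 1000 ≤ L ^ 5 := by
      have d2 : (100 : ℝ) ^ 3 ≤ L ^ 3 := by gcongr
      calc (q : ℝ) * 1000 ≤ L ^ 2 * 1000 := by gcongr
        _ ≤ L ^ 2 * L ^ 3 := by
            apply mul_le_mul_of_nonneg_left _ (by positivity)
            linarith
        _ = L ^ 5 := by ring
    have d3 : (x / L) / q * (1 / 1000) = x / (L * (q * 1000)) := by field_simp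
    rw [d3]
    apply div_le_div_of_nonneg_left hxp.le (by positivity)
    calc L * ((q : ℝ) * 1000) ≤ L * L ^ 5 := by gcongr
      _ = L ^ 6 := by ring
  have hE2 : ((4 * x : ℕ) : ℝ) / (Real.log 4 + L) ^ 6 ≤ 4 * (x / L ^ 6) := by
    push_cast
    rw [mul_div_assoc]
    gcongr
    linarith
  have hfin : (x : ℝ) / (q * L) = (x / L) / q := by field_simp
  rw [hfin]
  have hpos : (0 : ℝ) < (x / L) / q := by positivity
  have e3 : H343E.pi1 (4 * x) / (Nat.totient q : ℝ) -
      Nat.primeCounting x / (Nat.totient q : ℝ) =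
      (H343E.pi1 (4 * x) - Nat.primeCounting x) / (Nat.totient q : ℝ) := by
    ring
  have e4 : 2 * (x / L) / (q : ℝ) = 2 * ((x / L) / q) := by ring
  rw [e4] at m3
  linarith [e1.2, e2.1]

end Pool.Agent.R517
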