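import Pool.Agent.R517.Bad

/-!
A second moment bound: integers divisible by `q` and by no prime of a finite set.
-/

set_option autoImplicit false

namespace Pool.Agent.R517

open Finset

/-- two-sided count of multiples -/
theorem card_dvd_two (X Y r : ℕ) (hr : 0 < r) :
    |(((Ioc X (X + Y)).filter (fun m => r ∣ m)).card : ℝ) - (Y : ℝ) / r| ≤ 1 := by
  have h := card_dvd X Y r hr
  rw [abs_le]
  refine ⟨?_, by linarith⟩
  have h := Nat.Ioc_filter_modEq_card X (X + Y) hr 0
  have h1 : (Y : ℚ) / r - 1 ≤ ((((Ioc X (X + Y)).filter (fun m => m ≡ 0 [MOD r])).card : ℤ) : ℚ) := by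
    rw [h]
    push_cast
    have hr' : (0 : ℚ) < r := by exact_mod_cast hr
    rw [le_max_iff]
    left
    have h2 : ((X : ℚ) + Y - 0) / r < ((⌊((X : ℚ) + Y - 0) / r⌋ : ℤ) : ℚ) + 1 := Int.lt_floor_add_one _
    have h3 : ((⌊((X : ℚ) - 0) / r⌋ : ℤ) : ℚ) ≤ ((X : ℚ) - 0) / r := Int.floor_le _
    have e : ((X : ℚ) + Y - 0) / r = ((X : ℚ) - 0) / r + Y / r := by ring
    simp only [Nat.cast_zero] at *
    linarith
  have h2 : (((Y : ℚ) / r - 1 : ℚ) : ℝ) ≤
      (((((Ioc X (X + Y)).filter (fun m => m ≡ 0 [MOD r])).card : ℤ) : ℚ) : ℝ) := Rat.cast_le.2 h1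
  push_cast at h2
  have h3 : (Ioc X (X + Y)).filter (fun m => r ∣ m) =
      (Ioc X (X + Y)).filter (fun m => m ≡ 0 [MOD r]) := by
    apply filter_congr
    intro m _
    exact (Nat.modEq_zero_iff_dvd).symm
  rw [h3]
  linarith

theorem second_moment (X Y q : ℕ) (P : Finset ℕ) (hP : ∀ p ∈ P, p.Prime) (hq : q.Prime)
    (hqP : q ∉ P) :
    (((Ioc X (X + Y)).filter (fun m => q ∣ m ∧ ∀ p ∈ P, ¬ p ∣ m)).card : ℝ) *
        (∑ p ∈ P, (1 : ℝ) / p) ^ 2 ≤
      (Y : ℝ) / q * (∑ p ∈ P, (1 : ℝ) / p) + (P.card + ∑ p ∈ P, (1 : ℝ) / p) ^ 2 := by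
  set μ := ∑ p ∈ P, (1 : ℝ) / p with hμ
  set S := (Ioc X (X + Y)).filter (fun m => q ∣ m) with hS
  set ω : ℕ → ℝ := fun m => ∑ p ∈ P, (if p ∣ m then (1 : ℝ) else 0) with hω
  have hμ0 : 0 ≤ μ := by rw [hμ]; positivity
  have hq0 : (0 : ℝ) < q := by exact_mod_cast hq.pos
  -- lower bound of the variance
  have h1 : (((Ioc X (X + Y)).filter (fun m => q ∣ m ∧ ∀ p ∈ P, ¬ p ∣ m)).card : ℝ) * μ ^ 2 ≤
      ∑ m ∈ S, (ω m - μ) ^ 2 := by
    have h2 : (Ioc X (X + Y)).filter (fun m => q ∣ m ∧ ∀ p ∈ P, ¬ p ∣ m) ⊆ S := by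
      intro m hm
      rw [mem_filter] at hm
      rw [hS, mem_filter]
      exact ⟨hm.1, hm.2.1⟩
    refine le_trans ?_ (sum_le_sum_of_subset_of_nonneg h2 (fun m _ _ => sq_nonneg _))
    rw [← nsmul_eq_mul, ← sum_const]
    apply sum_le_sum
    intro m hm
    rw [mem_filter] at hm
    have h3 : ω m = 0 := by
      simp only [hω]
      apply sum_eq_zero
      intro p hp
      rw [if_neg (hm.2.2 p hp)]
    rw [h3]
    apply le_of_eq; ring
  refine h1.trans ?_
  have h2 : ∑ m ∈ S, (ω m - μ) ^ 2 = ∑ m ∈ S, ω m ^ 2 - 2 * μ * ∑ m ∈ S, ω m + μ ^ 2 * S.card := by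
    rw [mul_sum, ← sum_sub_distrib, mul_comm (μ ^ 2), ← nsmul_eq_mul, ← sum_const, ← sum_add_distrib]
    apply sum_congr rfl
    intro m _
    ring
  -- the number of multiples of q
  have hSc : (S.card : ℝ) ≤ Y / q + 1 := card_dvd X Y q hq.pos
  -- first moment
  have h3 : Y / q * μ - P.card ≤ ∑ m ∈ S, ω m := by
    have h4 : ∑ m ∈ S, ω m = ∑ p ∈ P, (((Ioc X (X + Y)).filter (fun m => q * p ∣ m)).card : ℝ) := by
      simp only [hω]
      rw [sum_comm]
      apply sum_congr rfl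
      intro p hp
      rw [← sum_filter, sum_const, nsmul_eq_mul, mul_one, hS, filter_filter]
      congr 2
      apply filter_congr
      intro m _
      have hcop : Nat.Coprime q p := (Nat.coprime_primes hq (hP p hp)).2 (fun h => hqP (h ▸ hp))
      exact ⟨fun h => hcop.mul_dvd_of_dvd_of_dvd h.1 h.2,
        fun h => ⟨(dvd_mul_right q p).trans h, (dvd_mul_left p q).trans h⟩⟩
    rw [h4, hμ, mul_sum, card_eq_sum_ones]
    push_cast
    rw [← sum_sub_distrib]
    apply sum_le_sum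
    intro p hp
    have hp0 : (0 : ℝ) < p := by exact_mod_cast (hP p hp).pos
    have h5 := card_dvd_two X Y (q * p) (Nat.mul_pos hq.pos (hP p hp).pos)
    rw [abs_le] at h5
    have h6 : (Y : ℝ) / ((q * p : ℕ) : ℝ) = Y / q * (1 / p) := by
      push_cast; field_simp
    rw [h6] at h5
    linarith [h5.1]
  -- second moment
  have h4 : ∑ m ∈ S, ω m ^ 2 ≤ Y / q * μ ^ 2 + Y / q * μ + (P.card : ℝ) ^ 2 := by
    have h5 : ∑ m ∈ S, ω m ^ 2 = ∑ p ∈ P, ∑ p' ∈ P,
        ((S.filter (fun m => p ∣ m ∧ p' ∣ m)).card : ℝ) := by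
      have h6 : ∀ m ∈ S, ω m ^ 2 = ∑ p ∈ P, ∑ p' ∈ P, (if p ∣ m ∧ p' ∣ m then (1 : ℝ) else 0) := by
        intro m _
        simp only [hω]
        rw [sq, sum_mul_sum]
        apply sum_congr rfl
        intro p _
        apply sum_congr rfl
        intro p' _
        by_cases h7 : p ∣ m <;> by_cases h8 : p' ∣ m <;> simp [h7, h8]
      rw [sum_congr rfl h6, sum_comm]
      apply sum_congr rfl
      intro p _
      rw [sum_comm]
      apply sum_congr rfl
      intro p' _
      rw [← sum_filter, sum_const, nsmul_eq_mul, mul_one]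
    rw [h5]
    have h6 : ∀ p ∈ P, ∀ p' ∈ P, ((S.filter (fun m => p ∣ m ∧ p' ∣ m)).card : ℝ) ≤
        Y / q * ((1 / p) * (1 / p')) + (if p = p' then (Y : ℝ) / q * (1 / p) else 0) + 1 := by
      intro p hp p' hp'
      have hp0 : (0 : ℝ) < p := by exact_mod_cast (hP p hp).pos
      have hp0' : (0 : ℝ) < p' := by exact_mod_cast (hP p' hp').pos
      have hcop : Nat.Coprime q p := (Nat.coprime_primes hq (hP p hp)).2 (fun h => hqP (h ▸ hp))
      have hcop' : Nat.Coprime q p' := (Nat.coprime_primes hq (hP p' hp')).2 (fun h => hqP (h ▸ hp'))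
      split_ifs with h7
      · subst h7
        have h8 : (S.filter (fun m => p ∣ m ∧ p ∣ m)) = (Ioc X (X + Y)).filter (fun m => q * p ∣ m) := by
          rw [hS, filter_filter]
          apply filter_congr
          intro m _
          exact ⟨fun h => hcop.mul_dvd_of_dvd_of_dvd h.1 h.2.1,
            fun h => ⟨(dvd_mul_right q p).trans h, (dvd_mul_left p q).trans h,
              (dvd_mul_left p q).trans h⟩⟩
        rw [h8]
        have h9 := card_dvd X Y (q * p) (Nat.mul_pos hq.pos (hP p hp).pos)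
        have h10 : (Y : ℝ) / ((q * p : ℕ) : ℝ) = Y / q * (1 / p) := by
          push_cast; field_simp
        rw [h10] at h9
        have h11 : (0 : ℝ) ≤ Y / q * ((1 / p) * (1 / p)) := by positivity
        linarith
      · have h8 : (S.filter (fun m => p ∣ m ∧ p' ∣ m)) =
            (Ioc X (X + Y)).filter (fun m => q * p * p' ∣ m) := by
          rw [hS, filter_filter]
          apply filter_congr
          intro m _
          have hpp : Nat.Coprime p p' := (Nat.coprime_primes (hP p hp) (hP p' hp')).2 h7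
          refine ⟨fun h => ?_, fun h => ⟨?_, ?_, ?_⟩⟩
          · apply Nat.Coprime.mul_dvd_of_dvd_of_dvd (Nat.Coprime.mul_left hcop' hpp) _ h.2.2
            exact hcop.mul_dvd_of_dvd_of_dvd h.1 h.2.1
          · exact (Dvd.intro _ (by ring : q * (p * p') = q * p * p')).trans h
          · exact (Dvd.intro _ (by ring : p * (q * p') = q * p * p')).trans h
          · exact (Dvd.intro _ (by ring : p' * (q * p) = q * p * p')).trans h
        rw [h8]
        have h9 := card_dvd X Y (q * p * p')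
          (Nat.mul_pos (Nat.mul_pos hq.pos (hP p hp).pos) (hP p' hp').pos)
        have h10 : (Y : ℝ) / ((q * p * p' : ℕ) : ℝ) = Y / q * ((1 / p) * (1 / p')) := by
          push_cast; field_simp
        rw [h10] at h9
        linarith
    refine (sum_le_sum fun p hp => sum_le_sum fun p' hp' => h6 p hp p' hp').trans ?_
    simp only [sum_add_distrib, sum_ite_eq, sum_const, nsmul_eq_mul, mul_one]
    have h7 : ∑ p ∈ P, ∑ p' ∈ P, (Y : ℝ) / q * ((1 / p) * (1 / p')) = Y / q * μ ^ 2 := by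
      rw [sq, hμ, sum_mul_sum, mul_sum]
      apply sum_congr rfl
      intro p _
      rw [mul_sum]
    have h8 : ∑ p ∈ P, (if p ∈ P then (Y : ℝ) / q * (1 / p) else 0) = Y / q * μ := by
      rw [hμ, mul_sum]
      apply sum_congr rfl
      intro p hp
      rw [if_pos hp]
    rw [h7, h8]
    apply le_of_eq
    ring
  rw [h2]
  have h5 : 2 * μ * (Y / q * μ - P.card) ≤ 2 * μ * ∑ m ∈ S, ω m := by gcongr
  have h6 : μ ^ 2 * S.card ≤ μ ^ 2 * (Y / q + 1) := by gcongr
  nlinarith

end Pool.Agent.R517
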