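import Pool.Agent.R517.MertL
import Pool.Agent.R517.Mom
import Pool.Agent.R517.Cyc

/-!
Cyclic numbers divisible by a small prime are rare.
-/

set_option autoImplicit false

namespace Pool.Agent.R517

open Finset Filter

theorem sum_blocks (f : ℕ → ℝ) (u : ℕ → ℕ) (hu : Monotone u) (a b : ℕ) (hab : a ≤ b) :
    ∑ j ∈ Ico a b, ∑ p ∈ Ioc (u j) (u (j + 1)), f p = ∑ p ∈ Ioc (u a) (u b), f p := by
  induction b, hab using Nat.le_induction with
  | base => simp
  | succ b hab ih =>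
    rw [sum_Ico_succ_top hab, ih, sum_Ioc_consecutive]
    · exact hu hab
    · exact hu (Nat.le_succ b)

theorem sum_inv_ge_log (a b : ℕ) (ha : 1 ≤ a) (hab : a ≤ b) :
    Real.log b - Real.log a ≤ ∑ j ∈ Ico a b, (1 : ℝ) / j := by
  induction b, hab using Nat.le_induction with
  | base => simp
  | succ b hab ih =>
    rw [sum_Ico_succ_top hab]
    have hb : (0 : ℝ) < b := by exact_mod_cast (by omega : 0 < b)
    have h1 : Real.log ((b + 1 : ℕ) : ℝ) - Real.log b ≤ 1 / b := by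
      rw [← Real.log_div (by positivity) hb.ne']
      have h2 := Real.log_le_sub_one_of_pos (show (0 : ℝ) < ((b + 1 : ℕ) : ℝ) / b by positivity)
      refine h2.trans (le_of_eq ?_)
      push_cast
      field_simp
      ring
    linarith

theorem mu_lower : ∀ᶠ X : ℕ in atTop, ∀ q : ℕ, q.Prime → (q : ℝ) ≤ Real.log (Real.log X) →
    Real.log (Real.log X) / (20 * q) ≤
      ∑ p ∈ (Icc 1 ⌊(X : ℝ) ^ (1 / 20 : ℝ)⌋₊).filter (fun p => p.Prime ∧ q ∣ p - 1), (1 : ℝ) / p := by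
  obtain ⟨x0, hx0⟩ := block_lower
  have hl : Tendsto (fun X : ℕ => Real.log X) atTop atTop :=
    Real.tendsto_log_atTop.comp tendsto_natCast_atTop_atTop
  have hll : Tendsto (fun X : ℕ => Real.log (Real.log X)) atTop atTop :=
    Real.tendsto_log_atTop.comp hl
  filter_upwards [hl.eventually_ge_atTop 3600, hl.eventually_ge_atTop ((x0 : ℝ) ^ 2),
    hll.eventually_ge_atTop (6 * Real.log 120), hll.eventually_ge_atTop 1,
    eventually_ge_atTop 1] with X h1 h2 h3 h4 h5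
  intro q hq hqX
  set L := Real.log X with hL
  set LL := Real.log L with hLL
  have hX0 : (0 : ℝ) < X := by exact_mod_cast h5
  have hL0 : (0 : ℝ) < L := by linarith
  have hq0 : (0 : ℝ) < q := by exact_mod_cast hq.pos
  set s := Real.sqrt L with hs
  have hs2 : s ^ 2 = L := Real.sq_sqrt hL0.le
  have hs60 : 60 ≤ s := by
    rw [hs]
    apply Real.le_sqrt_of_sq_le
    linarith
  set J0 := ⌈s⌉₊ with hJ0
  set J1 := ⌊L / 30⌋₊ with hJ1
  have hJ0l : s ≤ J0 := Nat.le_ceil s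
  have hJ0u : (J0 : ℝ) < s + 1 := Nat.ceil_lt_add_one (by linarith)
  have hJ1l : L / 30 - 1 < J1 := by
    have := Nat.lt_floor_add_one (L / 30)
    rw [← hJ1] at this
    linarith
  have hJ1u : (J1 : ℝ) ≤ L / 30 := Nat.floor_le (by positivity)
  have hJ0pos : 1 ≤ J0 := by
    have : (1 : ℝ) ≤ J0 := by linarith
    exact_mod_cast this
  have hJ01 : J0 ≤ J1 := by
    have : (J0 : ℝ) ≤ J1 := by nlinarith
    exact_mod_cast this
  have hx0J : ∀ j, J0 ≤ j → x0 ≤ 4 ^ j := by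
    intro j hj
    have e1 : (x0 : ℝ) ≤ s := by
      rw [hs]
      apply Real.le_sqrt_of_sq_le h2
    have e2 : (x0 : ℝ) ≤ J0 := e1.trans hJ0l
    have e3 : x0 ≤ J0 := by exact_mod_cast e2
    exact e3.trans (hj.trans (Nat.lt_pow_self (by norm_num)).le)
  have hlog4 : Real.log 4 ≤ 1.39 := by
    have : (4 : ℝ) = 2 ^ 2 := by norm_num
    rw [this, Real.log_pow]
    have := Real.log_two_lt_d9
    push_cast
    linarith
  have hlog4' : 1.38 ≤ Real.log 4 := by
    have : (4 : ℝ) = 2 ^ 2 := by norm_num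
    rw [this, Real.log_pow]
    have := Real.log_two_gt_d9
    push_cast
    linarith
  have hlogpow : ∀ j : ℕ, Real.log ((4 ^ j : ℕ) : ℝ) = j * Real.log 4 := by
    intro j
    push_cast
    rw [Real.log_pow]
  -- top of the range
  have htop : 4 ^ J1 ≤ ⌊(X : ℝ) ^ (1 / 20 : ℝ)⌋₊ := by
    apply Nat.le_floor
    rw [← Real.log_le_log_iff (by positivity) (by positivity), hlogpow, Real.log_rpow hX0]
    have : (J1 : ℝ) * Real.log 4 ≤ (L / 30) * 1.39 := by gcongr
    linarith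
  -- blocks
  have hblock : ∀ j ∈ Ico J0 J1, 1 / (5.56 * (q : ℝ)) * (1 / j) ≤
      ∑ p ∈ Ioc (4 ^ j) (4 ^ (j + 1)), (if p.Prime ∧ q ∣ p - 1 then (1 : ℝ) / p else 0) := by
    intro j hj
    rw [mem_Ico] at hj
    have hj0 : (0 : ℝ) < j := by exact_mod_cast (by omega : 0 < j)
    have hjs : s ≤ j := hJ0l.trans (by exact_mod_cast hj.1)
    have e1 := hx0 (4 ^ j) (hx0J j hj.1) q hq (by
      rw [hlogpow]
      have e2 : LL ≤ L := by
        have := Real.log_le_sub_one_of_pos hL0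
        rw [hLL]; linarith
      have e3 : L ≤ (j : ℝ) ^ 2 := by rw [← hs2]; gcongr
      have e4 : (j : ℝ) ^ 2 ≤ (j * Real.log 4) ^ 2 := by
        gcongr
        nlinarith
      linarith)
    rw [hlogpow] at e1
    rw [← sum_filter, pow_succ, mul_comm (4 ^ j) 4]
    have e2 : (((Ioc (4 ^ j) (4 * 4 ^ j)).filter (fun p => p.Prime ∧ q ∣ p - 1)).card : ℝ) *
        (1 / (4 * 4 ^ j)) ≤
        ∑ p ∈ (Ioc (4 ^ j) (4 * 4 ^ j)).filter (fun p => p.Prime ∧ q ∣ p - 1), (1 : ℝ) / p := by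
      rw [← nsmul_eq_mul]
      apply card_nsmul_le_sum
      intro p hp
      rw [mem_filter, mem_Ioc] at hp
      have hp0 : (0 : ℝ) < p := by exact_mod_cast hp.2.1.pos
      have hp1 : (p : ℝ) ≤ 4 * 4 ^ j := by exact_mod_cast hp.1.2
      exact one_div_le_one_div_of_le hp0 hp1
    refine le_trans ?_ e2
    have e3 : (((4 ^ j : ℕ) : ℝ)) / (q * (j * Real.log 4)) * (1 / (4 * 4 ^ j)) ≤
        (((Ioc (4 ^ j) (4 * 4 ^ j)).filter (fun p => p.Prime ∧ q ∣ p - 1)).card : ℝ) *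
        (1 / (4 * 4 ^ j)) := by gcongr
    refine le_trans ?_ e3
    have e4 : (((4 ^ j : ℕ) : ℝ)) / (q * (j * Real.log 4)) * (1 / (4 * 4 ^ j)) =
        1 / ((4 * Real.log 4) * (q : ℝ)) * (1 / j) := by
      push_cast
      have : Real.log 4 ≠ 0 := by linarith
      field_simp
    rw [e4]
    gcongr
    linarith
  have hsum := sum_le_sum hblock
  rw [sum_blocks _ (fun j => 4 ^ j) (fun a b h => Nat.pow_le_pow_right (by norm_num) h) J0 J1 hJ01,
    ← mul_sum, ← sum_filter] at hsum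
  have hlogs := sum_inv_ge_log J0 J1 hJ0pos hJ01
  have hfin : LL / 3 ≤ Real.log J1 - Real.log J0 := by
    have e1 : Real.log (L / 60) ≤ Real.log J1 := by
      apply Real.log_le_log (by positivity)
      linarith
    have e2 : Real.log J0 ≤ Real.log (2 * s) := by
      apply Real.log_le_log (by linarith)
      linarith
    rw [Real.log_div hL0.ne' (by norm_num)] at e1
    rw [Real.log_mul (by norm_num) (by linarith), hs, Real.log_sqrt hL0.le] at e2
    have e3 : Real.log 120 = Real.log 2 + Real.log 60 := by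
      rw [← Real.log_mul (by norm_num) (by norm_num)]; norm_num
    linarith
  have hsub : ∑ p ∈ (Ioc (4 ^ J0) (4 ^ J1)).filter (fun p => p.Prime ∧ q ∣ p - 1), (1 : ℝ) / p ≤
      ∑ p ∈ (Icc 1 ⌊(X : ℝ) ^ (1 / 20 : ℝ)⌋₊).filter (fun p => p.Prime ∧ q ∣ p - 1), (1 : ℝ) / p := by
    apply sum_le_sum_of_subset_of_nonneg
    · apply filter_subset_filter
      intro p hp
      rw [mem_Ioc] at hp
      rw [mem_Icc]
      exact ⟨lt_of_le_of_lt (Nat.zero_le _) hp.1, hp.2.trans htop⟩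
    · intro p _ _
      positivity
  have h6 : LL / (20 * q) ≤ 1 / (5.56 * (q : ℝ)) * (LL / 3) := by
    have : 1 / (5.56 * (q : ℝ)) * (LL / 3) = (1 / (5.56 * 3)) * (LL / q) := by field_simp
    rw [this]
    have : LL / (20 * (q : ℝ)) = (1 / 20) * (LL / q) := by field_simp
    rw [this]
    have : (0 : ℝ) ≤ LL / q := by positivity
    gcongr
    norm_num
  have h7 : 1 / (5.56 * (q : ℝ)) * (LL / 3) ≤ 1 / (5.56 * (q : ℝ)) * ∑ j ∈ Ico J0 J1, (1 : ℝ) / j := by
    gcongr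
    linarith
  linarith

open Classical in
/-- few cyclic numbers of a short interval are divisible by the small prime `q` -/
theorem K_bound : ∀ᶠ X : ℕ in atTop, ∀ Y : ℕ, (X : ℝ) ^ (3 / 5 : ℝ) ≤ Y → ∀ q : ℕ, q.Prime →
    (q : ℝ) ≤ Real.log (Real.log X) →
    (((Ioc X (X + Y)).filter (fun m => q ∣ m ∧ Cyc m)).card : ℝ) ≤
      21 * (Y : ℝ) / Real.log (Real.log X) := by
  have hl : Tendsto (fun X : ℕ => Real.log X) atTop atTop :=
    Real.tendsto_log_atTop.comp tendsto_natCast_atTop_atTop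
  have hll : Tendsto (fun X : ℕ => Real.log (Real.log X)) atTop atTop :=
    Real.tendsto_log_atTop.comp hl
  have hpow : ∀ᶠ X : ℕ in atTop, 441 * Real.log X ≤ (X : ℝ) ^ (1 / 2 : ℝ) := by
    have h4 := (isLittleO_log_rpow_atTop (by norm_num : (0 : ℝ) < 1 / 2)).bound
      (by norm_num : (0 : ℝ) < 1 / 441)
    have h5 := tendsto_natCast_atTop_atTop (R := ℝ) |>.eventually h4
    filter_upwards [h5, hl.eventually_ge_atTop 0] with X hX hX1
    rw [Real.norm_of_nonneg hX1, Real.norm_of_nonneg (Real.rpow_nonneg (by positivity) _)] at hX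
    linarith
  filter_upwards [mu_lower, hpow, hll.eventually_ge_atTop 1, hl.eventually_ge_atTop 1,
    eventually_ge_atTop 1] with X hmu hp hLL1 hL1 hX1
  intro Y hXY q hq hqX
  set L := Real.log X with hL
  set LL := Real.log L with hLL
  have hX0 : (0 : ℝ) < X := by exact_mod_cast hX1
  have hq0 : (0 : ℝ) < q := by exact_mod_cast hq.pos
  have hq2 : (2 : ℝ) ≤ q := by exact_mod_cast hq.two_le
  have hmuq := hmu q hq hqX
  set w := (X : ℝ) ^ (1 / 20 : ℝ) with hw
  have hw1 : 1 ≤ w := Real.one_le_rpow (by exact_mod_cast hX1) (by norm_num)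
  set P := (Icc 1 ⌊w⌋₊).filter (fun p => p.Prime ∧ q ∣ p - 1) with hP
  set μ := ∑ p ∈ P, (1 : ℝ) / p with hμ
  have hPc : (P.card : ℝ) ≤ w := by
    have e1 : P.card ≤ ⌊w⌋₊ := by
      refine (card_filter_le _ _).trans ?_
      simp
    have e2 : (P.card : ℝ) ≤ (⌊w⌋₊ : ℝ) := by exact_mod_cast e1
    exact e2.trans (Nat.floor_le (by linarith))
  have hqP : q ∉ P := by
    intro h
    rw [hP, mem_filter] at h
    have h1 : q ∣ 1 := by
      have h3 : q - (q - 1) = 1 := by have := hq.one_lt; omega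
      rw [← h3]
      exact Nat.dvd_sub dvd_rfl h.2.2
    exact hq.one_lt.ne' (Nat.dvd_one.1 h1)
  have hsm := second_moment X Y q P (fun p hp => (mem_filter.1 hp).2.1) hq hqP
  rw [← hμ] at hsm
  have hsub : (Ioc X (X + Y)).filter (fun m => q ∣ m ∧ Cyc m) ⊆
      (Ioc X (X + Y)).filter (fun m => q ∣ m ∧ ∀ p ∈ P, ¬ p ∣ m) := by
    intro m hm
    rw [mem_filter] at hm ⊢
    refine ⟨hm.1, hm.2.1, fun p hp hpm => ?_⟩
    rw [hP, mem_filter] at hp
    exact hm.2.2.no_pair hp.2.1 hq hm.2.1 hpm hp.2.2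
  have hc : (((Ioc X (X + Y)).filter (fun m => q ∣ m ∧ Cyc m)).card : ℝ) ≤
      ((Ioc X (X + Y)).filter (fun m => q ∣ m ∧ ∀ p ∈ P, ¬ p ∣ m)).card := by
    have := card_le_card hsub
    exact_mod_cast this
  refine hc.trans ?_
  set K := (((Ioc X (X + Y)).filter (fun m => q ∣ m ∧ ∀ p ∈ P, ¬ p ∣ m)).card : ℝ) with hK
  have hμpos : 0 < μ := lt_of_lt_of_le (by positivity) hmuq
  have hLL0 : 0 < LL := by linarith
  -- K ≤ (Y/q)/μ + ((P+μ)/μ)^2
  have h1 : K ≤ (Y / q) / μ + ((P.card + μ) / μ) ^ 2 := by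
    have h2 : (Y / q) / μ + ((P.card + μ) / μ) ^ 2 = ((Y / q) * μ + (P.card + μ) ^ 2) / μ ^ 2 := by
      field_simp
    rw [h2, le_div_iff₀ (by positivity)]
    exact hsm
  have h2 : (Y / q) / μ ≤ 20 * Y / LL := by
    have h3 : (Y / q) / μ ≤ (Y / q) / (LL / (20 * q)) := by gcongr
    refine h3.trans (le_of_eq ?_)
    field_simp
  have h3 : (P.card + μ) / μ ≤ 21 * w := by
    have h4 : (P.card : ℝ) / μ ≤ w / (LL / (20 * q)) := by gcongr
    have h5 : w / (LL / (20 * q)) = 20 * w * (q / LL) := by field_simp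
    have h6 : (q : ℝ) / LL ≤ 1 := by
      rw [div_le_one hLL0]
      exact hqX
    have h7 : 20 * w * (q / LL) ≤ 20 * w * 1 := by gcongr
    have h8 : (P.card + μ) / μ = P.card / μ + 1 := by field_simp
    rw [h8]
    linarith
  have h4 : ((P.card + μ) / μ) ^ 2 ≤ Y / LL := by
    have h5 : ((P.card + μ) / μ) ^ 2 ≤ (21 * w) ^ 2 := by
      have : 0 ≤ (P.card + μ) / μ := by positivity
      gcongr
    refine h5.trans ?_
    rw [le_div_iff₀ hLL0]
    have h6 : (21 * w) ^ 2 = 441 * (X : ℝ) ^ (1 / 10 : ℝ) := by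
      rw [mul_pow, hw, ← Real.rpow_natCast ((X : ℝ) ^ (1 / 20 : ℝ)), ← Real.rpow_mul hX0.le]
      norm_num
    rw [h6]
    have h7 : LL ≤ L := by
      have := Real.log_le_sub_one_of_pos (show 0 < L by linarith)
      rw [hLL]; linarith
    calc 441 * (X : ℝ) ^ (1 / 10 : ℝ) * LL ≤ 441 * (X : ℝ) ^ (1 / 10 : ℝ) * L := by gcongr
      _ = (X : ℝ) ^ (1 / 10 : ℝ) * (441 * L) := by ring
      _ ≤ (X : ℝ) ^ (1 / 10 : ℝ) * (X : ℝ) ^ (1 / 2 : ℝ) := by gcongr
      _ = (X : ℝ) ^ (1 / 10 + 1 / 2 : ℝ) := by rw [Real.rpow_add hX0]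
      _ ≤ (X : ℝ) ^ (3 / 5 : ℝ) := by
          apply Real.rpow_le_rpow_of_exponent_le (by exact_mod_cast hX1)
          norm_num
      _ ≤ Y := hXY
  have h5 : 21 * (Y : ℝ) / LL = 20 * Y / LL + Y / LL := by ring
  rw [h5]
  linarith

end Pool.Agent.R517
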